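import Mathlib
import Pool.Agent.W587.PL.D

set_option autoImplicit false

/-!
# Bernstein's inequality for entire functions which are of exponential type on a disc only
-/

open Complex Set Filter Topology

namespace Pool.Agent.Q85.Mom

open W587.PL

/-- the local sampling inequality, for the values and not only their moduli -/
theorem LS2 {g : ℂ → ℂ} (hg : Differentiable ℂ g) {b : ℝ} (hb : 0 < b) (hb2 : b < Real.pi / 2)
    {N : ℕ} (hN : 1 ≤ N) (h : ∀ w : ℂ, ‖w‖ ≤ N * Real.pi + b → ‖g w‖ ≤ Real.exp |w.im|) :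
    ‖g 0 - Real.cos b * g b‖ ≤ Real.sin b + 6 * b / (N * Real.pi - b) := by
  have hpi := Real.pi_pos
  have hN' : (1 : ℝ) ≤ N := by exact_mod_cast hN
  have hNp : Real.pi ≤ N * Real.pi := by nlinarith
  have hRb : 0 < N * Real.pi - b := by linarith
  have hcos : 0 < Real.cos b := Real.cos_pos_of_mem_Ioo ⟨by linarith, hb2⟩
  have hcos1 : Real.cos b ≤ 1 := Real.cos_le_one b
  have hbc : (b : ℂ) ≠ 0 := by exact_mod_cast hb.ne'
  have hW : WN b N ≤ Real.sin b / (b * Real.cos b) + 3 / (N * Real.pi - b) := by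
    have h1 := err_bound (g := fun w => Complex.sin (w - b)) (by fun_prop) hb hb2 hN (fun w _ => by
      have := norm_sin_le (w - b)
      simpa using this)
    rw [SN_sin hb hb2] at h1
    simp only [sub_self, Complex.sin_zero, zero_div, add_zero, zero_sub, Complex.sin_neg] at h1
    have e : -Complex.sin b / (-b * Complex.cos b) + -((WN b N : ℝ) : ℂ) =
        ((Real.sin b / (b * Real.cos b) - WN b N : ℝ) : ℂ) := by
      push_cast
      rw [neg_mul, neg_div_neg_eq]
      ring
    rw [e, Complex.norm_real, Real.norm_eq_abs] at h1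
    have := (abs_le.1 h1).1
    linarith
  have hS : ‖SN g b N‖ ≤ WN b N := by
    refine norm_SN_le hb hb2 fun k hk => ?_
    have h1 : ‖(b : ℂ) + nod k‖ ≤ N * Real.pi + b := by
      refine (norm_add_le _ _).trans ?_
      rw [Complex.norm_real, Real.norm_eq_abs, abs_of_pos hb]
      have : nod k ∈ ZZ b N := by
        unfold ZZ
        rw [Finset.mem_insert, Finset.mem_insert]
        exact Or.inr (Or.inr (Finset.mem_image_of_mem _ hk))
      linarith [(ZZ_norm hb hb2 hN this).le]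
    have h2 := h _ h1
    have e : ((b : ℂ) + nod k).im = 0 := by
      unfold nod
      rw [Complex.add_im, Complex.ofReal_im, Complex.ofReal_im, add_zero]
    rw [e, abs_zero, Real.exp_zero] at h2
    exact h2
  have hE := err_bound hg hb hb2 hN h
  set E : ℂ := g 0 / (-b * Complex.cos b) + g b / b + SN g b N with hEdef
  have hcc : Complex.cos b ≠ 0 := by
    rw [← Complex.ofReal_cos]; exact_mod_cast hcos.ne'
  have key : g 0 - Real.cos b * g b = ((b * Real.cos b : ℝ) : ℂ) * (SN g b N - E) := by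
    rw [hEdef]
    push_cast
    field_simp
    ring
  rw [key, norm_mul, Complex.norm_real, Real.norm_eq_abs, abs_of_pos (by positivity)]
  have h1 : ‖SN g b N - E‖ ≤ Real.sin b / (b * Real.cos b) + 6 / (N * Real.pi - b) := by
    refine (norm_sub_le _ _).trans ?_
    have : 6 / (N * Real.pi - b) = 3 / (N * Real.pi - b) + 3 / (N * Real.pi - b) := by ring
    linarith
  calc b * Real.cos b * ‖SN g b N - E‖
      ≤ b * Real.cos b * (Real.sin b / (b * Real.cos b) + 6 / (N * Real.pi - b)) :=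
        mul_le_mul_of_nonneg_left h1 (by positivity)
    _ = Real.sin b + 6 * b / (N * Real.pi - b) * Real.cos b := by
        field_simp
    _ ≤ Real.sin b + 6 * b / (N * Real.pi - b) := by
        have : 0 ≤ 6 * b / (N * Real.pi - b) := by positivity
        nlinarith

/-- Bernstein's inequality on a disc, normalised -/
theorem bern1 {g : ℂ → ℂ} (hg : Differentiable ℂ g) {N : ℕ} (hN : 1 ≤ N)
    (h : ∀ w : ℂ, ‖w‖ ≤ N * Real.pi + 1 → ‖g w‖ ≤ Real.exp |w.im|) :
    ‖deriv g 0‖ ≤ 1 + 6 / (N * Real.pi) := by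
  have hpi := Real.pi_gt_three
  have hN' : (1 : ℝ) ≤ N := by exact_mod_cast hN
  have hd : HasDerivAt (fun b : ℝ => (Real.cos b : ℂ) * g b) (deriv g 0) 0 := by
    have h1 : HasDerivAt (fun b : ℝ => g b) (deriv g 0) 0 := by
      have := (hg (0 : ℂ)).hasDerivAt
      have h2 : HasDerivAt g (deriv g 0) ((0 : ℝ) : ℂ) := by simpa using this
      exact h2.comp_ofReal
    have h2 : HasDerivAt (fun b : ℝ => (Real.cos b : ℂ)) ((-Real.sin 0 : ℝ) : ℂ) 0 :=
      (Real.hasDerivAt_cos 0).ofReal_comp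
    have h3 := h2.mul h1
    refine h3.congr_deriv ?_
    simp
  have ht := hd.tendsto_slope_zero_right
  have hev : ∀ᶠ b : ℝ in 𝓝[>] (0 : ℝ), ‖b⁻¹ • ((Real.cos (0 + b) : ℂ) * g ((0 + b : ℝ)) -
      (Real.cos 0 : ℂ) * g ((0 : ℝ)))‖ ≤ 1 + 6 / (N * Real.pi - b) := by
    have hs : Ioo (0 : ℝ) 1 ∈ 𝓝[>] (0 : ℝ) := Ioo_mem_nhdsGT one_pos
    filter_upwards [hs] with b hb
    have hRb : 0 < N * Real.pi - b := by nlinarith [hb.2]
    have h1 := LS2 hg hb.1 (by linarith [hb.2]) hN (fun w hw => h w (by linarith [hb.2]))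
    rw [zero_add, Real.cos_zero, norm_smul, norm_inv, Real.norm_eq_abs, abs_of_pos hb.1]
    rw [Complex.ofReal_one, one_mul, Complex.ofReal_zero, norm_sub_rev]
    rw [inv_mul_le_iff₀ hb.1]
    refine h1.trans ?_
    have h2 : Real.sin b ≤ b := Real.sin_le hb.1.le
    have h3 : b * (1 + 6 / (N * Real.pi - b)) = b + 6 * b / (N * Real.pi - b) := by ring
    linarith
  have hlim : Tendsto (fun b : ℝ => 1 + 6 / (N * Real.pi - b)) (𝓝[>] (0 : ℝ))
      (𝓝 (1 + 6 / (N * Real.pi - 0))) := by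
    apply Tendsto.mono_left _ nhdsWithin_le_nhds
    apply Tendsto.add tendsto_const_nhds
    apply Tendsto.div tendsto_const_nhds
    · exact tendsto_const_nhds.sub tendsto_id
    · have : (0 : ℝ) < N * Real.pi := by positivity
      linarith
  have h5 := le_of_tendsto_of_tendsto ht.norm hlim hev
  simpa using h5

/-- Bernstein's inequality on a disc; the function grows in the real direction -/
theorem bern {G : ℂ → ℂ} (hG : Differentiable ℂ G) {τ M R : ℝ} (hτ : 0 < τ) (hM : 0 < M)
    {N : ℕ} (hN : 1 ≤ N) (hR : N * Real.pi + 1 ≤ τ * R) (s₀ : ℂ)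
    (h : ∀ s : ℂ, ‖s - s₀‖ ≤ R → ‖G s‖ ≤ M * Real.exp (τ * |s.re|)) :
    ‖deriv G s₀‖ ≤ τ * (1 + 2 / N) * (M * Real.exp (τ * |s₀.re|)) := by
  have hpi := Real.pi_gt_three
  have hN' : (1 : ℝ) ≤ N := by exact_mod_cast hN
  set M' : ℝ := M * Real.exp (τ * |s₀.re|) with hM'
  have hM'0 : 0 < M' := by positivity
  have hτc : (τ : ℂ) ≠ 0 := by exact_mod_cast hτ.ne'
  set g : ℂ → ℂ := fun w => (M' : ℂ)⁻¹ * G (s₀ + I * w / τ) with hg
  have hgd : Differentiable ℂ g := by
    apply Differentiable.const_mul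
    exact hG.comp (by fun_prop)
  have h1 := bern1 hgd hN (fun w hw => by
    have h2 : ‖s₀ + I * w / τ - s₀‖ ≤ R := by
      rw [add_sub_cancel_left, norm_div, norm_mul, norm_I, one_mul, Complex.norm_real,
        Real.norm_eq_abs, abs_of_pos hτ, div_le_iff₀ hτ]
      linarith
    have h3 := h _ h2
    have e1 : (s₀ + I * w / τ).re = s₀.re + -(w.im / τ) := by
      rw [Complex.add_re, Complex.div_ofReal_re]
      simp [neg_div]
    rw [e1] at h3
    have h4 : |s₀.re + -(w.im / τ)| ≤ |s₀.re| + |w.im| / τ := by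
      refine (abs_add_le _ _).trans ?_
      rw [abs_neg, abs_div, abs_of_pos hτ]
    rw [hg]
    simp only
    rw [norm_mul, norm_inv, Complex.norm_real, Real.norm_eq_abs, abs_of_pos hM'0,
      inv_mul_le_iff₀ hM'0]
    refine h3.trans ?_
    rw [hM', mul_assoc, ← Real.exp_add]
    apply mul_le_mul_of_nonneg_left _ hM.le
    rw [Real.exp_le_exp]
    have h5 : τ * (|s₀.re| + |w.im| / τ) = τ * |s₀.re| + |w.im| := by field_simp
    nlinarith [mul_le_mul_of_nonneg_left h4 hτ.le])
  have hder : HasDerivAt g ((M' : ℂ)⁻¹ * (deriv G s₀ * (I / τ))) 0 := by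
    apply HasDerivAt.const_mul
    have h2 : HasDerivAt (fun w : ℂ => s₀ + I * w / τ) (I / τ) 0 := by
      have h3 := (((hasDerivAt_id (0 : ℂ)).const_mul I).div_const (τ : ℂ)).const_add s₀
      simpa using h3
    have h4 : HasDerivAt G (deriv G s₀) (s₀ + I * 0 / τ) := by
      rw [mul_zero, zero_div, add_zero]
      exact (hG s₀).hasDerivAt
    exact HasDerivAt.comp (0 : ℂ) h4 h2
  rw [hder.deriv, norm_mul, norm_inv, norm_mul, norm_div, norm_I, Complex.norm_real,
    Complex.norm_real, Real.norm_eq_abs, Real.norm_eq_abs, abs_of_pos hM'0, abs_of_pos hτ] at h1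
  have h2 : 1 + 6 / (N * Real.pi) ≤ 1 + 2 / N := by
    have : 6 / (N * Real.pi) ≤ 2 / N := by
      rw [div_le_div_iff₀ (by positivity) (by positivity)]
      nlinarith
    linarith
  have h3 : M'⁻¹ * (‖deriv G s₀‖ * (1 / τ)) * (τ * M') = ‖deriv G s₀‖ := by
    field_simp
  rw [← h3]
  have h4 := mul_le_mul_of_nonneg_right (h1.trans h2) (by positivity : 0 ≤ τ * M')
  refine h4.trans (le_of_eq ?_)
  ring

end Pool.Agent.Q85.Mom
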