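import Mathlib

set_option autoImplicit false

/-!
# `L^p` norms on an interval by duality, and holomorphic integrals
-/

open Complex Set Filter Topology MeasureTheory

namespace Pool.Agent.Q85.Mom

/-- the `L^p` norm over `[a, b]` -/
noncomputable def nrm (p a b : ℝ) (F : ℝ → ℂ) : ℝ := (∫ t in a..b, ‖F t‖ ^ p) ^ (1 / p)

lemma cont_pow {p : ℝ} (hp : 0 ≤ p) {F : ℝ → ℂ} (hF : Continuous F) :
    Continuous (fun t => ‖F t‖ ^ p) :=
  hF.norm.rpow_const fun _ => Or.inr hp

lemma int_nonneg {p a b : ℝ} (hab : a ≤ b) (F : ℝ → ℂ) : 0 ≤ ∫ t in a..b, ‖F t‖ ^ p :=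
  intervalIntegral.integral_nonneg hab fun t _ => by positivity

lemma nrm_nonneg {p a b : ℝ} (hab : a ≤ b) (F : ℝ → ℂ) : 0 ≤ nrm p a b F :=
  Real.rpow_nonneg (int_nonneg hab F) _

lemma nrm_pow {p a b : ℝ} (hp : 0 < p) (hab : a ≤ b) (F : ℝ → ℂ) :
    nrm p a b F ^ p = ∫ t in a..b, ‖F t‖ ^ p := by
  unfold nrm
  rw [← Real.rpow_mul (int_nonneg hab F), one_div, inv_mul_cancel₀ hp.ne', Real.rpow_one]

/-- monotonicity -/
lemma nrm_mono {p a b : ℝ} (hp : 0 < p) (hab : a ≤ b) {F G : ℝ → ℂ} (hF : Continuous F)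
    (hG : Continuous G) {K : ℝ} (hK : 0 ≤ K) (h : ∀ t ∈ Icc a b, ‖F t‖ ≤ K * ‖G t‖) :
    nrm p a b F ≤ K * nrm p a b G := by
  unfold nrm
  have e : K = (K ^ p) ^ (1 / p) := by
    rw [← Real.rpow_mul hK, mul_one_div, div_self hp.ne', Real.rpow_one]
  have h1 : ∫ t in a..b, ‖F t‖ ^ p ≤ K ^ p * ∫ t in a..b, ‖G t‖ ^ p := by
    rw [← intervalIntegral.integral_const_mul]
    apply intervalIntegral.integral_mono_on hab
    · exact (cont_pow hp.le hF).intervalIntegrable _ _
    · exact ((cont_pow hp.le hG).const_mul _).intervalIntegrable _ _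
    · intro t ht
      rw [← Real.mul_rpow hK (norm_nonneg _)]
      exact Real.rpow_le_rpow (norm_nonneg _) (h t ht) hp.le
  refine (Real.rpow_le_rpow (int_nonneg hab F) h1 (by positivity)).trans (le_of_eq ?_)
  rw [Real.mul_rpow (by positivity) (int_nonneg hab G), ← e]

/-- functions bounded by a constant -/
lemma nrm_le_const {p a b : ℝ} (hp : 0 < p) (hab : a ≤ b) {F : ℝ → ℂ} (hF : Continuous F)
    {K : ℝ} (hK : 0 ≤ K) (h : ∀ t ∈ Icc a b, ‖F t‖ ≤ K) :
    nrm p a b F ≤ K * (b - a) ^ (1 / p) := by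
  have h1 := nrm_mono (G := fun _ => (1 : ℂ)) hp hab hF continuous_const hK (by
    intro t ht
    rw [norm_one, mul_one]
    exact h t ht)
  refine h1.trans (le_of_eq ?_)
  unfold nrm
  congr 2
  simp

/-- the interval may be enlarged -/
lemma nrm_interval {p a b c d : ℝ} (hp : 0 < p) (hca : c ≤ a) (hab : a ≤ b) (hbd : b ≤ d)
    {F : ℝ → ℂ} (hF : Continuous F) : nrm p a b F ≤ nrm p c d F := by
  unfold nrm
  apply Real.rpow_le_rpow (int_nonneg hab F) _ (by positivity)
  apply intervalIntegral.integral_mono_interval hca hab hbd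
  · exact Filter.Eventually.of_forall fun t => by positivity
  · exact (cont_pow hp.le hF).intervalIntegrable _ _

/-- translation -/
lemma nrm_shift (p a b y : ℝ) (F : ℝ → ℂ) :
    nrm p a b (fun t => F (t + y)) = nrm p (a + y) (b + y) F := by
  unfold nrm
  rw [intervalIntegral.integral_comp_add_right (fun t => ‖F t‖ ^ p)]

/-- the dual function -/
noncomputable def bd (p : ℝ) (z : ℂ) : ℂ := (starRingEnd ℂ) z * ((‖z‖ ^ (p - 2) : ℝ) : ℂ)

lemma bd_mul {p : ℝ} (hp : 0 < p) (z : ℂ) : bd p z * z = ((‖z‖ ^ p : ℝ) : ℂ) := by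
  unfold bd
  rcases eq_or_ne z 0 with h | h
  · rw [h]
    simp [Real.zero_rpow hp.ne']
  · have h0 : 0 < ‖z‖ := norm_pos_iff.2 h
    have e1 : (starRingEnd ℂ) z * z = ((‖z‖ ^ 2 : ℝ) : ℂ) := by
      rw [mul_comm, Complex.mul_conj, Complex.normSq_eq_norm_sq]
    have e2 : ‖z‖ ^ 2 * ‖z‖ ^ (p - 2) = ‖z‖ ^ p := by
      have e3 : ‖z‖ ^ 2 = ‖z‖ ^ (2 : ℝ) := by
        exact_mod_cast (Real.rpow_natCast ‖z‖ 2).symm
      rw [e3, ← Real.rpow_add h0]
      congr 1
      ring
    rw [mul_right_comm, e1, ← Complex.ofReal_mul, e2]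

lemma bd_norm (p : ℝ) (z : ℂ) : ‖bd p z‖ ≤ ‖z‖ ^ (p - 1) := by
  unfold bd
  rw [norm_mul, Complex.norm_conj, Complex.norm_real, Real.norm_eq_abs,
    abs_of_nonneg (Real.rpow_nonneg (norm_nonneg z) _)]
  rcases eq_or_ne z 0 with h | h
  · rw [h, norm_zero, zero_mul]
    exact Real.rpow_nonneg le_rfl _
  · have h0 : 0 < ‖z‖ := norm_pos_iff.2 h
    have e : p - 1 = 1 + (p - 2) := by ring
    rw [e, Real.rpow_add h0, Real.rpow_one]

lemma bd_meas (p : ℝ) : Measurable (bd p) := by
  unfold bd
  apply Measurable.mul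
  · exact Complex.continuous_conj.measurable
  · exact Complex.measurable_ofReal.comp (measurable_norm.pow_const _)

/-- Hölder's inequality in the form needed -/
lemma holder {p : ℝ} (hp : 1 ≤ p) {a b : ℝ} (hab : a ≤ b) {F G : ℝ → ℂ} (hF : Continuous F)
    (hG : Continuous G) :
    ∫ t in a..b, ‖F t‖ ^ (p - 1) * ‖G t‖ ≤
      (∫ t in a..b, ‖F t‖ ^ p) ^ (1 - 1 / p) * nrm p a b G := by
  have hp0 : 0 < p := by linarith
  rcases eq_or_lt_of_le hp with h | h
  · rw [← h]
    unfold nrm
    simp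
  · have hq : (p / (p - 1)).HolderConjugate p := (Real.HolderConjugate.conjExponent h).symm
    have hq0 : 0 < p / (p - 1) := by
      have : 0 < p - 1 := by linarith
      positivity
    rw [intervalIntegral.integral_of_le hab]
    have hfin : IsFiniteMeasure (volume.restrict (Ioc a b)) := inferInstance
    have hc1 : Continuous (fun t => ‖F t‖ ^ (p - 1)) := cont_pow (by linarith) hF
    have hc2 : Continuous (fun t => ‖G t‖) := hG.norm
    obtain ⟨K1, hK1⟩ := isCompact_Icc.exists_bound_of_continuousOn (s := Icc a b) hc1.continuousOn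
    obtain ⟨K2, hK2⟩ := isCompact_Icc.exists_bound_of_continuousOn (s := Icc a b) hc2.continuousOn
    have m1 : MemLp (fun t => ‖F t‖ ^ (p - 1)) (ENNReal.ofReal (p / (p - 1)))
        (volume.restrict (Ioc a b)) := by
      refine MemLp.of_bound hc1.aestronglyMeasurable K1 ?_
      filter_upwards [ae_restrict_mem measurableSet_Ioc] with t ht
      exact hK1 t ⟨ht.1.le, ht.2⟩
    have m2 : MemLp (fun t => ‖G t‖) (ENNReal.ofReal p) (volume.restrict (Ioc a b)) := by
      refine MemLp.of_bound hc2.aestronglyMeasurable K2 ?_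
      filter_upwards [ae_restrict_mem measurableSet_Ioc] with t ht
      exact hK2 t ⟨ht.1.le, ht.2⟩
    have h1 := integral_mul_le_Lp_mul_Lq_of_nonneg (μ := volume.restrict (Ioc a b)) hq
      (f := fun t => ‖F t‖ ^ (p - 1)) (g := fun t => ‖G t‖)
      (Filter.Eventually.of_forall fun t => by positivity)
      (Filter.Eventually.of_forall fun t => by positivity) m1 m2
    refine h1.trans (le_of_eq ?_)
    unfold nrm
    rw [intervalIntegral.integral_of_le hab, intervalIntegral.integral_of_le hab]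
    congr 1
    have e1 : ∀ t, (‖F t‖ ^ (p - 1)) ^ (p / (p - 1)) = ‖F t‖ ^ p := by
      intro t
      rw [← Real.rpow_mul (norm_nonneg _)]
      congr 1
      have : p - 1 ≠ 0 := by linarith
      field_simp
    simp only [e1]
    congr 1
    have : p - 1 ≠ 0 := by linarith
    field_simp

/-- duality -/
theorem dual {p : ℝ} (hp : 1 ≤ p) {a b : ℝ} (hab : a ≤ b) {F : ℝ → ℂ} (hF : Continuous F) :
    ∃ w : ℝ → ℂ, Measurable w ∧ (∃ B : ℝ, ∀ t ∈ Icc a b, ‖w t‖ ≤ B) ∧
      (∫ t in a..b, w t * F t) = ((nrm p a b F : ℝ) : ℂ) ∧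
      ∀ G : ℝ → ℂ, Continuous G → ‖∫ t in a..b, w t * G t‖ ≤ nrm p a b G := by
  have hp0 : 0 < p := by linarith
  set S : ℝ := ∫ t in a..b, ‖F t‖ ^ p with hS
  have hS0 : 0 ≤ S := int_nonneg hab F
  rcases hS0.eq_or_lt with h0 | h0
  · refine ⟨fun _ => 0, measurable_const, ⟨0, by simp⟩, ?_, ?_⟩
    · unfold nrm
      rw [← hS, ← h0, Real.zero_rpow (by positivity)]
      simp
    · intro G _
      simp only [zero_mul, intervalIntegral.integral_zero, norm_zero]
      exact nrm_nonneg hab G
  · set c : ℝ := S ^ (-(1 - 1 / p)) with hc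
    have hc0 : 0 < c := Real.rpow_pos_of_pos h0 _
    obtain ⟨K, hK⟩ := isCompact_Icc.exists_bound_of_continuousOn (s := Icc a b)
      (cont_pow (p := p - 1) (by linarith) hF).continuousOn
    refine ⟨fun t => (c : ℂ) * bd p (F t), ?_, ⟨c * K, ?_⟩, ?_, ?_⟩
    · exact ((bd_meas p).comp hF.measurable).const_mul _
    · intro t ht
      rw [norm_mul, Complex.norm_real, Real.norm_eq_abs, abs_of_pos hc0]
      apply mul_le_mul_of_nonneg_left _ hc0.le
      refine (bd_norm p _).trans ?_
      have := hK t ht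
      rwa [Real.norm_eq_abs, abs_of_nonneg (by positivity)] at this
    · have e1 : ∀ t, (c : ℂ) * bd p (F t) * F t = ((c * ‖F t‖ ^ p : ℝ) : ℂ) := by
        intro t
        rw [mul_assoc, bd_mul hp0, ← Complex.ofReal_mul]
      simp only [e1]
      rw [intervalIntegral.integral_ofReal, intervalIntegral.integral_const_mul, ← hS]
      congr 1
      unfold nrm
      rw [← hS, hc]
      nth_rewrite 2 [← Real.rpow_one S]
      rw [← Real.rpow_add h0]
      congr 1
      ring
    · intro G hG
      have h1 : ‖∫ t in a..b, (c : ℂ) * bd p (F t) * G t‖ ≤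
          ∫ t in a..b, c * (‖F t‖ ^ (p - 1) * ‖G t‖) := by
        apply intervalIntegral.norm_integral_le_of_norm_le hab
        · refine Filter.Eventually.of_forall fun t _ => ?_
          rw [norm_mul, norm_mul, Complex.norm_real, Real.norm_eq_abs, abs_of_pos hc0, mul_assoc]
          apply mul_le_mul_of_nonneg_left _ hc0.le
          exact mul_le_mul_of_nonneg_right (bd_norm p _) (norm_nonneg _)
        · exact (((cont_pow (by linarith) hF).mul hG.norm).const_mul _).intervalIntegrable _ _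
      rw [intervalIntegral.integral_const_mul] at h1
      refine h1.trans ?_
      have h2 := mul_le_mul_of_nonneg_left (holder hp hab hF hG) hc0.le
      refine h2.trans (le_of_eq ?_)
      rw [← hS, hc, ← mul_assoc, ← Real.rpow_add h0, neg_add_cancel, Real.rpow_zero, one_mul]

/-- integrals of entire functions are entire -/
theorem holo {a b : ℝ} (hab : a ≤ b) {v : ℝ → ℂ} (hv : Measurable v) {B : ℝ}
    (hB : ∀ t ∈ Icc a b, ‖v t‖ ≤ B) {E : ℂ → ℂ} (hE : Differentiable ℂ E) (s : ℂ) :
    HasDerivAt (fun s => ∫ t in a..b, v t * E (1 / 2 + t * I + s))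
      (∫ t in a..b, v t * deriv E (1 / 2 + t * I + s)) s := by
  have hE' : Continuous (deriv E) := (hE.contDiff (n := 1)).continuous_deriv le_rfl
  set R : ℝ := 1 + (|a| + |b|) + (‖s‖ + 1) with hR
  obtain ⟨K, hK⟩ := (isCompact_closedBall (0 : ℂ) R).exists_bound_of_continuousOn hE'.continuousOn
  have hcE : ∀ z : ℂ, Continuous fun t : ℝ => E (1 / 2 + t * I + z) := fun z =>
    hE.continuous.comp (by fun_prop)
  have hcE' : ∀ z : ℂ, Continuous fun t : ℝ => deriv E (1 / 2 + t * I + z) := fun z =>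
    hE'.comp (by fun_prop)
  have hfin : IsFiniteMeasure (volume.restrict (Ioc a b)) := inferInstance
  have hvint : IntervalIntegrable v volume a b := by
    rw [intervalIntegrable_iff_integrableOn_Ioc_of_le hab]
    refine Integrable.of_bound hv.aestronglyMeasurable B ?_
    filter_upwards [ae_restrict_mem measurableSet_Ioc] with t ht
    exact hB t ⟨ht.1.le, ht.2⟩
  have h := intervalIntegral.hasDerivAt_integral_of_dominated_loc_of_deriv_le (μ := volume)
    (a := a) (b := b) (F := fun (s : ℂ) (t : ℝ) => v t * E (1 / 2 + t * I + s))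
    (F' := fun (s : ℂ) (t : ℝ) => v t * deriv E (1 / 2 + t * I + s)) (x₀ := s)
    (s := Metric.ball s 1) (bound := fun _ => B * K) (Metric.ball_mem_nhds s one_pos)
    (Filter.Eventually.of_forall fun z => (hv.mul (hcE z).measurable).aestronglyMeasurable)
    (hvint.mul_continuousOn (hcE s).continuousOn)
    ((hv.mul (hcE' s).measurable).aestronglyMeasurable)
    (Filter.Eventually.of_forall fun t ht z hz => by
      rw [uIoc_of_le hab] at ht
      rw [norm_mul]
      have h1 : ‖(1 / 2 + t * I + z : ℂ)‖ ≤ R := by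
        refine (norm_add_le _ _).trans ?_
        have h2 : ‖(1 / 2 + t * I : ℂ)‖ ≤ 1 + (|a| + |b|) := by
          refine (norm_add_le _ _).trans ?_
          rw [norm_mul, norm_I, mul_one, Complex.norm_real, Real.norm_eq_abs]
          have h3 : |t| ≤ |a| + |b| := by
            rw [abs_le]
            constructor
            · have := neg_abs_le a
              have := abs_nonneg b
              linarith [ht.1]
            · have := le_abs_self b
              have := abs_nonneg a
              linarith [ht.2]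
          have h4 : ‖(1 / 2 : ℂ)‖ ≤ 1 := by norm_num
          linarith
        have h5 : ‖z‖ ≤ ‖s‖ + 1 := by
          have h6 := (mem_ball_iff_norm.1 hz).le
          have h7 := norm_sub_norm_le z s
          linarith
        rw [hR]
        linarith
      have h3 := hK _ (by rw [mem_closedBall_zero_iff]; exact h1)
      have h4 := hB t ⟨ht.1.le, ht.2⟩
      exact mul_le_mul h4 h3 (norm_nonneg _) ((norm_nonneg _).trans h4))
    intervalIntegrable_const
    (Filter.Eventually.of_forall fun t _ z _ => by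
      apply HasDerivAt.const_mul
      have h1 : HasDerivAt (fun x : ℂ => 1 / 2 + t * I + x) 1 z := (hasDerivAt_id z).const_add _
      have h2 := HasDerivAt.comp z (hE (1 / 2 + t * I + z)).hasDerivAt h1
      rw [mul_one] at h2
      exact h2)
  exact h.2

end Pool.Agent.Q85.Mom
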