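import Mathlib
import Pool.Agent.Q85.Mom.Bern
import Pool.Agent.Q85.Mom.Dual
import Pool.Agent.H448R2.GC.X2
import Pool.Agent.W191.WM.Left

set_option autoImplicit false

/-!
# The zeta function on the critical line as an element of `L^p`, of exponential type `log T`
-/

open Complex Set Filter Topology MeasureTheory

namespace Pool.Agent.Q85.Mom

/-- the entire function `(s - 1) ζ(s)` -/
noncomputable def EE : ℂ → ℂ := Function.update (fun w : ℂ => (w - 1) * riemannZeta w) 1 1

lemma EE_diff : Differentiable ℂ EE := Pool.Agent.H448R2.GC.zeta_one_entire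

lemma EE_of_ne {s : ℂ} (h : s ≠ 1) : EE s = (s - 1) * riemannZeta s := by
  unfold EE
  rw [Function.update_of_ne h]

lemma EE_ev {s : ℂ} (h : s ≠ 1) : EE =ᶠ[𝓝 s] fun w => (w - 1) * riemannZeta w := by
  filter_upwards [isOpen_compl_singleton.mem_nhds (show s ∈ ({1} : Set ℂ)ᶜ by simpa using h)]
    with w hw
  exact EE_of_ne (by simpa using hw)

lemma zeta_der {s : ℂ} (h : s ≠ 1) : HasDerivAt riemannZeta (deriv riemannZeta s) s :=
  (differentiableAt_riemannZeta h).hasDerivAt

lemma dEE_of_ne {s : ℂ} (h : s ≠ 1) :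
    deriv EE s = riemannZeta s + (s - 1) * deriv riemannZeta s := by
  rw [(EE_ev h).deriv_eq]
  have h1 := ((hasDerivAt_id s).sub_const 1).mul (zeta_der h)
  rw [show (fun w : ℂ => (w - 1) * riemannZeta w) = (fun w : ℂ => id w - 1) * riemannZeta from rfl]
  rw [h1.deriv]
  simp

lemma zeta_der2 {s : ℂ} (h : s ≠ 1) :
    HasDerivAt (deriv riemannZeta) (deriv (deriv riemannZeta) s) s := by
  have h1 : AnalyticAt ℂ riemannZeta s := by
    rw [Complex.analyticAt_iff_eventually_differentiableAt]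
    filter_upwards [isOpen_compl_singleton.mem_nhds (show s ∈ ({1} : Set ℂ)ᶜ by simpa using h)]
      with w hw
    exact differentiableAt_riemannZeta (by simpa using hw)
  exact h1.deriv.differentiableAt.hasDerivAt

lemma ddEE_of_ne {s : ℂ} (h : s ≠ 1) :
    deriv (deriv EE) s = 2 * deriv riemannZeta s + (s - 1) * deriv (deriv riemannZeta) s := by
  have h0 : deriv EE =ᶠ[𝓝 s] fun w => riemannZeta w + (w - 1) * deriv riemannZeta w := by
    filter_upwards [isOpen_compl_singleton.mem_nhds (show s ∈ ({1} : Set ℂ)ᶜ by simpa using h)]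
      with w hw
    exact dEE_of_ne (by simpa using hw)
  rw [h0.deriv_eq]
  have h1 := ((hasDerivAt_id s).sub_const 1).mul (zeta_der2 h)
  have h2 := (zeta_der h).add h1
  have h3 : deriv (fun w => riemannZeta w + (w - 1) * deriv riemannZeta w) s =
      deriv riemannZeta s + (1 * deriv riemannZeta s + (id s - 1) * deriv (deriv riemannZeta) s) :=
    h2.deriv
  rw [h3]
  simp only [id]
  ring

/-- zeta and its derivatives on the critical line -/
noncomputable def z (t : ℝ) : ℂ := riemannZeta (1 / 2 + t * I)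
@[inherit_doc z] noncomputable def z1 (t : ℝ) : ℂ := deriv riemannZeta (1 / 2 + t * I)
@[inherit_doc z] noncomputable def z2 (t : ℝ) : ℂ := deriv (deriv riemannZeta) (1 / 2 + t * I)

lemma ne_one (t : ℝ) : (1 / 2 + t * I : ℂ) ≠ 1 := by
  intro h
  have := congrArg Complex.re h
  norm_num at this

lemma cont_line {f : ℂ → ℂ} (h : ∀ t : ℝ, ContinuousAt f (1 / 2 + t * I)) :
    Continuous fun t : ℝ => f (1 / 2 + t * I) := by
  rw [continuous_iff_continuousAt]
  intro t
  exact ContinuousAt.comp (f := fun t : ℝ => (1 / 2 + t * I : ℂ)) (h t) (by fun_prop)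

lemma z_cont : Continuous z := cont_line fun t => (zeta_der (ne_one t)).continuousAt
lemma z1_cont : Continuous z1 := cont_line fun t => (zeta_der2 (ne_one t)).continuousAt
lemma z2_cont : Continuous z2 := by
  refine cont_line fun t => ?_
  have h := ne_one t
  have h1 : AnalyticAt ℂ riemannZeta (1 / 2 + t * I) := by
    rw [Complex.analyticAt_iff_eventually_differentiableAt]
    filter_upwards [isOpen_compl_singleton.mem_nhds
      (show (1 / 2 + t * I : ℂ) ∈ ({1} : Set ℂ)ᶜ by simpa using h)] with w hw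
    exact differentiableAt_riemannZeta (by simpa using hw)
  exact h1.deriv.deriv.continuousAt

/-- zeta is bounded for `Re s ≥ 3/2` -/
lemma zeta_right : ∃ K : ℝ, 1 ≤ K ∧ ∀ s : ℂ, 3 / 2 ≤ s.re → ‖riemannZeta s‖ ≤ K := by
  have hsum : Summable (fun n : ℕ => 1 / (n : ℝ) ^ (3 / 2 : ℝ)) :=
    Real.summable_one_div_nat_rpow.2 (by norm_num)
  refine ⟨max 1 (∑' n : ℕ, 1 / (n : ℝ) ^ (3 / 2 : ℝ)), le_max_left _ _, fun s hs => ?_⟩
  have hs1 : 1 < s.re := by linarith
  rw [zeta_eq_tsum_one_div_nat_cpow hs1]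
  refine (tsum_of_norm_bounded hsum.hasSum fun n => ?_).trans (le_max_right _ _)
  rcases Nat.eq_zero_or_pos n with rfl | hn
  · rw [Nat.cast_zero, Complex.zero_cpow (by
      intro h
      rw [h] at hs1
      norm_num at hs1)]
    simp
  · have hn1 : (1 : ℝ) ≤ n := by exact_mod_cast hn
    rw [norm_div, norm_one, Complex.norm_natCast_cpow_of_pos hn]
    apply one_div_le_one_div_of_le (by positivity)
    exact Real.rpow_le_rpow_of_exponent_le hn1 hs

/-- zeta on the line `Re s = -1/2` -/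
lemma zeta_left {K : ℝ} (hK : ∀ s : ℂ, 3 / 2 ≤ s.re → ‖riemannZeta s‖ ≤ K) (hK1 : 1 ≤ K) (u : ℝ) :
    ‖riemannZeta (-(1 / 2) + u * I)‖ ≤ K * (1 + |u|) / 6 := by
  have e : (-(1 / 2) + u * I : ℂ) = ⟨-1 / 2, u⟩ := by
    apply Complex.ext <;> simp
    norm_num
  rw [e, Pool.Agent.W191.WM.norm_zeta_left]
  have h1 := hK (1 - (⟨-1 / 2, u⟩ : ℂ)) (by rw [Complex.sub_re]; norm_num)
  have h2 : ‖(⟨-1 / 2, u⟩ : ℂ)‖ ≤ 1 + |u| := by
    refine (Complex.norm_le_abs_re_add_abs_im _).trans ?_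
    have : |(-1 / 2 : ℝ)| ≤ 1 := by rw [abs_le]; constructor <;> norm_num
    simpa using this
  have hpi := Real.pi_gt_three
  have h3 : ‖(⟨-1 / 2, u⟩ : ℂ)‖ / (2 * Real.pi) ≤ (1 + |u|) / 6 := by
    apply div_le_div₀ (by positivity) h2 (by norm_num) (by linarith)
  calc _ ≤ K * ((1 + |u|) / 6) := mul_le_mul h1 h3 (by positivity) (by linarith)
    _ = _ := by ring

/-- the weight `1 / (it - 1/2)` -/
noncomputable def kk (t : ℝ) : ℂ := (t * I - 1 / 2)⁻¹

lemma kk_low (t : ℝ) : |t| ≤ ‖(t * I - 1 / 2 : ℂ)‖ := by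
  have := Complex.abs_im_le_norm (t * I - 1 / 2 : ℂ)
  simpa using this

lemma kk_ne (t : ℝ) : (t * I - 1 / 2 : ℂ) ≠ 0 := by
  intro h
  have := congrArg Complex.re h
  norm_num at this

lemma kk_le {t : ℝ} (ht : 0 < t) : ‖kk t‖ ≤ 1 / t := by
  unfold kk
  rw [norm_inv, one_div t]
  have := kk_low t
  rw [abs_of_pos ht] at this
  exact inv_anti₀ ht this

lemma kk_cont : Continuous kk := by
  unfold kk
  exact Continuous.inv₀ (by fun_prop) kk_ne

/-- the integral -/
noncomputable def JJ (a b : ℝ) (w : ℝ → ℂ) (s : ℂ) : ℂ :=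
  ∫ t in a..b, (w t * kk t) * EE (1 / 2 + t * I + s)

/-- the integral with the twist and the Gaussian factor -/
noncomputable def gg (lam a b : ℝ) (w : ℝ → ℂ) (s : ℂ) : ℂ :=
  cexp (lam * s + s ^ 2) * JJ a b w s

lemma exp_norm (lam x y : ℝ) : ‖cexp (lam * (x + y * I) + (x + y * I) ^ 2)‖ =
    Real.exp (lam * x + x ^ 2 - y ^ 2) := by
  rw [Complex.norm_exp]
  congr 1
  have e : ((lam : ℂ) * (x + y * I) + (x + y * I) ^ 2) =
      ((lam * x + x ^ 2 - y ^ 2 : ℝ) : ℂ) + ((lam * y + 2 * x * y : ℝ) : ℂ) * I := by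
    push_cast
    ring_nf
    rw [I_sq]
    ring
  rw [e, Complex.add_re, Complex.ofReal_re, Complex.re_ofReal_mul, I_re, mul_zero, add_zero]

/-- admissible weights -/
structure Adm (p a b : ℝ) (w : ℝ → ℂ) : Prop where
  meas : Measurable w
  bdd : ∃ B : ℝ, ∀ t ∈ Icc a b, ‖w t‖ ≤ B
  dual : ∀ G : ℝ → ℂ, Continuous G → ‖∫ t in a..b, w t * G t‖ ≤ nrm p a b G

lemma EEc (s : ℂ) : Continuous fun t : ℝ => EE (1 / 2 + t * I + s) :=
  EE_diff.continuous.comp (by fun_prop)

lemma KEc (s : ℂ) : Continuous fun t : ℝ => kk t * EE (1 / 2 + t * I + s) :=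
  kk_cont.mul (EEc s)

lemma zc_shift (y : ℝ) : Continuous fun t : ℝ => z (t + y) := z_cont.comp (by fun_prop)

lemma JJ_le {p a b : ℝ} {w : ℝ → ℂ} (hw : Adm p a b w) (s : ℂ) :
    ‖JJ a b w s‖ ≤ nrm p a b (fun t => kk t * EE (1 / 2 + t * I + s)) := by
  have h := hw.dual (fun t => kk t * EE (1 / 2 + t * I + s)) (kk_cont.mul (EEc s))
  unfold JJ
  simp only [mul_assoc]
  exact h

lemma gg_le {p a b : ℝ} {w : ℝ → ℂ} (hw : Adm p a b w) (lam x y : ℝ) :
    ‖gg lam a b w (x + y * I)‖ ≤ Real.exp (lam * x + x ^ 2 - y ^ 2) *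
      nrm p a b (fun t => kk t * EE (1 / 2 + t * I + (x + y * I))) := by
  unfold gg
  rw [norm_mul, exp_norm]
  exact mul_le_mul_of_nonneg_left (JJ_le hw _) (Real.exp_pos _).le

lemma JJ_der {p a b : ℝ} {w : ℝ → ℂ} (hw : Adm p a b w) (hab : a ≤ b) (s : ℂ) :
    HasDerivAt (JJ a b w) (∫ t in a..b, (w t * kk t) * deriv EE (1 / 2 + t * I + s)) s := by
  obtain ⟨B, hB⟩ := hw.bdd
  obtain ⟨K, hK⟩ := isCompact_Icc.exists_bound_of_continuousOn (s := Icc a b) kk_cont.continuousOn
  exact holo hab (hw.meas.mul kk_cont.measurable) (B := B * K) (fun t ht => by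
    rw [Pi.mul_apply, norm_mul]
    exact mul_le_mul (hB t ht) (hK t ht) (norm_nonneg _) ((norm_nonneg _).trans (hB t ht))) EE_diff s

lemma JJ_der2 {p a b : ℝ} {w : ℝ → ℂ} (hw : Adm p a b w) (hab : a ≤ b) (s : ℂ) :
    HasDerivAt (deriv (JJ a b w))
      (∫ t in a..b, (w t * kk t) * deriv (deriv EE) (1 / 2 + t * I + s)) s := by
  obtain ⟨B, hB⟩ := hw.bdd
  obtain ⟨K, hK⟩ := isCompact_Icc.exists_bound_of_continuousOn (s := Icc a b) kk_cont.continuousOn
  have e : deriv (JJ a b w) = fun s => ∫ t in a..b, (w t * kk t) * deriv EE (1 / 2 + t * I + s) := by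
    funext s
    exact (JJ_der hw hab s).deriv
  rw [e]
  have hd : Differentiable ℂ (deriv EE) := by
    have h1 : Differentiable ℂ (deriv EE) :=
      (EE_diff.contDiff (n := 2)).differentiable_deriv_two
    exact h1
  exact holo hab (hw.meas.mul kk_cont.measurable) (B := B * K) (fun t ht => by
    rw [Pi.mul_apply, norm_mul]
    exact mul_le_mul (hB t ht) (hK t ht) (norm_nonneg _) ((norm_nonneg _).trans (hB t ht))) hd s

lemma gg_diff {p a b : ℝ} {w : ℝ → ℂ} (hw : Adm p a b w) (hab : a ≤ b) (lam : ℝ) :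
    Differentiable ℂ (gg lam a b w) := by
  unfold gg
  apply Differentiable.mul (by fun_prop)
  intro s
  exact (JJ_der hw hab s).differentiableAt

/-- the bound in a strip -/
theorem strip : ∃ C T₀ : ℝ, 1 ≤ C ∧ 3 ≤ T₀ ∧ ∀ (p T a b lam D M : ℝ) (w : ℝ → ℂ), 1 ≤ p → T₀ ≤ T →
    T ≤ a → a + 1 ≤ b → b ≤ 8 * T → 0 ≤ lam → lam ≤ Real.log T → Adm p a b w → 1 ≤ M →
    nrm p (a - Real.log T) (b + Real.log T) z ≤ M → (b - a) ^ (1 / p) ≤ Real.exp D * M → 0 ≤ D →
    ∀ x y : ℝ, |x| ≤ 1 → |y| ≤ 1 → ‖gg lam a b w (x + y * I)‖ ≤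
      ((1 + Real.log T / T) * M) * Real.exp (|x| * (max lam (Real.log T - lam) + C + D)) := by
  obtain ⟨K, hK1, hK⟩ := zeta_right
  obtain ⟨C₁, B, hC₁, hgr⟩ := Pool.Agent.H448R2.GC.zeta_one_growth 1
  have hB0 : (0 : ℝ) ≤ B := Nat.cast_nonneg B
  obtain ⟨T₁, hT₁⟩ : ∃ T₁ : ℝ, ∀ T : ℝ, T₁ ≤ T → (B : ℝ) + 3 ≤ Real.log T := by
    refine ⟨Real.exp (B + 3), fun T hT => ?_⟩
    rw [← Real.log_exp ((B : ℝ) + 3)]
    exact Real.log_le_log (Real.exp_pos _) hT
  refine ⟨Real.log (6 * K) + 1, max (max 3 T₁) (8 * C₁ * Real.exp 1 * 10 ^ B), ?_, ?_, ?_⟩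
  · have : 0 ≤ Real.log (6 * K) := Real.log_nonneg (by linarith)
    linarith
  · exact (le_max_left _ _).trans (le_max_left _ _)
  intro p T a b lam D M w hp hT ha hab hb hlam hlam' hw hM hnM hbM hD x y hx hy
  have hT3 : 3 ≤ T := ((le_max_left _ _).trans (le_max_left _ _)).trans hT
  have hTT₁ : T₁ ≤ T := ((le_max_right _ _).trans (le_max_left _ _)).trans hT
  have hTC : 8 * C₁ * Real.exp 1 * 10 ^ B ≤ T := (le_max_right _ _).trans hT
  set ℓ : ℝ := Real.log T with hℓ
  have hℓB : (B : ℝ) + 3 ≤ ℓ := hT₁ T hTT₁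
  have hℓ0 : 0 < ℓ := by linarith
  have hT0 : 0 < T := by linarith
  have hℓT : ℓ ≤ T - 1 := by
    have := Real.log_le_sub_one_of_pos hT0
    exact this
  have hp0 : 0 < p := by linarith
  have hab' : a ≤ b := by linarith
  set V : ℝ := √(((B : ℝ) + 3) * ℓ) with hV
  have hV2 : V ^ 2 = ((B : ℝ) + 3) * ℓ := Real.sq_sqrt (by positivity)
  have hV0 : 0 ≤ V := Real.sqrt_nonneg _
  have hV1 : 1 ≤ V := by
    rw [hV, Real.one_le_sqrt]
    nlinarith
  have hVℓ : V ≤ ℓ := by
    rw [hV]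
    apply Real.sqrt_le_iff.2
    exact ⟨hℓ0.le, by nlinarith⟩
  have hba : 1 ≤ b - a := by linarith
  have hbp : 1 ≤ (b - a) ^ (1 / p) := Real.one_le_rpow hba (by positivity)
  have hbp2 : (b - a) ^ (1 / p) ≤ 8 * T := by
    have h1 : (b - a) ^ (1 / p) ≤ (b - a) ^ (1 : ℝ) := by
      apply Real.rpow_le_rpow_of_exponent_le hba
      rw [div_le_one hp0]
      exact hp
    rw [Real.rpow_one] at h1
    linarith
  set M' : ℝ := (1 + ℓ / T) * M with hM'
  have hℓT0 : 0 ≤ ℓ / T := by positivity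
  have hM'M : M ≤ M' := by rw [hM']; nlinarith
  have hM'1 : 1 ≤ M' := hM.trans hM'M
  set σ : ℝ := max lam (ℓ - lam) + (Real.log (6 * K) + 1) + D with hσ
  have hσlam : lam + 1 + Real.log (6 * K) + D ≤ σ := by
    have := le_max_left lam (ℓ - lam)
    linarith
  have hσlam' : ℓ - lam + 1 + Real.log (6 * K) + D ≤ σ := by
    have := le_max_right lam (ℓ - lam)
    linarith
  have hσ0 : 0 ≤ σ := by
    have h1 : 0 ≤ Real.log (6 * K) := Real.log_nonneg (by linarith)
    linarith
  have hK6 : Real.exp (Real.log (6 * K)) = 6 * K := Real.exp_log (by linarith)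
  -- the three bounds
  have h0 : ∀ y : ℝ, |y| ≤ V → ‖gg lam a b w (y * I)‖ ≤ M' := by
    intro y hy
    have h1 := gg_le hw lam 0 y
    rw [Complex.ofReal_zero, zero_add] at h1
    refine h1.trans ?_
    have h2 : nrm p a b (fun t => kk t * EE (1 / 2 + t * I + y * I)) ≤ (1 + ℓ / T) *
        nrm p a b (fun t => z (t + y)) := by
      refine nrm_mono hp0 hab' (KEc _) (zc_shift y) (by positivity) ?_
      intro t ht
      have ht0 : 0 < t := by linarith [ht.1]
      have e1 : (1 / 2 + t * I + y * I : ℂ) = 1 / 2 + ((t + y : ℝ) : ℂ) * I := by push_cast; ring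
      rw [e1, EE_of_ne (ne_one _)]
      have e2 : kk t * ((1 / 2 + ((t + y : ℝ) : ℂ) * I - 1) * riemannZeta (1 / 2 + ((t + y : ℝ) : ℂ) * I)) =
          (1 + y * I * kk t) * z (t + y) := by
        unfold z
        have h5 := kk_ne t
        have h6 : kk t * (t * I - 1 / 2) = 1 := by
          unfold kk
          exact inv_mul_cancel₀ h5
        rw [← mul_assoc]
        congr 1
        push_cast
        calc kk t * (1 / 2 + (t + y) * I - 1) = kk t * (t * I - 1 / 2) + y * I * kk t := by ring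
          _ = _ := by rw [h6]
      rw [e2, norm_mul]
      apply mul_le_mul_of_nonneg_right _ (norm_nonneg _)
      refine (norm_add_le _ _).trans ?_
      rw [norm_one, norm_mul, norm_mul, norm_I, mul_one, Complex.norm_real, Real.norm_eq_abs]
      have h5 := kk_le ht0
      have h6 : |y| * ‖kk t‖ ≤ ℓ * (1 / T) := by
        apply mul_le_mul (hy.trans hVℓ) _ (norm_nonneg _) hℓ0.le
        refine h5.trans ?_
        exact one_div_le_one_div_of_le hT0 (by linarith [ht.1])
      have h7 : ℓ * (1 / T) = ℓ / T := by ring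
      linarith
    have h3 : nrm p a b (fun t => z (t + y)) ≤ M := by
      rw [nrm_shift]
      have hyV := abs_le.1 hy
      exact (nrm_interval hp0 (by linarith) (by linarith) (by linarith) z_cont).trans hnM
    have h4 : Real.exp (lam * 0 + 0 ^ 2 - y ^ 2) ≤ 1 := by
      rw [Real.exp_le_one_iff]
      nlinarith [sq_nonneg y]
    calc _ ≤ 1 * ((1 + ℓ / T) * M) := by
          apply mul_le_mul h4 (h2.trans _) (nrm_nonneg hab' _) (by norm_num)
          exact mul_le_mul_of_nonneg_left h3 (by positivity)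
      _ = M' := by rw [one_mul]
  have hexpM : ∀ u : ℝ, u + Real.log (6 * K) + D ≤ σ →
      Real.exp u * (6 * K * (b - a) ^ (1 / p)) ≤ M' * Real.exp σ := by
    intro u hu
    calc Real.exp u * (6 * K * (b - a) ^ (1 / p))
        ≤ Real.exp u * (6 * K * (Real.exp D * M)) := by gcongr
      _ = M * Real.exp (u + Real.log (6 * K) + D) := by
          rw [Real.exp_add, Real.exp_add, hK6]; ring
      _ ≤ M' * Real.exp σ := by
          apply mul_le_mul hM'M (Real.exp_le_exp.2 hu) (Real.exp_pos _).le (by linarith)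
  have h1 : ∀ x y : ℝ, |x| = 1 → |y| ≤ V → ‖gg lam a b w (x + y * I)‖ ≤ M' * Real.exp σ := by
    intro x y hx hy
    refine (gg_le hw lam x y).trans ?_
    have hyV := abs_le.1 hy
    rcases eq_or_eq_neg_of_abs_eq hx with h | h
    · subst h
      have h2 : nrm p a b (fun t => kk t * EE (1 / 2 + t * I + (((1 : ℝ) : ℂ) + y * I))) ≤
          (6 * K) * (b - a) ^ (1 / p) := by
        refine nrm_le_const hp0 hab' (KEc _) (by positivity) ?_
        intro t ht
        have ht0 : 0 < t := by linarith [ht.1]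
        have hne : (1 / 2 + t * I + (((1 : ℝ) : ℂ) + y * I) : ℂ) ≠ 1 := by
          intro h
          have := congrArg Complex.re h
          norm_num at this
        rw [EE_of_ne hne, norm_mul, norm_mul]
        have h3 := hK (1 / 2 + t * I + (((1 : ℝ) : ℂ) + y * I)) (by norm_num)
        have h4 : ‖(1 / 2 + t * I + (((1 : ℝ) : ℂ) + y * I) - 1 : ℂ)‖ ≤ 3 * t := by
          refine (Complex.norm_le_abs_re_add_abs_im _).trans ?_
          have e1 : (1 / 2 + t * I + (((1 : ℝ) : ℂ) + y * I) - 1 : ℂ).re = 1 / 2 := by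
            simp
          have e2 : (1 / 2 + t * I + (((1 : ℝ) : ℂ) + y * I) - 1 : ℂ).im = t + y := by
            simp
          rw [e1, e2]
          have h5 : |t + y| ≤ t + |y| := by
            refine (abs_add_le _ _).trans ?_
            rw [abs_of_pos ht0]
          have h6 : |(1 / 2 : ℝ)| ≤ 1 := by norm_num [abs_of_pos]
          have h7 : |y| ≤ T - 1 := hy.trans (hVℓ.trans hℓT)
          linarith [ht.1]
        have h5 := kk_le ht0
        calc ‖kk t‖ * (‖(1 / 2 + t * I + (((1 : ℝ) : ℂ) + y * I) - 1 : ℂ)‖ * ‖riemannZeta (1 / 2 + t * I + (((1 : ℝ) : ℂ) + y * I))‖)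
            ≤ (1 / t) * ((3 * t) * K) := by gcongr
          _ = 3 * K := by field_simp
          _ ≤ 6 * K := by linarith
      have h3 : Real.exp (lam * 1 + 1 ^ 2 - y ^ 2) ≤ Real.exp (lam + 1) := by
        rw [Real.exp_le_exp]
        nlinarith [sq_nonneg y]
      refine le_trans ?_ (hexpM (lam + 1) (by linarith))
      exact mul_le_mul h3 h2 (nrm_nonneg hab' _) (Real.exp_pos _).le
    · subst h
      have h2 : nrm p a b (fun t => kk t * EE (1 / 2 + t * I + (((-1 : ℝ) : ℂ) + y * I))) ≤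
          (T * (6 * K)) * (b - a) ^ (1 / p) := by
        refine nrm_le_const hp0 hab' (KEc _) (by positivity) ?_
        intro t ht
        have ht0 : 0 < t := by linarith [ht.1]
        have hne : (1 / 2 + t * I + (((-1 : ℝ) : ℂ) + y * I) : ℂ) ≠ 1 := by
          intro h
          have := congrArg Complex.re h
          norm_num at this
        rw [EE_of_ne hne, norm_mul, norm_mul]
        have e0 : (1 / 2 + t * I + (((-1 : ℝ) : ℂ) + y * I) : ℂ) =
            -(1 / 2) + ((t + y : ℝ) : ℂ) * I := by push_cast; ring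
        have h3 := zeta_left hK hK1 (t + y)
        rw [← e0] at h3
        have h5 : |t + y| ≤ t + |y| := by
          refine (abs_add_le _ _).trans ?_
          rw [abs_of_pos ht0]
        have h7 : |y| ≤ T - 1 := hy.trans (hVℓ.trans hℓT)
        have h4 : ‖(1 / 2 + t * I + (((-1 : ℝ) : ℂ) + y * I) - 1 : ℂ)‖ ≤ 3 * t := by
          refine (Complex.norm_le_abs_re_add_abs_im _).trans ?_
          have e1 : (1 / 2 + t * I + (((-1 : ℝ) : ℂ) + y * I) - 1 : ℂ).re = -(3 / 2) := by
            norm_num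
          have e2 : (1 / 2 + t * I + (((-1 : ℝ) : ℂ) + y * I) - 1 : ℂ).im = t + y := by
            simp
          rw [e1, e2]
          have h6 : |(-(3 / 2) : ℝ)| ≤ 2 := by rw [abs_neg, abs_of_pos] <;> norm_num
          linarith [ht.1]
        have h8 : K * (1 + |t + y|) / 6 ≤ 2 * (K * T) := by
          rw [div_le_iff₀ (by norm_num)]
          have : 1 + |t + y| ≤ 9 * T := by linarith [ht.2]
          nlinarith
        have h5 := kk_le ht0
        calc ‖kk t‖ * (‖(1 / 2 + t * I + (((-1 : ℝ) : ℂ) + y * I) - 1 : ℂ)‖ * ‖riemannZeta (1 / 2 + t * I + (((-1 : ℝ) : ℂ) + y * I))‖)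
            ≤ (1 / t) * ((3 * t) * (2 * (K * T))) := by
              gcongr
              exact h3.trans h8
          _ = T * (6 * K) := by field_simp; ring
      have h3 : Real.exp (lam * (-1) + (-1) ^ 2 - y ^ 2) ≤ Real.exp (-lam + 1) := by
        rw [Real.exp_le_exp]
        nlinarith [sq_nonneg y]
      refine le_trans ?_ (hexpM (ℓ - lam + 1) (by linarith))
      calc _ ≤ Real.exp (-lam + 1) * ((T * (6 * K)) * (b - a) ^ (1 / p)) :=
            mul_le_mul h3 h2 (nrm_nonneg hab' _) (Real.exp_pos _).le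
        _ = Real.exp (ℓ - lam + 1) * (6 * K * (b - a) ^ (1 / p)) := by
            have e : Real.exp (ℓ - lam + 1) = T * Real.exp (-lam + 1) := by
              rw [show ℓ - lam + 1 = ℓ + (-lam + 1) by ring, Real.exp_add, hℓ, Real.exp_log hT0]
            rw [e]
            ring
  have h2 : ∀ x y : ℝ, |x| ≤ 1 → |y| = V → ‖gg lam a b w (x + y * I)‖ ≤ 1 := by
    intro x y hx hy
    refine (gg_le hw lam x y).trans ?_
    have hxx := abs_le.1 hx
    have h2 : nrm p a b (fun t => kk t * EE (1 / 2 + t * I + (x + y * I))) ≤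
        (C₁ * (10 * T) ^ B) * (b - a) ^ (1 / p) := by
      refine nrm_le_const hp0 hab' (KEc _) (by positivity) ?_
      intro t ht
      have ht0 : 0 < t := by linarith [ht.1]
      rw [norm_mul]
      have h3 := hgr (1 / 2 + t * I + (x + y * I)) (by simp; linarith) (by simp; linarith)
      have e2 : (1 / 2 + t * I + (x + y * I) : ℂ).im = t + y := by simp
      rw [e2] at h3
      have h5 : |t + y| ≤ t + |y| := by
        refine (abs_add_le _ _).trans ?_
        rw [abs_of_pos ht0]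
      have h7 : |y| ≤ T - 1 := by rw [hy]; exact hVℓ.trans hℓT
      have h6 : (1 + |t + y|) ^ B ≤ (10 * T) ^ B := by
        apply pow_le_pow_left₀ (by positivity)
        linarith [ht.2]
      have h8 : ‖kk t‖ ≤ 1 := by
        refine (kk_le ht0).trans ?_
        rw [div_le_one ht0]
        linarith [ht.1]
      calc ‖kk t‖ * ‖EE (1 / 2 + t * I + (x + y * I))‖ ≤ 1 * (C₁ * (10 * T) ^ B) := by
            apply mul_le_mul h8 _ (norm_nonneg _) (by norm_num)
            refine h3.trans ?_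
            exact mul_le_mul_of_nonneg_left h6 hC₁.le
        _ = _ := one_mul _
    have h3 : Real.exp (lam * x + x ^ 2 - y ^ 2) ≤ Real.exp (ℓ + 1 - V ^ 2) := by
      rw [Real.exp_le_exp]
      have : y ^ 2 = V ^ 2 := by rw [← hy, sq_abs]
      rw [this]
      have h4 : lam * x ≤ ℓ := by nlinarith
      have h5 : x ^ 2 ≤ 1 := by nlinarith
      linarith
    have h4 : Real.exp (ℓ + 1 - V ^ 2) = Real.exp 1 * T / T ^ (B + 3) := by
      rw [hV2]
      have e : ℓ + 1 - ((B : ℝ) + 3) * ℓ = 1 + ℓ - ((B + 3 : ℕ) : ℝ) * ℓ := by push_cast; ring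
      rw [e, Real.exp_sub, Real.exp_add, Real.exp_nat_mul, hℓ, Real.exp_log hT0]
    calc _ ≤ Real.exp (ℓ + 1 - V ^ 2) * ((C₁ * (10 * T) ^ B) * (8 * T)) := by
          apply mul_le_mul h3 (h2.trans _) (nrm_nonneg hab' _) (Real.exp_pos _).le
          exact mul_le_mul_of_nonneg_left hbp2 (by positivity)
      _ = (8 * C₁ * Real.exp 1 * 10 ^ B) / T := by
          rw [h4, mul_pow, pow_add]
          field_simp
      _ ≤ 1 := by
          rw [div_le_one hT0]
          exact hTC
  have hA : 1 ≤ M' * Real.exp σ := by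
    have : 1 ≤ Real.exp σ := Real.one_le_exp hσ0
    nlinarith
  have h5 := W587.PL.box (gg_diff hw hab' lam) one_pos (by linarith : 0 < V) hM'1 hA h0 h1 h2 hx
    (hy.trans hV1)
  rw [Real.log_mul (by linarith) (Real.exp_pos _).ne', Real.log_exp, add_sub_cancel_left,
    div_one] at h5
  exact h5

end Pool.Agent.Q85.Mom
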