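import Mathlib
import Pool.Agent.Q85.Mom.Eng

set_option autoImplicit false

/-!
# Bernstein's inequality for zeta on the critical line, in `L^p`
-/

open Complex Set Filter Topology MeasureTheory

namespace Pool.Agent.Q85.Mom

lemma gg_der {p a b : ℝ} {w : ℝ → ℂ} (hw : Adm p a b w) (hab : a ≤ b) (lam : ℝ) (s : ℂ) :
    HasDerivAt (gg lam a b w)
      (cexp (lam * s + s ^ 2) * ((lam + 2 * s) * JJ a b w s + deriv (JJ a b w) s)) s := by
  have h1 : HasDerivAt (fun s : ℂ => (lam : ℂ) * s + s ^ 2) (lam + 2 * s) s := by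
    have h2 := ((hasDerivAt_id s).const_mul (lam : ℂ)).add (hasDerivAt_pow 2 s)
    refine h2.congr_deriv ?_
    simp
  have h3 := h1.cexp.mul (JJ_der hw hab s)
  rw [(JJ_der hw hab s).deriv]
  refine h3.congr_deriv ?_
  ring

lemma gg_der2 {p a b : ℝ} {w : ℝ → ℂ} (hw : Adm p a b w) (hab : a ≤ b) (lam : ℝ) :
    deriv (deriv (gg lam a b w)) 0 = (lam ^ 2 + 2) * JJ a b w 0 + 2 * lam * deriv (JJ a b w) 0 +
      deriv (deriv (JJ a b w)) 0 := by
  have e : deriv (gg lam a b w) = fun s => cexp (lam * s + s ^ 2) *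
      ((lam + 2 * s) * JJ a b w s + deriv (JJ a b w) s) := by
    funext s
    exact (gg_der hw hab lam s).deriv
  rw [e]
  have h1 : HasDerivAt (fun s : ℂ => (lam : ℂ) * s + s ^ 2) (lam + 2 * 0) 0 := by
    have h2 := ((hasDerivAt_id (0 : ℂ)).const_mul (lam : ℂ)).add (hasDerivAt_pow 2 (0 : ℂ))
    refine h2.congr_deriv ?_
    simp
  have h2 : HasDerivAt (fun s : ℂ => (lam : ℂ) + 2 * s) (2 * 1) 0 :=
    ((hasDerivAt_id (0 : ℂ)).const_mul 2).const_add _
  have ha : HasDerivAt (JJ a b w) (deriv (JJ a b w) 0) 0 :=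
    (JJ_der hw hab 0).differentiableAt.hasDerivAt
  have hb : HasDerivAt (deriv (JJ a b w)) (deriv (deriv (JJ a b w)) 0) 0 :=
    (JJ_der2 hw hab 0).differentiableAt.hasDerivAt
  have h3 := (h2.mul ha).add hb
  have h4 := (h1.cexp.mul h3).deriv
  refine h4.trans ?_
  simp only [Pi.add_apply, Pi.mul_apply, mul_zero, add_zero, ne_eq, OfNat.ofNat_ne_zero,
    not_false_eq_true, zero_pow, Complex.exp_zero, one_mul, mul_one]
  ring

lemma Adm.int {p a b : ℝ} {w : ℝ → ℂ} (hw : Adm p a b w) (hab : a ≤ b) {G : ℝ → ℂ}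
    (hG : Continuous G) : IntervalIntegrable (fun t => w t * G t) volume a b := by
  obtain ⟨B, hB⟩ := hw.bdd
  have hfin : IsFiniteMeasure (volume.restrict (Ioc a b)) := inferInstance
  have hvint : IntervalIntegrable w volume a b := by
    rw [intervalIntegrable_iff_integrableOn_Ioc_of_le hab]
    refine Integrable.of_bound hw.meas.aestronglyMeasurable B ?_
    filter_upwards [ae_restrict_mem measurableSet_Ioc] with t ht
    exact hB t ⟨ht.1.le, ht.2⟩
  exact hvint.mul_continuousOn hG.continuousOn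

lemma kk_one (t : ℝ) : kk t * (t * I - 1 / 2) = 1 := inv_mul_cancel₀ (kk_ne t)

lemma JJ0 (a b : ℝ) (w : ℝ → ℂ) : JJ a b w 0 = ∫ t in a..b, w t * z t := by
  unfold JJ
  congr 1
  funext t
  rw [add_zero, EE_of_ne (ne_one t), mul_assoc]
  congr 1
  unfold z
  rw [show (1 / 2 + t * I - 1 : ℂ) = t * I - 1 / 2 by ring, ← mul_assoc, kk_one, one_mul]

lemma JJ1 {p a b : ℝ} {w : ℝ → ℂ} (hw : Adm p a b w) (hab : a ≤ b) :
    deriv (JJ a b w) 0 = ∫ t in a..b, w t * (kk t * z t + z1 t) := by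
  rw [(JJ_der hw hab 0).deriv]
  congr 1
  funext t
  rw [add_zero, dEE_of_ne (ne_one t), mul_assoc]
  congr 1
  unfold z z1
  rw [show (1 / 2 + t * I - 1 : ℂ) = t * I - 1 / 2 by ring, mul_add, ← mul_assoc, kk_one, one_mul]

lemma JJ2 {p a b : ℝ} {w : ℝ → ℂ} (hw : Adm p a b w) (hab : a ≤ b) :
    deriv (deriv (JJ a b w)) 0 = ∫ t in a..b, w t * (2 * (kk t * z1 t) + z2 t) := by
  rw [(JJ_der2 hw hab 0).deriv]
  congr 1
  funext t
  rw [add_zero, ddEE_of_ne (ne_one t), mul_assoc]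
  congr 1
  unfold z1 z2
  rw [show (1 / 2 + t * I - 1 : ℂ) = t * I - 1 / 2 by ring]
  have e : kk t * (2 * deriv riemannZeta (1 / 2 + t * I) +
      (t * I - 1 / 2) * deriv (deriv riemannZeta) (1 / 2 + t * I)) =
      2 * (kk t * deriv riemannZeta (1 / 2 + t * I)) +
        (kk t * (t * I - 1 / 2)) * deriv (deriv riemannZeta) (1 / 2 + t * I) := by ring
  rw [e, kk_one, one_mul]

/-- the combination that is the derivative of `ζ(1/2+it) e^{iλt}` -/
noncomputable def F1 (lam t : ℝ) : ℂ := z1 t + lam * z t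
/-- the combination that is the second derivative of `ζ(1/2+it) e^{iλt}` -/
noncomputable def F2 (lam t : ℝ) : ℂ := z2 t + 2 * lam * z1 t + lam ^ 2 * z t

lemma F1_cont (lam : ℝ) : Continuous (F1 lam) := by
  unfold F1
  exact z1_cont.add (continuous_const.mul z_cont)

lemma F2_cont (lam : ℝ) : Continuous (F2 lam) := by
  unfold F2
  exact (z2_cont.add (continuous_const.mul z1_cont)).add (continuous_const.mul z_cont)

lemma id1 {p a b : ℝ} {w : ℝ → ℂ} (hw : Adm p a b w) (hab : a ≤ b) (lam : ℝ) :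
    ∫ t in a..b, w t * F1 lam t = deriv (gg lam a b w) 0 - ∫ t in a..b, w t * (kk t * z t) := by
  rw [(gg_der hw hab lam 0).deriv, JJ0, JJ1 hw hab]
  have i1 : IntervalIntegrable (fun t => w t * z t) volume a b := hw.int hab z_cont
  have i2 : IntervalIntegrable (fun t => w t * (kk t * z t)) volume a b :=
    hw.int hab (kk_cont.mul z_cont)
  have i3 : IntervalIntegrable (fun t => w t * (kk t * z t + z1 t)) volume a b :=
    hw.int hab ((kk_cont.mul z_cont).add z1_cont)
  simp only [mul_zero, add_zero, ne_eq, OfNat.ofNat_ne_zero, not_false_eq_true, zero_pow,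
    Complex.exp_zero, one_mul]
  rw [← intervalIntegral.integral_const_mul, ← intervalIntegral.integral_add (i1.const_mul _) i3,
    ← intervalIntegral.integral_sub ((i1.const_mul _).add i3) i2]
  congr 1
  funext t
  unfold F1
  ring

lemma id2 {p a b : ℝ} {w : ℝ → ℂ} (hw : Adm p a b w) (hab : a ≤ b) (lam : ℝ) :
    ∫ t in a..b, w t * F2 lam t = deriv (deriv (gg lam a b w)) 0 - 2 * (∫ t in a..b, w t * z t) -
      2 * ∫ t in a..b, w t * (kk t * F1 lam t) := by
  rw [gg_der2 hw hab lam, JJ0, JJ1 hw hab, JJ2 hw hab]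
  have i1 : IntervalIntegrable (fun t => w t * z t) volume a b := hw.int hab z_cont
  have i2 : IntervalIntegrable (fun t => w t * (kk t * F1 lam t)) volume a b :=
    hw.int hab (kk_cont.mul (F1_cont lam))
  have i3 : IntervalIntegrable (fun t => w t * (kk t * z t + z1 t)) volume a b :=
    hw.int hab ((kk_cont.mul z_cont).add z1_cont)
  have i5 : IntervalIntegrable (fun t => w t * (2 * (kk t * z1 t) + z2 t)) volume a b :=
    hw.int hab ((continuous_const (y := (2 : ℂ))).mul (kk_cont.mul z1_cont) |>.add z2_cont)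
  have e1 : (∫ t in a..b, w t * F2 lam t) = ∫ t in a..b, ((((lam : ℂ) ^ 2 + 2) * (w t * z t) +
      2 * lam * (w t * (kk t * z t + z1 t)) + w t * (2 * (kk t * z1 t) + z2 t)) -
      2 * (w t * z t)) - 2 * (w t * (kk t * F1 lam t)) := by
    congr 1
    funext t
    unfold F2 F1
    ring
  have j1 := i1.const_mul ((lam : ℂ) ^ 2 + 2)
  have j2 := i3.const_mul (2 * (lam : ℂ))
  have j3 := i1.const_mul (2 : ℂ)
  have j4 := i2.const_mul (2 : ℂ)
  rw [e1, intervalIntegral.integral_sub (((j1.add j2).add i5).sub j3) j4,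
    intervalIntegral.integral_sub ((j1.add j2).add i5) j3,
    intervalIntegral.integral_add (j1.add j2) i5, intervalIntegral.integral_add j1 j2]
  simp only [intervalIntegral.integral_const_mul]

/-- **Bernstein's inequality in `L^p` for zeta on the critical line.** -/
theorem main : ∃ C T₀ : ℝ, 1 ≤ C ∧ 3 ≤ T₀ ∧ ∀ (p T a b lam D M : ℝ), 1 ≤ p → T₀ ≤ T →
    T ≤ a → a + 1 ≤ b → b ≤ 8 * T → 0 ≤ lam → lam ≤ Real.log T → 1 ≤ M →
    nrm p (a - Real.log T) (b + Real.log T) z ≤ M → (b - a) ^ (1 / p) ≤ Real.exp D * M →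
    0 ≤ D → D ≤ Real.log T →
    nrm p a b (F1 lam) ≤ (max lam (Real.log T - lam) + C + D) * M ∧
    nrm p a b (F2 lam) ≤ (max lam (Real.log T - lam) + C + D) ^ 2 * M := by
  obtain ⟨C₀, T₁, hC₀, hT₁, hs⟩ := strip
  obtain ⟨T₂, hT₂⟩ : ∃ T₂ : ℝ, ∀ T : ℝ, T₂ ≤ T → (2 * Real.log T + C₀ + 40) * Real.log T ≤ T := by
    have h1 := (Real.isLittleO_pow_log_id_atTop (n := 2)).bound
      (show 0 < 1 / (C₀ + 42) by positivity)
    have h2 := h1.and (Real.tendsto_log_atTop.eventually_ge_atTop 1) |>.and (eventually_gt_atTop 0)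
    obtain ⟨T₂, hT₂⟩ := eventually_atTop.1 h2
    refine ⟨T₂, fun T hT => ?_⟩
    obtain ⟨⟨h3, h4⟩, h5⟩ := hT₂ T hT
    rw [Real.norm_eq_abs, abs_of_nonneg (by positivity), id, Real.norm_eq_abs, abs_of_pos h5,
      one_div, ← div_eq_inv_mul, le_div_iff₀ (by positivity)] at h3
    have h6 : Real.log T ≤ Real.log T ^ 2 := by nlinarith
    have h7 : (C₀ + 40) * Real.log T ≤ (C₀ + 40) * Real.log T ^ 2 :=
      mul_le_mul_of_nonneg_left h6 (by linarith)
    linarith
  obtain ⟨T₃, hT₃⟩ : ∃ T₃ : ℝ, ∀ T : ℝ, T₃ ≤ T → 40 ≤ Real.log T := by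
    refine ⟨Real.exp 40, fun T hT => ?_⟩
    rw [← Real.log_exp 40]
    exact Real.log_le_log (Real.exp_pos _) hT
  refine ⟨C₀ + 36, max (max T₁ T₂) T₃, by linarith, ?_, ?_⟩
  · exact hT₁.trans ((le_max_left _ _).trans (le_max_left _ _))
  intro p T a b lam D M hp hT ha hab hb hlam hlam' hM hnM hbM hD hD'
  have hTT₁ : T₁ ≤ T := ((le_max_left _ _).trans (le_max_left _ _)).trans hT
  have hTT₂ := hT₂ T (((le_max_right _ _).trans (le_max_left _ _)).trans hT)
  have hTT₃ := hT₃ T ((le_max_right _ _).trans hT)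
  have hT0 : 0 < T := by linarith
  have hp0 : 0 < p := by linarith
  have hab' : a ≤ b := by linarith
  set ℓ : ℝ := Real.log T with hℓ
  set σ : ℝ := max lam (ℓ - lam) + C₀ + D with hσ
  have hmax : ℓ / 2 ≤ max lam (ℓ - lam) := by
    rcases le_total (ℓ / 2) lam with h | h
    · exact h.trans (le_max_left _ _)
    · exact (by linarith : ℓ / 2 ≤ ℓ - lam).trans (le_max_right _ _)
  have hmax2 : max lam (ℓ - lam) ≤ ℓ := max_le hlam' (by linarith)
  have hσ20 : 20 ≤ σ := by linarith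
  have hσup : σ ≤ 2 * ℓ + C₀ := by linarith
  set M' : ℝ := (1 + ℓ / T) * M with hM'
  have hM'0 : 0 < M' := by positivity
  -- the number of nodes
  set N : ℕ := ⌊σ / 8⌋₊ with hN
  have hN1 : 1 ≤ N := by
    rw [hN, Nat.one_le_floor_iff]
    linarith
  have hNle : (N : ℝ) ≤ σ / 8 := Nat.floor_le (by linarith)
  have hNge : σ / 8 - 1 < N := Nat.sub_one_lt_floor _
  have hN0 : (0 : ℝ) < N := by exact_mod_cast hN1
  have hNR : N * Real.pi + 1 ≤ σ * (1 / 2) := by
    have h1 := Real.pi_lt_d2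
    have h2 : N * Real.pi ≤ σ / 8 * 3.15 := by
      apply mul_le_mul hNle h1.le Real.pi_pos.le (by linarith)
    linarith
  set q : ℝ := σ * (1 + 2 / N) with hq
  have hq0 : 0 < q := by positivity
  have hqle : q ≤ σ + 32 := by
    have h1 : σ * (2 / N) ≤ 32 := by
      rw [← mul_div_assoc, div_le_iff₀ hN0]
      linarith
    rw [hq, mul_add, mul_one]
    linarith
  have hsmall : (σ + 40) * (ℓ / T) ≤ 1 := by
    rw [← mul_div_assoc, div_le_one hT0]
    refine le_trans ?_ hTT₂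
    apply mul_le_mul_of_nonneg_right _ (by linarith)
    linarith
  have hℓT0 : 0 ≤ ℓ / T := div_nonneg (by linarith) hT0.le
  have hinvT : 1 / T ≤ ℓ / T := div_le_div_of_nonneg_right (by linarith) hT0.le
  -- bounds for admissible weights
  have key : ∀ w : ℝ → ℂ, Adm p a b w → ‖deriv (gg lam a b w) 0‖ ≤ q * M' ∧
      ‖deriv (deriv (gg lam a b w)) 0‖ ≤ q ^ 2 * M' := by
    intro w hw
    have h1 := hs p T a b lam D M w hp hTT₁ ha hab hb hlam hlam' hw hM hnM hbM hD
    have h2 : ∀ s : ℂ, ‖s‖ ≤ 1 → ‖gg lam a b w s‖ ≤ M' * Real.exp (σ * |s.re|) := by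
      intro s hs1
      have h3 := h1 s.re s.im ((Complex.abs_re_le_norm s).trans hs1)
        ((Complex.abs_im_le_norm s).trans hs1)
      rw [Complex.re_add_im] at h3
      rw [mul_comm σ]
      exact h3
    have hd := gg_diff hw hab' lam
    have h3 : ∀ s₀ : ℂ, ‖s₀‖ ≤ 1 / 2 → ‖deriv (gg lam a b w) s₀‖ ≤
        (q * M') * Real.exp (σ * |s₀.re|) := by
      intro s₀ hs₀
      have h4 := bern hd (by linarith : 0 < σ) hM'0 hN1 hNR s₀ (fun s hs2 => h2 s (by
        have := norm_sub_norm_le s s₀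
        linarith))
      rw [hq]
      refine h4.trans (le_of_eq ?_)
      ring
    have hd' : Differentiable ℂ (deriv (gg lam a b w)) :=
      (hd.contDiff (n := 2)).differentiable_deriv_two
    have h4 := bern hd' (by linarith : 0 < σ) (mul_pos hq0 hM'0) hN1 hNR 0 (fun s hs2 => h3 s (by
      rwa [sub_zero] at hs2))
    have h5 := h3 0 (by norm_num)
    rw [Complex.zero_re, abs_zero, mul_zero, Real.exp_zero, mul_one] at h4 h5
    refine ⟨h5, h4.trans (le_of_eq ?_)⟩
    rw [hq]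
    ring
  have hzM : nrm p a b z ≤ M := (nrm_interval hp0 (by linarith) hab' (by linarith) z_cont).trans hnM
  have hkk : ∀ G : ℝ → ℂ, Continuous G → nrm p a b (fun t => kk t * G t) ≤ 1 / T * nrm p a b G := by
    intro G hG
    refine nrm_mono hp0 hab' (kk_cont.mul hG) hG (by positivity) fun t ht => ?_
    have ht0 : 0 < t := by linarith [ht.1]
    rw [Pi.mul_apply, norm_mul]
    apply mul_le_mul_of_nonneg_right _ (norm_nonneg _)
    exact (kk_le ht0).trans (one_div_le_one_div_of_le hT0 (by linarith [ht.1]))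
  have hqM : q * (1 + ℓ / T) ≤ σ + 33 := by
    have h1 : (σ + 32) * (ℓ / T) ≤ 1 := by nlinarith
    have h2 : q * (1 + ℓ / T) ≤ (σ + 32) * (1 + ℓ / T) := by
      apply mul_le_mul_of_nonneg_right hqle (by positivity)
    linarith
  have hfirst : nrm p a b (F1 lam) ≤ (σ + 34) * M := by
    obtain ⟨w, w1, w2, w3, w4⟩ := dual hp hab' (F1_cont lam)
    have hw : Adm p a b w := ⟨w1, w2, w4⟩
    have h1 := (key w hw).1
    rw [id1 hw hab'] at w3
    have h2 : nrm p a b (F1 lam) = ‖((nrm p a b (F1 lam) : ℝ) : ℂ)‖ := by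
      rw [Complex.norm_real, Real.norm_eq_abs, abs_of_nonneg (nrm_nonneg hab' _)]
    rw [h2, ← w3]
    refine (norm_sub_le _ _).trans ?_
    have h3 := (w4 _ (kk_cont.mul z_cont)).trans (hkk z z_cont)
    have h4 : 1 / T * nrm p a b z ≤ 1 * M := by
      apply mul_le_mul _ hzM (nrm_nonneg hab' _) (by norm_num)
      rw [div_le_one hT0]
      linarith
    have h5 : q * M' ≤ (σ + 33) * M := by
      rw [hM', ← mul_assoc]
      exact mul_le_mul_of_nonneg_right hqM (by linarith)
    simp only [Pi.mul_apply] at h3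
    linarith
  constructor
  · refine hfirst.trans ?_
    apply mul_le_mul_of_nonneg_right _ (by linarith)
    linarith
  · obtain ⟨w, w1, w2, w3, w4⟩ := dual hp hab' (F2_cont lam)
    have hw : Adm p a b w := ⟨w1, w2, w4⟩
    have h1 := (key w hw).2
    rw [id2 hw hab'] at w3
    have h2 : nrm p a b (F2 lam) = ‖((nrm p a b (F2 lam) : ℝ) : ℂ)‖ := by
      rw [Complex.norm_real, Real.norm_eq_abs, abs_of_nonneg (nrm_nonneg hab' _)]
    rw [h2, ← w3]
    refine (norm_sub_le _ _).trans ?_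
    have h3 := (w4 _ (kk_cont.mul (F1_cont lam))).trans (hkk _ (F1_cont lam))
    have h4 := (w4 _ z_cont).trans hzM
    have h5 : ‖deriv (deriv (gg lam a b w)) 0 - 2 * ∫ t in a..b, w t * z t‖ ≤ q ^ 2 * M' + 2 * M := by
      refine (norm_sub_le _ _).trans ?_
      rw [norm_mul, Complex.norm_ofNat]
      linarith
    have h6 : ‖2 * ∫ t in a..b, w t * (kk t * F1 lam t)‖ ≤ 2 * M := by
      rw [norm_mul, Complex.norm_ofNat]
      simp only [Pi.mul_apply] at h3
      have h7 : 1 / T * nrm p a b (F1 lam) ≤ M := by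
        calc 1 / T * nrm p a b (F1 lam) ≤ ℓ / T * ((σ + 34) * M) :=
              mul_le_mul hinvT hfirst (nrm_nonneg hab' _) hℓT0
          _ = ((σ + 34) * (ℓ / T)) * M := by ring
          _ ≤ 1 * M := by
              apply mul_le_mul_of_nonneg_right _ (by linarith)
              nlinarith
          _ = M := one_mul M
      linarith
    have h7 : q ^ 2 * M' ≤ (σ + 33) ^ 2 * M := by
      have h8 : q ^ 2 * (1 + ℓ / T) ≤ (σ + 33) ^ 2 := by
        calc q ^ 2 * (1 + ℓ / T) ≤ q ^ 2 * (1 + ℓ / T) ^ 2 := by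
              apply mul_le_mul_of_nonneg_left _ (by positivity)
              nlinarith
          _ = (q * (1 + ℓ / T)) ^ 2 := by ring
          _ ≤ _ := by
              apply pow_le_pow_left₀ (by positivity) hqM
      rw [hM', ← mul_assoc]
      exact mul_le_mul_of_nonneg_right h8 (by linarith)
    have h8 : (σ + 33) ^ 2 * M + 4 * M ≤ (max lam (ℓ - lam) + (C₀ + 36) + D) ^ 2 * M := by
      rw [← add_mul]
      apply mul_le_mul_of_nonneg_right _ (by linarith)
      rw [show max lam (ℓ - lam) + (C₀ + 36) + D = σ + 36 by rw [hσ]; ring]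
      nlinarith
    linarith

end Pool.Agent.Q85.Mom
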