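import Mathlib
import Pool.Agent.Q85.Mom.Eng2

set_option autoImplicit false

/-!
# A lower bound for the moments, from the right of the critical line
-/

open Complex Set Filter Topology MeasureTheory

namespace Pool.Agent.Q85.Mom

lemma zeta_two {s : ℂ} (hs : 2 ≤ s.re) : ‖riemannZeta s - 1‖ ≤ 2 / 3 := by
  have hs1 : 1 < s.re := by linarith
  have hnorm : ‖riemannZeta s - 1‖ ≤ Real.pi ^ 2 / 6 - 1 := by
    have hz : riemannZeta s = ∑' n : ℕ, 1 / (n + 1 : ℂ) ^ s := zeta_eq_tsum_one_div_nat_add_one_cpow hs1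
    have hsum : Summable (fun n : ℕ => 1 / (n + 1 : ℂ) ^ s) := by
      have h := (Complex.summable_one_div_nat_cpow (p := s)).2 hs1
      have h' := (summable_nat_add_iff 1).2 h
      simpa using h'
    have h0 : riemannZeta s - 1 = ∑' n : ℕ, 1 / ((n + 1 : ℕ) + 1 : ℂ) ^ s := by
      rw [hz, hsum.tsum_eq_zero_add]
      simp
    have hR : HasSum (fun n : ℕ => 1 / (n : ℝ) ^ 2) (Real.pi ^ 2 / 6) := hasSum_zeta_two
    have hR2 : HasSum (fun n : ℕ => 1 / ((n + 2 : ℕ) : ℝ) ^ 2) (Real.pi ^ 2 / 6 - 1) := by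
      have := (hasSum_nat_add_iff' (f := fun n : ℕ => 1 / (n : ℝ) ^ 2) 2).2 hR
      simpa [Finset.sum_range_succ] using this
    rw [h0]
    refine tsum_of_norm_bounded hR2 ?_
    intro n
    rw [norm_div, norm_one]
    have e : (((n + 1 : ℕ) : ℂ) + 1) = (((n + 2 : ℕ) : ℝ) : ℂ) := by
      push_cast; ring
    rw [e, Complex.norm_cpow_eq_rpow_re_of_pos (by positivity)]
    have h2 : ((n + 2 : ℕ) : ℝ) ^ 2 ≤ ((n + 2 : ℕ) : ℝ) ^ s.re := by
      rw [← Real.rpow_natCast]
      exact Real.rpow_le_rpow_of_exponent_le (by push_cast; linarith [(Nat.cast_nonneg n : (0:ℝ) ≤ n)])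
        (by exact_mod_cast hs)
    exact one_div_le_one_div_of_le (by positivity) h2
  have hpi : Real.pi ^ 2 / 6 - 1 ≤ 2 / 3 := by
    have : Real.pi < 3.15 := Real.pi_lt_d2
    nlinarith [Real.pi_pos]
  linarith

/-- the constant weight is admissible -/
lemma adm_const {p a b : ℝ} (hp : 1 ≤ p) (hab : a < b) :
    Adm p a b (fun _ => (((b - a) ^ (-(1 - 1 / p)) : ℝ) : ℂ)) := by
  have hba : 0 < b - a := by linarith
  set c : ℝ := (b - a) ^ (-(1 - 1 / p)) with hc
  have hc0 : 0 < c := Real.rpow_pos_of_pos hba _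
  refine ⟨measurable_const, ⟨‖(c : ℂ)‖, fun t _ => le_rfl⟩, fun G hG => ?_⟩
  rw [intervalIntegral.integral_const_mul, norm_mul, Complex.norm_real, Real.norm_eq_abs,
    abs_of_pos hc0]
  have h1 : ‖∫ t in a..b, G t‖ ≤ ∫ t in a..b, ‖G t‖ :=
    intervalIntegral.norm_integral_le_integral_norm hab.le
  have h2 := holder hp hab.le (F := fun _ => (1 : ℂ)) (G := G) continuous_const hG
  simp only [norm_one, Real.one_rpow, one_mul, intervalIntegral.integral_const, smul_eq_mul,
    mul_one] at h2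
  calc c * ‖∫ t in a..b, G t‖ ≤ c * ((b - a) ^ (1 - 1 / p) * nrm p a b G) :=
        mul_le_mul_of_nonneg_left (h1.trans h2) hc0.le
    _ = nrm p a b G := by
        rw [hc, ← mul_assoc, ← Real.rpow_add hba, neg_add_cancel, Real.rpow_zero, one_mul]

/-- the moments are not small -/
theorem low : ∃ c T₀ : ℝ, 0 < c ∧ c ≤ 1 ∧ 3 ≤ T₀ ∧ ∀ (p T a b : ℝ), 1 ≤ p → T₀ ≤ T →
    T ≤ a → a + 1 ≤ b → b ≤ 8 * T → 1 < c * (b - a) ^ (1 / p) →
    c * (b - a) ^ (1 / p) ≤ 2 * nrm p (a - Real.log T) (b + Real.log T) z := by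
  obtain ⟨K, hK1, hK⟩ := zeta_right
  obtain ⟨C₁, B, hC₁, hgr⟩ := Pool.Agent.H448R2.GC.zeta_one_growth 1
  have hB0 : (0 : ℝ) ≤ B := Nat.cast_nonneg B
  obtain ⟨T₁, hT₁⟩ : ∃ T₁ : ℝ, ∀ T : ℝ, T₁ ≤ T → (B : ℝ) + 3 ≤ Real.log T := by
    refine ⟨Real.exp (B + 3), fun T hT => ?_⟩
    rw [← Real.log_exp ((B : ℝ) + 3)]
    exact Real.log_le_log (Real.exp_pos _) hT
  set K' : ℝ := Real.exp (25 / 4) * (3 * K) with hK'
  have hK'1 : 1 ≤ K' := by
    have : 1 ≤ Real.exp (25 / 4) := Real.one_le_exp (by norm_num)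
    nlinarith
  set c' : ℝ := 5 / 2 * Real.log 4 + 3 / 2 * Real.log K' with hc'
  have hc'0 : 0 ≤ c' := by
    have := Real.log_nonneg hK'1
    have : 0 ≤ Real.log 4 := Real.log_nonneg (by norm_num)
    positivity
  refine ⟨Real.exp (-c'), max (max 60 T₁) (8 * C₁ * Real.exp (25 / 4) * 10 ^ B), Real.exp_pos _,
    ?_, ?_, ?_⟩
  · rw [Real.exp_le_one_iff]
    linarith
  · exact (by norm_num : (3 : ℝ) ≤ 60).trans ((le_max_left _ _).trans (le_max_left _ _))
  intro p T a b hp hT ha hab hb hbig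
  have hT60 : 60 ≤ T := ((le_max_left _ _).trans (le_max_left _ _)).trans hT
  have hTT₁ : T₁ ≤ T := ((le_max_right _ _).trans (le_max_left _ _)).trans hT
  have hTC : 8 * C₁ * Real.exp (25 / 4) * 10 ^ B ≤ T := (le_max_right _ _).trans hT
  set ℓ : ℝ := Real.log T with hℓ
  have hℓB : (B : ℝ) + 3 ≤ ℓ := hT₁ T hTT₁
  have hℓ0 : 0 < ℓ := by linarith
  have hT0 : 0 < T := by linarith
  have hℓT : ℓ ≤ T - 1 := Real.log_le_sub_one_of_pos hT0
  have hp0 : 0 < p := by linarith
  have hab' : a ≤ b := by linarith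
  have hab2 : a < b := by linarith
  set V : ℝ := √(((B : ℝ) + 3) * ℓ) with hV
  have hV2 : V ^ 2 = ((B : ℝ) + 3) * ℓ := Real.sq_sqrt (by positivity)
  have hV0 : 0 < V := Real.sqrt_pos.2 (by positivity)
  have hVℓ : V ≤ ℓ := by
    rw [hV]
    apply Real.sqrt_le_iff.2
    exact ⟨hℓ0.le, by nlinarith⟩
  have hba : 1 ≤ b - a := by linarith
  set u : ℝ := (b - a) ^ (1 / p) with hu
  have hu1 : 1 ≤ u := Real.one_le_rpow hba (by positivity)
  have hu8 : u ≤ 8 * T := by
    have h1 : (b - a) ^ (1 / p) ≤ (b - a) ^ (1 : ℝ) := by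
      apply Real.rpow_le_rpow_of_exponent_le hba
      rw [div_le_one hp0]
      exact hp
    rw [Real.rpow_one] at h1
    linarith
  set n0 : ℝ := nrm p (a - ℓ) (b + ℓ) z with hn0
  have hn00 : 0 ≤ n0 := nrm_nonneg (by linarith) _
  set M : ℝ := max 1 (2 * n0) with hM
  have hM1 : 1 ≤ M := le_max_left _ _
  set A : ℝ := K' * u with hA
  have hA1 : 1 ≤ A := by nlinarith
  set w : ℝ → ℂ := fun _ => (((b - a) ^ (-(1 - 1 / p)) : ℝ) : ℂ) with hwdef
  have hw : Adm p a b w := adm_const hp hab2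
  have hℓT0 : 0 ≤ ℓ / T := by positivity
  -- bounds
  have h0 : ∀ y : ℝ, |y| ≤ V → ‖gg 0 a b w (y * I)‖ ≤ M := by
    intro y hy
    have h1 := gg_le hw 0 0 y
    rw [Complex.ofReal_zero, zero_add] at h1
    refine h1.trans ?_
    have h2 : nrm p a b (fun t => kk t * EE (1 / 2 + t * I + y * I)) ≤ (1 + ℓ / T) *
        nrm p a b (fun t => z (t + y)) := by
      refine nrm_mono hp0 hab' (KEc _) (zc_shift y) (by positivity) ?_
      intro t ht
      have ht0 : 0 < t := by linarith [ht.1]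
      have e1 : (1 / 2 + t * I + y * I : ℂ) = 1 / 2 + ((t + y : ℝ) : ℂ) * I := by push_cast; ring
      rw [e1, EE_of_ne (ne_one _)]
      have e2 : kk t * ((1 / 2 + ((t + y : ℝ) : ℂ) * I - 1) * riemannZeta (1 / 2 + ((t + y : ℝ) : ℂ) * I)) =
          (1 + y * I * kk t) * z (t + y) := by
        unfold z
        have h6 : kk t * (t * I - 1 / 2) = 1 := kk_one t
        rw [← mul_assoc]
        congr 1
        push_cast
        calc kk t * (1 / 2 + (t + y) * I - 1) = kk t * (t * I - 1 / 2) + y * I * kk t := by ring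
          _ = _ := by rw [h6]
      rw [e2, norm_mul]
      apply mul_le_mul_of_nonneg_right _ (norm_nonneg _)
      refine (norm_add_le _ _).trans ?_
      rw [norm_one, norm_mul, norm_mul, norm_I, mul_one, Complex.norm_real, Real.norm_eq_abs]
      have h5 := kk_le ht0
      have h6 : |y| * ‖kk t‖ ≤ ℓ * (1 / T) := by
        apply mul_le_mul (hy.trans hVℓ) _ (norm_nonneg _) hℓ0.le
        refine h5.trans ?_
        exact one_div_le_one_div_of_le hT0 (by linarith [ht.1])
      have h7 : ℓ * (1 / T) = ℓ / T := by ring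
      linarith
    have h3 : nrm p a b (fun t => z (t + y)) ≤ n0 := by
      rw [nrm_shift]
      have hyV := abs_le.1 hy
      exact nrm_interval hp0 (by linarith) (by linarith) (by linarith) z_cont
    have h4 : Real.exp (0 * 0 + 0 ^ 2 - y ^ 2) ≤ 1 := by
      rw [Real.exp_le_one_iff]
      nlinarith [sq_nonneg y]
    have h5 : ℓ / T ≤ 1 := (div_le_one hT0).2 (by linarith)
    calc _ ≤ 1 * (2 * n0) := by
          apply mul_le_mul h4 (h2.trans _) (nrm_nonneg hab' _) (by norm_num)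
          exact mul_le_mul (by linarith) h3 (nrm_nonneg hab' _) (by norm_num)
      _ ≤ M := by rw [one_mul]; exact le_max_right _ _
  have h1 : ∀ y : ℝ, |y| ≤ V → ‖gg 0 a b w (((5 / 2 : ℝ) : ℂ) + y * I)‖ ≤ A := by
    intro y hy
    refine (gg_le hw 0 (5 / 2) y).trans ?_
    have h2 : nrm p a b (fun t => kk t * EE (1 / 2 + t * I + (((5 / 2 : ℝ) : ℂ) + y * I))) ≤
        (3 * K) * u := by
      refine nrm_le_const hp0 hab' (KEc _) (by positivity) ?_
      intro t ht
      have ht0 : 0 < t := by linarith [ht.1]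
      have hne : (1 / 2 + t * I + (((5 / 2 : ℝ) : ℂ) + y * I) : ℂ) ≠ 1 := by
        intro h
        have := congrArg Complex.re h
        norm_num at this
      rw [EE_of_ne hne, norm_mul, norm_mul]
      have h3 := hK (1 / 2 + t * I + (((5 / 2 : ℝ) : ℂ) + y * I)) (by norm_num)
      have h4 : ‖(1 / 2 + t * I + (((5 / 2 : ℝ) : ℂ) + y * I) - 1 : ℂ)‖ ≤ 3 * t := by
        refine (Complex.norm_le_abs_re_add_abs_im _).trans ?_
        have e1 : (1 / 2 + t * I + (((5 / 2 : ℝ) : ℂ) + y * I) - 1 : ℂ).re = 2 := by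
          norm_num
        have e2 : (1 / 2 + t * I + (((5 / 2 : ℝ) : ℂ) + y * I) - 1 : ℂ).im = t + y := by
          simp
        rw [e1, e2]
        have h5 : |t + y| ≤ t + |y| := by
          refine (abs_add_le _ _).trans ?_
          rw [abs_of_pos ht0]
        have h6 : |(2 : ℝ)| = 2 := by norm_num
        have h7 : |y| ≤ T - 1 := hy.trans (hVℓ.trans hℓT)
        linarith [ht.1]
      have h5 := kk_le ht0
      calc ‖kk t‖ * (‖(1 / 2 + t * I + (((5 / 2 : ℝ) : ℂ) + y * I) - 1 : ℂ)‖ * ‖riemannZeta (1 / 2 + t * I + (((5 / 2 : ℝ) : ℂ) + y * I))‖)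
          ≤ (1 / t) * ((3 * t) * K) := by gcongr
        _ = 3 * K := by field_simp
    have h3 : Real.exp (0 * (5 / 2) + (5 / 2) ^ 2 - y ^ 2) ≤ Real.exp (25 / 4) := by
      rw [Real.exp_le_exp]
      nlinarith [sq_nonneg y]
    calc _ ≤ Real.exp (25 / 4) * ((3 * K) * u) :=
          mul_le_mul h3 h2 (nrm_nonneg hab' _) (Real.exp_pos _).le
      _ = A := by rw [hA, hK']; ring
  have h2 : ∀ x y : ℝ, 0 ≤ x → x ≤ 5 / 2 → |y| = V → ‖gg 0 a b w (x + y * I)‖ ≤ 1 := by
    intro x y hx0 hx hy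
    refine (gg_le hw 0 x y).trans ?_
    have h2 : nrm p a b (fun t => kk t * EE (1 / 2 + t * I + (x + y * I))) ≤
        (C₁ * (10 * T) ^ B) * u := by
      refine nrm_le_const hp0 hab' (KEc _) (by positivity) ?_
      intro t ht
      have ht0 : 0 < t := by linarith [ht.1]
      rw [norm_mul]
      have h3 := hgr (1 / 2 + t * I + (x + y * I)) (by simp; linarith) (by simp; linarith)
      have e2 : (1 / 2 + t * I + (x + y * I) : ℂ).im = t + y := by simp
      rw [e2] at h3
      have h5 : |t + y| ≤ t + |y| := by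
        refine (abs_add_le _ _).trans ?_
        rw [abs_of_pos ht0]
      have h7 : |y| ≤ T - 1 := by rw [hy]; exact hVℓ.trans hℓT
      have h6 : (1 + |t + y|) ^ B ≤ (10 * T) ^ B := by
        apply pow_le_pow_left₀ (by positivity)
        linarith [ht.2]
      have h8 : ‖kk t‖ ≤ 1 := by
        refine (kk_le ht0).trans ?_
        rw [div_le_one ht0]
        linarith [ht.1]
      calc ‖kk t‖ * ‖EE (1 / 2 + t * I + (x + y * I))‖ ≤ 1 * (C₁ * (10 * T) ^ B) := by
            apply mul_le_mul h8 _ (norm_nonneg _) (by norm_num)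
            refine h3.trans ?_
            exact mul_le_mul_of_nonneg_left h6 hC₁.le
        _ = _ := one_mul _
    have h3 : Real.exp (0 * x + x ^ 2 - y ^ 2) ≤ Real.exp (25 / 4 - V ^ 2) := by
      rw [Real.exp_le_exp]
      have : y ^ 2 = V ^ 2 := by rw [← hy, sq_abs]
      rw [this]
      nlinarith
    have h4 : Real.exp (25 / 4 - V ^ 2) = Real.exp (25 / 4) / T ^ (B + 3) := by
      rw [hV2]
      have e : (25 / 4 : ℝ) - ((B : ℝ) + 3) * ℓ = 25 / 4 - ((B + 3 : ℕ) : ℝ) * ℓ := by push_cast; ring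
      rw [e, Real.exp_sub, Real.exp_nat_mul, hℓ, Real.exp_log hT0]
    calc _ ≤ Real.exp (25 / 4 - V ^ 2) * ((C₁ * (10 * T) ^ B) * (8 * T)) := by
          apply mul_le_mul h3 (h2.trans _) (nrm_nonneg hab' _) (Real.exp_pos _).le
          exact mul_le_mul_of_nonneg_left hu8 (by positivity)
      _ = (8 * C₁ * Real.exp (25 / 4) * 10 ^ B) / T ^ 2 := by
          rw [h4, mul_pow, pow_add]
          field_simp
      _ ≤ 1 := by
          rw [div_le_one (by positivity)]
          nlinarith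
  have h5 := W587.PL.box_pos (gg_diff hw hab' 0) (by norm_num : (0 : ℝ) < 5 / 2) hV0 hM1 hA1 h0 h1 h2
    (x := 3 / 2) (y := 0) (by norm_num) (by norm_num) (by rw [abs_zero]; exact hV0.le)
  -- the value at `3/2`
  have h6 : 1 / 4 * u ≤ ‖gg 0 a b w (((3 / 2 : ℝ) : ℂ) + ((0 : ℝ) : ℂ) * I)‖ := by
    rw [Complex.ofReal_zero, zero_mul, add_zero]
    unfold gg
    rw [norm_mul]
    have e1 : 1 ≤ ‖cexp (((0 : ℝ) : ℂ) * ((3 / 2 : ℝ) : ℂ) + ((3 / 2 : ℝ) : ℂ) ^ 2)‖ := by
      rw [Complex.ofReal_zero, zero_mul, zero_add, ← Complex.ofReal_pow, ← Complex.ofReal_exp,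
        Complex.norm_real, Real.norm_eq_abs, abs_of_pos (Real.exp_pos _)]
      exact Real.one_le_exp (by norm_num)
    have e2 : 1 / 4 * u ≤ ‖JJ a b w ((3 / 2 : ℝ) : ℂ)‖ := by
      unfold JJ
      set c0 : ℝ := (b - a) ^ (-(1 - 1 / p)) with hc0
      have hc0p : 0 < c0 := Real.rpow_pos_of_pos (by linarith) _
      have e3 : (∫ t in a..b, w t * kk t * EE (1 / 2 + t * I + ((3 / 2 : ℝ) : ℂ))) =
          (c0 : ℂ) * ∫ t in a..b, kk t * EE (1 / 2 + t * I + ((3 / 2 : ℝ) : ℂ)) := by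
        rw [← intervalIntegral.integral_const_mul]
        congr 1
        funext t
        rw [mul_assoc]
      have e4 : ‖(∫ t in a..b, kk t * EE (1 / 2 + t * I + ((3 / 2 : ℝ) : ℂ))) - ((b - a : ℝ) : ℂ)‖ ≤
          3 / 4 * |b - a| := by
        have e5 : (((b - a : ℝ) : ℝ) : ℂ) = ∫ _t in a..b, (1 : ℂ) := by
          rw [intervalIntegral.integral_const]
          simp
        rw [e5, ← intervalIntegral.integral_sub ((KEc _).intervalIntegrable _ _)
          (continuous_const.intervalIntegrable _ _)]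
        refine intervalIntegral.norm_integral_le_of_norm_le_const fun t ht => ?_
        rw [uIoc_of_le hab'] at ht
        have ht0 : 0 < t := by linarith [ht.1]
        have hne : (1 / 2 + t * I + ((3 / 2 : ℝ) : ℂ) : ℂ) ≠ 1 := by
          intro h
          have := congrArg Complex.re h
          norm_num at this
        rw [EE_of_ne hne]
        have h7 := zeta_two (s := 1 / 2 + t * I + ((3 / 2 : ℝ) : ℂ)) (by norm_num)
        set ζ0 := riemannZeta (1 / 2 + t * I + ((3 / 2 : ℝ) : ℂ)) with hζ0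
        have h8 : kk t * ((1 / 2 + t * I + ((3 / 2 : ℝ) : ℂ) - 1) * ζ0) - 1 =
            (ζ0 - 1) + 3 / 2 * kk t * ζ0 := by
          have h9 := kk_one t
          push_cast
          calc kk t * ((1 / 2 + t * I + 3 / 2 - 1) * ζ0) - 1
              = (kk t * (t * I - 1 / 2)) * ζ0 - 1 + 3 / 2 * kk t * ζ0 := by ring
            _ = _ := by rw [h9]; ring
        rw [h8]
        refine (norm_add_le _ _).trans ?_
        rw [norm_mul, norm_mul]
        have h9 : ‖ζ0‖ ≤ 5 / 3 := by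
          have := norm_sub_norm_le ζ0 1
          rw [norm_one] at this
          linarith
        have h10 : ‖kk t‖ ≤ 1 / 60 :=
          (kk_le ht0).trans (one_div_le_one_div_of_le (by norm_num) (by linarith [ht.1]))
        have h11 : ‖(3 / 2 : ℂ)‖ = 3 / 2 := by norm_num
        rw [h11]
        have h12 : 3 / 2 * ‖kk t‖ * ‖ζ0‖ ≤ 3 / 2 * (1 / 60) * (5 / 3) := by gcongr
        linarith
      rw [e3, norm_mul, Complex.norm_real, Real.norm_eq_abs, abs_of_pos hc0p]
      rw [abs_of_pos (by linarith : 0 < b - a)] at e4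
      have e6 : 1 / 4 * (b - a) ≤ ‖∫ t in a..b, kk t * EE (1 / 2 + t * I + ((3 / 2 : ℝ) : ℂ))‖ := by
        have h7 := norm_sub_norm_le ((b - a : ℝ) : ℂ)
          (∫ t in a..b, kk t * EE (1 / 2 + t * I + ((3 / 2 : ℝ) : ℂ)))
        rw [norm_sub_rev, Complex.norm_real, Real.norm_eq_abs,
          abs_of_pos (by linarith : 0 < b - a)] at h7
        linarith
      have e7 : u = c0 * (b - a) := by
        rw [hu, hc0]
        nth_rewrite 3 [← Real.rpow_one (b - a)]
        rw [← Real.rpow_add (by linarith)]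
        congr 1
        ring
      rw [e7]
      nlinarith
    calc 1 / 4 * u ≤ 1 * ‖JJ a b w ((3 / 2 : ℝ) : ℂ)‖ := by rw [one_mul]; exact e2
      _ ≤ _ := mul_le_mul_of_nonneg_right e1 (norm_nonneg _)
  have h7 := h6.trans h5
  have h8 := Real.log_le_log (by positivity) h7
  rw [Real.log_mul (by norm_num) (by positivity), Real.log_mul (by positivity) (Real.exp_pos _).ne',
    Real.log_exp, hA, Real.log_mul (by positivity) (by positivity)] at h8
  have h9 : Real.log (1 / 4) = -Real.log 4 := by rw [one_div, Real.log_inv]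
  rw [h9] at h8
  have h10 : Real.log u - c' ≤ Real.log M := by
    rw [hc']
    linarith
  have h11 : Real.exp (-c') * u ≤ M := by
    rw [← Real.log_le_log_iff (by positivity) (by positivity), Real.log_mul (Real.exp_pos _).ne'
      (by positivity), Real.log_exp]
    linarith
  rcases le_total (2 * n0) 1 with h | h
  · rw [hM, max_eq_left h] at h11
    linarith
  · rw [hM, max_eq_right h] at h11
    exact h11

end Pool.Agent.Q85.Mom
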