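import Mathlib
import Pool.Agent.Q85.Mom.Low

set_option autoImplicit false

/-!
# Bernstein's inequality in `L^p` for zeta on the critical line: final form
-/

open Complex Set Filter Topology MeasureTheory

namespace Pool.Agent.Q85.Mom

/-- Minkowski's inequality -/
lemma nrm_add {p : ℝ} (hp : 1 ≤ p) {a b : ℝ} (hab : a ≤ b) {F G : ℝ → ℂ} (hF : Continuous F)
    (hG : Continuous G) : nrm p a b (fun t => F t + G t) ≤ nrm p a b F + nrm p a b G := by
  obtain ⟨w, w1, w2, w3, w4⟩ := dual hp hab (F := fun t => F t + G t) (hF.add hG)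
  have hw : Adm p a b w := ⟨w1, w2, w4⟩
  have h2 : nrm p a b (fun t => F t + G t) = ‖((nrm p a b (fun t => F t + G t) : ℝ) : ℂ)‖ := by
    rw [Complex.norm_real, Real.norm_eq_abs, abs_of_nonneg (nrm_nonneg hab _)]
  rw [h2, ← w3]
  simp only [mul_add]
  rw [intervalIntegral.integral_add (hw.int hab hF) (hw.int hab hG)]
  exact (norm_add_le _ _).trans (add_le_add (w4 F hF) (w4 G hG))

/-- the norms depend on the modulus only -/
lemma nrm_congr {p a b : ℝ} (hab : a ≤ b) {F G : ℝ → ℂ} (h : ∀ t ∈ Icc a b, ‖F t‖ = ‖G t‖) :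
    nrm p a b F = nrm p a b G := by
  unfold nrm
  congr 1
  apply intervalIntegral.integral_congr
  intro t ht
  rw [uIcc_of_le hab] at ht
  simp only
  rw [h t ht]

/-- monotonicity without continuity of the smaller function -/
lemma nrm_le {p a b : ℝ} (hp : 0 < p) (hab : a ≤ b) {F G : ℝ → ℂ} (hG : Continuous G)
    (h : ∀ t ∈ Icc a b, ‖F t‖ ≤ ‖G t‖) : nrm p a b F ≤ nrm p a b G := by
  unfold nrm
  apply Real.rpow_le_rpow (int_nonneg hab F) _ (by positivity)
  rw [intervalIntegral.integral_of_le hab, intervalIntegral.integral_of_le hab]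
  apply integral_mono_of_nonneg
  · exact Filter.Eventually.of_forall fun t => by positivity
  · have := (cont_pow hp.le hG).intervalIntegrable (μ := volume) a b
    rwa [intervalIntegrable_iff_integrableOn_Ioc_of_le hab] at this
  · filter_upwards [ae_restrict_mem measurableSet_Ioc] with t ht
    exact Real.rpow_le_rpow (norm_nonneg _) (h t ⟨ht.1.le, ht.2⟩) hp.le

/-- the norm of a sum of moduli -/
lemma nrm_add_le {p : ℝ} (hp : 1 ≤ p) {a b : ℝ} (hab : a ≤ b) {F G H : ℝ → ℂ}
    (hG : Continuous G) (hH : Continuous H) {K : ℝ} (hK : 0 ≤ K)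
    (h : ∀ t ∈ Icc a b, ‖F t‖ ≤ ‖G t‖ + K * ‖H t‖) :
    nrm p a b F ≤ nrm p a b G + K * nrm p a b H := by
  have hp0 : 0 < p := by linarith
  have c1 : Continuous fun t => ((‖G t‖ : ℝ) : ℂ) := Complex.continuous_ofReal.comp hG.norm
  have c2 : Continuous fun t => ((K * ‖H t‖ : ℝ) : ℂ) :=
    Complex.continuous_ofReal.comp (hH.norm.const_mul _)
  have h1 : nrm p a b F ≤ nrm p a b (fun t => ((‖G t‖ : ℝ) : ℂ) + ((K * ‖H t‖ : ℝ) : ℂ)) := by
    refine nrm_le hp0 hab (c1.add c2) fun t ht => ?_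
    rw [← Complex.ofReal_add, Complex.norm_real, Real.norm_eq_abs,
      abs_of_nonneg (by positivity)]
    exact h t ht
  refine h1.trans ((nrm_add hp hab c1 c2).trans (add_le_add (le_of_eq ?_) ?_))
  · apply nrm_congr hab
    intro t _
    rw [Complex.norm_real, norm_norm]
  · refine nrm_mono hp0 hab c2 hH hK fun t _ => ?_
    rw [Complex.norm_real, Real.norm_eq_abs, abs_of_nonneg (by positivity)]

/-- **Bernstein's inequality**, uniformly in `p` and for all intervals which are not too short -/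
theorem blk : ∃ C T₀ : ℝ, 1 ≤ C ∧ 3 ≤ T₀ ∧ ∀ (p T a b lam : ℝ), 1 ≤ p → T₀ ≤ T →
    T ≤ a → a + C ^ p ≤ b → b ≤ 8 * T → 0 ≤ lam → lam ≤ Real.log T →
    1 ≤ nrm p (a - Real.log T) (b + Real.log T) z ∧
    (b - a) ^ (1 / p) ≤ C * nrm p (a - Real.log T) (b + Real.log T) z ∧
    nrm p a b (F1 lam) ≤ (max lam (Real.log T - lam) + C) *
      nrm p (a - Real.log T) (b + Real.log T) z ∧
    nrm p a b (F2 lam) ≤ (max lam (Real.log T - lam) + C) ^ 2 *
      nrm p (a - Real.log T) (b + Real.log T) z := by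
  obtain ⟨C₀, T₁, hC₀, hT₁, hm⟩ := main
  obtain ⟨c, T₂, hc0, hc1, hT₂, hl⟩ := low
  set D : ℝ := Real.log (2 / c) with hD
  have hD0 : 0 ≤ D := by
    apply Real.log_nonneg
    rw [le_div_iff₀ hc0]
    linarith
  refine ⟨max (C₀ + D) (3 / c), max (max T₁ T₂) (2 / c), ?_, ?_, ?_⟩
  · exact (by linarith : 1 ≤ C₀ + D).trans (le_max_left _ _)
  · exact hT₁.trans ((le_max_left _ _).trans (le_max_left _ _))
  intro p T a b lam hp hT ha hab hb hlam hlam'
  set C : ℝ := max (C₀ + D) (3 / c) with hC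
  have hCc : 3 / c ≤ C := le_max_right _ _
  have hTT₁ : T₁ ≤ T := ((le_max_left _ _).trans (le_max_left _ _)).trans hT
  have hTT₂ : T₂ ≤ T := ((le_max_right _ _).trans (le_max_left _ _)).trans hT
  have hTc : 2 / c ≤ T := (le_max_right _ _).trans hT
  have hp0 : 0 < p := by linarith
  have h3c : 3 ≤ 3 / c := by
    rw [le_div_iff₀ hc0]
    linarith
  have hC3 : 3 ≤ C := h3c.trans hCc
  have hCp : 1 ≤ C ^ p := Real.one_le_rpow (by linarith) hp0.le
  have hab1 : a + 1 ≤ b := by linarith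
  have hba : C ^ p ≤ b - a := by linarith
  have hu : C ≤ (b - a) ^ (1 / p) := by
    have h1 := Real.rpow_le_rpow (by positivity) hba (by positivity : 0 ≤ 1 / p)
    rwa [← Real.rpow_mul (by linarith), mul_one_div, div_self hp0.ne', Real.rpow_one] at h1
  set u : ℝ := (b - a) ^ (1 / p) with hudef
  have hcu : 3 ≤ c * u := by
    have h1 : 3 / c ≤ u := hCc.trans hu
    rw [div_le_iff₀ hc0] at h1
    linarith
  have hlow := hl p T a b hp hTT₂ ha hab1 hb (by linarith)
  set n0 : ℝ := nrm p (a - Real.log T) (b + Real.log T) z with hn0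
  have hn1 : 1 ≤ n0 := by linarith
  have huD : u ≤ Real.exp D * n0 := by
    rw [hD, Real.exp_log (by positivity), div_mul_eq_mul_div, le_div_iff₀ hc0]
    linarith
  have hDT : D ≤ Real.log T := Real.log_le_log (by positivity) hTc
  have h1 := hm p T a b lam D n0 hp hTT₁ ha hab1 hb hlam hlam' hn1 le_rfl huD hD0 hDT
  have hle : max lam (Real.log T - lam) + C₀ + D ≤ max lam (Real.log T - lam) + C := by
    have := le_max_left (C₀ + D) (3 / c)
    linarith
  have hpos : 0 ≤ max lam (Real.log T - lam) + C₀ + D := by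
    have := le_max_left lam (Real.log T - lam)
    linarith
  refine ⟨hn1, ?_, h1.1.trans ?_, h1.2.trans ?_⟩
  · have h2 : u ≤ 2 / c * n0 := by
      rw [div_mul_eq_mul_div, le_div_iff₀ hc0]
      linarith
    refine h2.trans ?_
    apply mul_le_mul_of_nonneg_right _ (by linarith)
    refine le_trans ?_ hCc
    exact div_le_div_of_nonneg_right (by norm_num) hc0.le
  · exact mul_le_mul_of_nonneg_right hle (by linarith)
  · apply mul_le_mul_of_nonneg_right _ (by linarith)
    exact pow_le_pow_left₀ hpos hle 2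

end Pool.Agent.Q85.Mom
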