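import Mathlib
import Pool.Agent.Q85.Mom.Blk
import Pool.Agent.W184.ZetaB

set_option autoImplicit false

/-!
# The moments on the lines next to the critical line
-/

open Complex Set Filter Topology MeasureTheory

namespace Pool.Agent.Q85.Mom

/-- zeta on the line `Re s = 1/2 + x` -/
noncomputable def zx (x t : ℝ) : ℂ := riemannZeta (1 / 2 + x + t * I)

lemma zx_zero : zx 0 = z := by
  funext t
  unfold zx z
  rw [Complex.ofReal_zero, add_zero]

lemma ne_one' {x t : ℝ} (ht : t ≠ 0) : (1 / 2 + x + t * I : ℂ) ≠ 1 := by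
  intro h
  have := congrArg Complex.im h
  simp at this
  exact ht this

lemma ne_one'' {x t : ℝ} (hx : x ≠ 1 / 2) : (1 / 2 + x + t * I : ℂ) ≠ 1 := by
  intro h
  have := congrArg Complex.re h
  simp at this
  apply hx
  linarith

lemma zx_cont {x : ℝ} (hx : x ≠ 1 / 2) : Continuous (zx x) := by
  rw [continuous_iff_continuousAt]
  intro t
  exact ContinuousAt.comp (f := fun t : ℝ => (1 / 2 + x + t * I : ℂ)) (g := riemannZeta)
    (differentiableAt_riemannZeta (ne_one'' hx)).continuousAt (by fun_prop)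

lemma kkEE {x y t : ℝ} (h : (1 / 2 + x + ((t + y : ℝ) : ℂ) * I : ℂ) ≠ 1) :
    kk t * EE (1 / 2 + t * I + (x + y * I)) = (1 + (x + y * I) * kk t) * zx x (t + y) := by
  have e1 : (1 / 2 + t * I + (x + y * I) : ℂ) = 1 / 2 + x + ((t + y : ℝ) : ℂ) * I := by
    push_cast; ring
  rw [e1, EE_of_ne h]
  unfold zx
  rw [← mul_assoc]
  congr 1
  have h9 := kk_one t
  push_cast
  calc kk t * (1 / 2 + x + (t + y) * I - 1) = (kk t * (t * I - 1 / 2)) + (x + y * I) * kk t := by ring
    _ = _ := by rw [h9]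

lemma norm_xy (x y : ℝ) : ‖(x + y * I : ℂ)‖ ≤ |x| + |y| := by
  refine (Complex.norm_le_abs_re_add_abs_im _).trans ?_
  simp

lemma kkEE_le {x y t : ℝ} (h : (1 / 2 + x + ((t + y : ℝ) : ℂ) * I : ℂ) ≠ 1) (ht : 0 < t) :
    ‖kk t * EE (1 / 2 + t * I + (x + y * I))‖ ≤ (1 + (|x| + |y|) / t) * ‖zx x (t + y)‖ := by
  rw [kkEE h, norm_mul]
  apply mul_le_mul_of_nonneg_right _ (norm_nonneg _)
  refine (norm_add_le _ _).trans ?_
  rw [norm_one, norm_mul]
  have := mul_le_mul (norm_xy x y) (kk_le ht) (norm_nonneg _) (by positivity)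
  rw [mul_one_div] at this
  linarith

lemma kkEE_ge {x t : ℝ} (hx : |x| ≤ 1) (ht : 2 ≤ t) :
    ‖zx x t‖ ≤ ‖((1 + 2 / t : ℝ) : ℂ) * (kk t * EE (1 / 2 + t * I + (x + ((0 : ℝ) : ℂ) * I)))‖ := by
  have ht0 : 0 < t := by linarith
  have h := kkEE (x := x) (y := 0) (t := t) (by
    rw [add_zero]
    exact ne_one' ht0.ne')
  rw [h, norm_mul, Complex.norm_real, Real.norm_eq_abs, abs_of_pos (by positivity), norm_mul,
    add_zero, ← mul_assoc]
  have h1 : 1 - 1 / t ≤ ‖(1 + (x + ((0 : ℝ) : ℂ) * I) * kk t : ℂ)‖ := by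
    have h2 := norm_sub_norm_le (1 : ℂ) (-((x + ((0 : ℝ) : ℂ) * I) * kk t))
    rw [norm_one, norm_neg, sub_neg_eq_add, norm_mul] at h2
    have h3 : ‖(x + ((0 : ℝ) : ℂ) * I : ℂ)‖ ≤ 1 := by
      refine (norm_xy x 0).trans ?_
      rw [abs_zero, add_zero]
      exact hx
    have h4 := mul_le_mul h3 (kk_le ht0) (norm_nonneg _) (by norm_num)
    linarith
  have h5 : 1 ≤ (1 + 2 / t) * (1 - 1 / t) := by
    have e : (1 + 2 / t) * (1 - 1 / t) = 1 + (t - 2) / t ^ 2 := by
      field_simp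
      ring
    rw [e]
    have : 0 ≤ (t - 2) / t ^ 2 := div_nonneg (by linarith) (by positivity)
    linarith
  have h6 : 1 ≤ (1 + 2 / t) * ‖(1 + (x + ((0 : ℝ) : ℂ) * I) * kk t : ℂ)‖ :=
    h5.trans (mul_le_mul_of_nonneg_left h1 (by positivity))
  nlinarith [norm_nonneg (zx x t)]

/-- the moments on the lines near the critical line are bounded by the moment on that line -/
theorem line : ∃ C T₀ : ℝ, 1 ≤ C ∧ 3 ≤ T₀ ∧ ∀ (p T a b lam x : ℝ), 1 ≤ p → T₀ ≤ T →
    T ≤ a → a + C ^ p ≤ b → b ≤ 8 * T → 0 ≤ lam → lam ≤ Real.log T → |x| ≤ 1 →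
    nrm p a b (zx x) ≤ (1 + 4 * Real.log T / T) *
      Real.exp (|x| * (max lam (Real.log T - lam) + C) - lam * x) *
      nrm p (a - Real.log T) (b + Real.log T) z := by
  obtain ⟨C₀, T₁, hC₀, hT₁, hs⟩ := strip
  obtain ⟨c, T₂, hc0, hc1, hT₂, hl⟩ := low
  set D : ℝ := Real.log (2 / c) with hD
  have hD0 : 0 ≤ D := by
    apply Real.log_nonneg
    rw [le_div_iff₀ hc0]
    linarith
  refine ⟨max (C₀ + D) (3 / c), max T₁ T₂, ?_, ?_, ?_⟩
  · exact (by linarith : 1 ≤ C₀ + D).trans (le_max_left _ _)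
  · exact hT₁.trans (le_max_left _ _)
  intro p T a b lam x hp hT ha hab hb hlam hlam' hx
  set C : ℝ := max (C₀ + D) (3 / c) with hC
  have hCc : 3 / c ≤ C := le_max_right _ _
  have hTT₁ : T₁ ≤ T := (le_max_left _ _).trans hT
  have hTT₂ : T₂ ≤ T := (le_max_right _ _).trans hT
  have hT3 : 3 ≤ T := hT₁.trans hTT₁
  have hT0 : 0 < T := by linarith
  have hp0 : 0 < p := by linarith
  have h3c : 3 ≤ 3 / c := by
    rw [le_div_iff₀ hc0]
    linarith
  have hC3 : 3 ≤ C := h3c.trans hCc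
  have hCp : 1 ≤ C ^ p := Real.one_le_rpow (by linarith) hp0.le
  have hab1 : a + 1 ≤ b := by linarith
  have hab' : a ≤ b := by linarith
  have hba : C ^ p ≤ b - a := by linarith
  have hu : C ≤ (b - a) ^ (1 / p) := by
    have h1 := Real.rpow_le_rpow (by positivity) hba (by positivity : 0 ≤ 1 / p)
    rwa [← Real.rpow_mul (by linarith), mul_one_div, div_self hp0.ne', Real.rpow_one] at h1
  set u : ℝ := (b - a) ^ (1 / p) with hudef
  have hcu : 3 ≤ c * u := by
    have h1 : 3 / c ≤ u := hCc.trans hu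
    rw [div_le_iff₀ hc0] at h1
    linarith
  have hlow := hl p T a b hp hTT₂ ha hab1 hb (by linarith)
  set n0 : ℝ := nrm p (a - Real.log T) (b + Real.log T) z with hn0
  have hn1 : 1 ≤ n0 := by linarith
  have huD : u ≤ Real.exp D * n0 := by
    rw [hD, Real.exp_log (by positivity), div_mul_eq_mul_div, le_div_iff₀ hc0]
    linarith
  set ℓ : ℝ := Real.log T with hℓ
  have hℓ1 : 1 ≤ ℓ := by
    have h1 : Real.log (Real.exp 1) ≤ Real.log T := by
      apply Real.log_le_log (Real.exp_pos _)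
      have := Real.exp_one_lt_d9
      linarith
    rwa [Real.log_exp] at h1
  -- duality
  have hGc : Continuous fun t : ℝ => kk t * EE (1 / 2 + t * I + (x + ((0 : ℝ) : ℂ) * I)) := KEc _
  obtain ⟨w, w1, w2, w3, w4⟩ := dual hp hab' hGc
  have hw : Adm p a b w := ⟨w1, w2, w4⟩
  have h1 := hs p T a b lam D n0 w hp hTT₁ ha hab1 hb hlam hlam' hw hn1 le_rfl huD hD0 x 0 hx
    (by rw [abs_zero]; norm_num)
  unfold gg at h1
  rw [norm_mul, exp_norm] at h1
  have h2 : JJ a b w (x + ((0 : ℝ) : ℂ) * I) = ((nrm p a b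
      (fun t : ℝ => kk t * EE (1 / 2 + t * I + (x + ((0 : ℝ) : ℂ) * I))) : ℝ) : ℂ) := by
    rw [← w3]
    unfold JJ
    simp only [mul_assoc]
  rw [h2, Complex.norm_real, Real.norm_eq_abs, abs_of_nonneg (nrm_nonneg hab' _)] at h1
  set nG := nrm p a b (fun t : ℝ => kk t * EE (1 / 2 + t * I + (x + ((0 : ℝ) : ℂ) * I))) with hnG
  have hnG0 : 0 ≤ nG := nrm_nonneg hab' _
  have hle : max lam (ℓ - lam) + C₀ + D ≤ max lam (ℓ - lam) + C := by
    have := le_max_left (C₀ + D) (3 / c)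
    linarith
  have h3 : nG ≤ (1 + ℓ / T) * n0 * Real.exp (|x| * (max lam (ℓ - lam) + C) - lam * x) := by
    have h4 : Real.exp (lam * x) ≤ Real.exp (lam * x + x ^ 2 - 0 ^ 2) := by
      rw [Real.exp_le_exp]
      nlinarith [sq_nonneg x]
    have h5 : Real.exp (lam * x) * nG ≤ (1 + ℓ / T) * n0 *
        Real.exp (|x| * (max lam (ℓ - lam) + C)) := by
      refine (mul_le_mul_of_nonneg_right h4 hnG0).trans (h1.trans ?_)
      apply mul_le_mul_of_nonneg_left _ (by positivity)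
      rw [Real.exp_le_exp]
      exact mul_le_mul_of_nonneg_left hle (abs_nonneg _)
    rw [Real.exp_sub, ← mul_div_assoc, le_div_iff₀ (Real.exp_pos _)]
    linarith
  have h4 : nrm p a b (zx x) ≤ (1 + 2 / T) * nG := by
    have h5 : nrm p a b (zx x) ≤ nrm p a b (fun t : ℝ => ((1 + 2 / T : ℝ) : ℂ) *
        (kk t * EE (1 / 2 + t * I + (x + ((0 : ℝ) : ℂ) * I)))) := by
      refine nrm_le hp0 hab' (continuous_const.mul hGc) fun t ht => ?_
      refine (kkEE_ge hx (by linarith [ht.1])).trans ?_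
      generalize kk t * EE (1 / 2 + t * I + (x + ((0 : ℝ) : ℂ) * I)) = g
      rw [norm_mul, norm_mul]
      apply mul_le_mul_of_nonneg_right _ (norm_nonneg _)
      rw [Complex.norm_real, Complex.norm_real, Real.norm_eq_abs, Real.norm_eq_abs]
      have ht0 : 0 < t := by linarith [ht.1]
      rw [abs_of_pos (by positivity), abs_of_pos (by positivity)]
      have : 2 / t ≤ 2 / T := div_le_div_of_nonneg_left (by norm_num) hT0 (by linarith [ht.1])
      linarith
    refine h5.trans ?_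
    refine nrm_mono hp0 hab' (continuous_const.mul hGc) hGc (by positivity) fun t _ => ?_
    simp only [Pi.mul_apply]
    rw [norm_mul, Complex.norm_real, Real.norm_eq_abs, abs_of_pos (by positivity)]
  refine h4.trans ((mul_le_mul_of_nonneg_left h3 (by positivity)).trans ?_)
  have h5 : (1 + 2 / T) * (1 + ℓ / T) ≤ 1 + 4 * ℓ / T := by
    have h6 : 1 / T ≤ 1 / 3 := one_div_le_one_div_of_le (by norm_num) hT3
    have h7 : 0 < 1 / T := by positivity
    have e1 : (1 + 2 / T) * (1 + ℓ / T) = 1 + (2 + ℓ + 2 * ℓ * (1 / T)) * (1 / T) := by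
      field_simp
      ring
    have e2 : 1 + 4 * ℓ / T = 1 + (4 * ℓ) * (1 / T) := by ring
    rw [e1, e2]
    have h8 : 2 + ℓ + 2 * ℓ * (1 / T) ≤ 4 * ℓ := by nlinarith
    have := mul_le_mul_of_nonneg_right h8 h7.le
    linarith
  calc (1 + 2 / T) * ((1 + ℓ / T) * n0 * Real.exp (|x| * (max lam (ℓ - lam) + C) - lam * x))
      = ((1 + 2 / T) * (1 + ℓ / T)) * (Real.exp (|x| * (max lam (ℓ - lam) + C) - lam * x) * n0) := by
        ring
    _ ≤ (1 + 4 * ℓ / T) * (Real.exp (|x| * (max lam (ℓ - lam) + C) - lam * x) * n0) :=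
        mul_le_mul_of_nonneg_right h5 (by positivity)
    _ = _ := by ring

/-- maximum principle on a box -/
lemma boxmax {G : ℂ → ℂ} (hG : Differentiable ℂ G) {x V A : ℝ} (hx : 0 < x) (hV : 0 < V)
    (h1 : ∀ u y : ℝ, |u| = x → |y| ≤ V → ‖G (u + y * I)‖ ≤ A)
    (h2 : ∀ u y : ℝ, |u| ≤ x → |y| = V → ‖G (u + y * I)‖ ≤ A) : ‖G 0‖ ≤ A := by
  have hbound : ∀ z ∈ frontier (Ioo (-x) x ×ℂ Ioo (-V) V), ‖G z‖ ≤ A := by
    intro z hz
    rw [Complex.frontier_reProdIm, closure_Ioo (by linarith : -x ≠ x), frontier_Ioo (by linarith),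
      frontier_Ioo (by linarith), closure_Ioo (by linarith : -V ≠ V)] at hz
    have ez : z = z.re + z.im * I := (Complex.re_add_im z).symm
    rw [ez]
    rcases hz with hz | hz
    · rw [Complex.mem_reProdIm] at hz
      obtain ⟨⟨hz1, hz2⟩, hz3⟩ := hz
      apply h2 _ _ (abs_le.2 ⟨hz1, hz2⟩)
      rcases hz3 with h | h
      · rw [h, abs_neg, abs_of_pos hV]
      · rw [mem_singleton_iff] at h
        rw [h, abs_of_pos hV]
    · rw [Complex.mem_reProdIm] at hz
      obtain ⟨hz1, hz2⟩ := hz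
      refine h1 _ _ ?_ (abs_le.2 ⟨hz2.1, hz2.2⟩)
      rcases hz1 with h | h
      · rw [h, abs_neg, abs_of_pos hx]
      · rw [mem_singleton_iff] at h
        rw [h, abs_of_pos hx]
  have hbdd : Bornology.IsBounded (Ioo (-x) x ×ℂ Ioo (-V) V) :=
    (Metric.isBounded_Ioo (-x) x).reProdIm (Metric.isBounded_Ioo (-V) V)
  have hmem : (0 : ℂ) ∈ closure (Ioo (-x) x ×ℂ Ioo (-V) V) := by
    rw [Complex.closure_reProdIm, closure_Ioo (by linarith : -x ≠ x),
      closure_Ioo (by linarith : -V ≠ V), Complex.mem_reProdIm]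
    simp only [Complex.zero_re, Complex.zero_im]
    exact ⟨⟨by linarith, hx.le⟩, ⟨by linarith, hV.le⟩⟩
  exact Complex.norm_le_of_forall_mem_frontier_norm_le hbdd hG.diffContOnCl hbound hmem

/-- the moment on the critical line is bounded by the moments on the lines to the right -/
theorem line0 : ∃ C T₀ : ℝ, 1 ≤ C ∧ 3 ≤ T₀ ∧ ∀ (p T a b x : ℝ), 1 ≤ p → T₀ ≤ T →
    T / 2 ≤ a → a + 1 ≤ b → b ≤ 8 * T + Real.log T → 0 ≤ x → x ≤ 1 / 8 → 1 ≤ nrm p a b z →
    nrm p a b z ≤ (1 + C * Real.log T / T) * Real.exp (x * (Real.log T / 2 + C)) *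
      nrm p (a - Real.log T) (b + Real.log T) (zx x) := by
  obtain ⟨C₁, B, hC₁, hgr⟩ := Pool.Agent.H448R2.GC.zeta_one_growth 1
  have hB0 : (0 : ℝ) ≤ B := Nat.cast_nonneg B
  obtain ⟨T₁, hT₁⟩ : ∃ T₁ : ℝ, ∀ T : ℝ, T₁ ≤ T → (B : ℝ) + 4 ≤ Real.log T := by
    refine ⟨Real.exp (B + 4), fun T hT => ?_⟩
    rw [← Real.log_exp ((B : ℝ) + 4)]
    exact Real.log_le_log (Real.exp_pos _) hT
  obtain ⟨T₂, hT₂⟩ : ∃ T₂ : ℝ, ∀ T : ℝ, T₂ ≤ T → 4 * Real.log T ≤ T := by
    have h1 := (Real.isLittleO_log_id_atTop).bound (show (0 : ℝ) < 1 / 4 by norm_num)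
    have h2 := h1.and (Real.tendsto_log_atTop.eventually_ge_atTop 1) |>.and (eventually_gt_atTop 0)
    obtain ⟨T₂, hT₂⟩ := eventually_atTop.1 h2
    refine ⟨T₂, fun T hT => ?_⟩
    obtain ⟨⟨h3, h4⟩, h5⟩ := hT₂ T hT
    rw [Real.norm_eq_abs, abs_of_nonneg (by linarith), id, Real.norm_eq_abs, abs_of_pos h5] at h3
    linarith
  refine ⟨1000, max (max 1000 T₁) (max T₂ (20 * C₁ * Real.exp 2 * 10 ^ B)), by norm_num, ?_, ?_⟩
  · exact (by norm_num : (3 : ℝ) ≤ 1000).trans ((le_max_left _ _).trans (le_max_left _ _))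
  intro p T a b x hp hT ha hab hb hx0 hx hn1
  have hT1000 : 1000 ≤ T := ((le_max_left _ _).trans (le_max_left _ _)).trans hT
  have hTT₁ : T₁ ≤ T := ((le_max_right _ _).trans (le_max_left _ _)).trans hT
  have hTT₂ := hT₂ T (((le_max_left _ _).trans (le_max_right _ _)).trans hT)
  have hTC : 20 * C₁ * Real.exp 2 * 10 ^ B ≤ T :=
    ((le_max_right _ _).trans (le_max_right _ _)).trans hT
  set ℓ : ℝ := Real.log T with hℓ
  have hℓB : (B : ℝ) + 4 ≤ ℓ := hT₁ T hTT₁
  have hℓ0 : 0 < ℓ := by linarith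
  have hT0 : 0 < T := by linarith
  have hp0 : 0 < p := by linarith
  have hab' : a ≤ b := by linarith
  have hnx0 : 0 ≤ nrm p (a - ℓ) (b + ℓ) (zx x) := nrm_nonneg (by linarith) _
  rcases hx0.eq_or_lt with h0 | hxp
  · rw [← h0, zero_mul, Real.exp_zero, mul_one, zx_zero]
    have h1 := nrm_interval (p := p) hp0 (by linarith : a - ℓ ≤ a) hab' (by linarith : b ≤ b + ℓ)
      z_cont
    have h2 : 0 ≤ nrm p (a - ℓ) (b + ℓ) z := nrm_nonneg (by linarith) _
    have h3 : 0 ≤ 1000 * ℓ / T := by positivity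
    nlinarith
  set V : ℝ := √(((B : ℝ) + 4) * ℓ) with hV
  have hV2 : V ^ 2 = ((B : ℝ) + 4) * ℓ := Real.sq_sqrt (by positivity)
  have hV0 : 0 < V := Real.sqrt_pos.2 (by positivity)
  have hVℓ : V ≤ ℓ := by
    rw [hV]
    apply Real.sqrt_le_iff.2
    exact ⟨hℓ0.le, by nlinarith⟩
  set L9 : ℝ := Real.log (9 * T) with hL9
  have hL9' : L9 = Real.log 9 + ℓ := by
    rw [hL9, Real.log_mul (by norm_num) hT0.ne']
  have hlog9 : Real.log 9 ≤ 3 := by
    have h1 : Real.log 9 ≤ Real.log (Real.exp 3) := by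
      apply Real.log_le_log (by norm_num)
      have h2 := Real.add_one_le_exp (1 : ℝ)
      have h3 : Real.exp 3 = Real.exp 1 ^ 3 := by rw [← Real.exp_nat_mul]; norm_num
      rw [h3]
      have h4 := Real.exp_one_gt_d9
      calc (9 : ℝ) ≤ 2.7 ^ 3 := by norm_num
        _ ≤ Real.exp 1 ^ 3 := pow_le_pow_left₀ (by norm_num) (by linarith) 3
    rwa [Real.log_exp] at h1
  have hlog90 : 0 ≤ Real.log 9 := Real.log_nonneg (by norm_num)
  set nx := nrm p (a - ℓ) (b + ℓ) (zx x) with hnx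
  obtain ⟨w, w1, w2, w3, w4⟩ := dual hp hab' z_cont
  have hw : Adm p a b w := ⟨w1, w2, w4⟩
  set A : ℝ := Real.exp (L9 / 2 * x + x ^ 2) * ((1 + 64 / T) * ((1 + 4 * ℓ / T) * nx)) with hA
  have hzxc : Continuous (zx x) := zx_cont (by linarith)
  have hzxc' : Continuous (zx (-x)) := zx_cont (by linarith)
  -- the two sides
  have hcoef : ∀ y t : ℝ, |y| ≤ V → t ∈ Icc a b → (|x| + |y|) / t ≤ 4 * ℓ / T := by
    intro y t hy ht
    have ht0 : 0 < t := by linarith [ht.1]
    rw [div_le_div_iff₀ ht0 hT0, abs_of_pos hxp]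
    have h1 : x + |y| ≤ 2 * ℓ := by linarith
    have h2 : T ≤ 2 * t := by linarith [ht.1]
    calc (x + |y|) * T ≤ (2 * ℓ) * (2 * t) := mul_le_mul h1 h2 hT0.le (by linarith)
      _ = _ := by ring
  have hright : ∀ y : ℝ, |y| ≤ V →
      nrm p a b (fun t => kk t * EE (1 / 2 + t * I + (x + y * I))) ≤ (1 + 4 * ℓ / T) * nx := by
    intro y hy
    have hyV := abs_le.1 hy
    have h1 : nrm p a b (fun t => kk t * EE (1 / 2 + t * I + (x + y * I))) ≤
        (1 + 4 * ℓ / T) * nrm p a b (fun t => zx x (t + y)) := by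
      refine nrm_mono hp0 hab' (KEc _) (show Continuous fun t => zx x (t + y) from hzxc.comp (by fun_prop))
        (by positivity) fun t ht => ?_
      have ht0 : 0 < t := by linarith [ht.1]
      refine (kkEE_le (ne_one'' (by linarith)) ht0).trans ?_
      apply mul_le_mul_of_nonneg_right _ (norm_nonneg _)
      linarith [hcoef y t hy ht]
    refine h1.trans (mul_le_mul_of_nonneg_left ?_ (by positivity))
    rw [nrm_shift]
    exact nrm_interval hp0 (by linarith) (by linarith) (by linarith) hzxc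
  have hleft : ∀ y : ℝ, |y| ≤ V →
      nrm p a b (fun t => kk t * EE (1 / 2 + t * I + (((-x : ℝ) : ℂ) + y * I))) ≤
        Real.exp (L9 * x) * ((1 + 64 / T) * ((1 + 4 * ℓ / T) * nx)) := by
    intro y hy
    have hyV := abs_le.1 hy
    have h1 : nrm p a b (fun t => kk t * EE (1 / 2 + t * I + (((-x : ℝ) : ℂ) + y * I))) ≤
        (Real.exp (L9 * x) * ((1 + 64 / T) * (1 + 4 * ℓ / T))) *
          nrm p a b (fun t => zx x (t + y)) := by
      refine nrm_mono hp0 hab' (KEc _) (show Continuous fun t => zx x (t + y) from hzxc.comp (by fun_prop))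
        (by positivity) fun t ht => ?_
      have ht0 : 0 < t := by linarith [ht.1]
      refine (kkEE_le (ne_one'' (by linarith)) ht0).trans ?_
      have h2 := W184.fe_pos (Δ := x) (τ := t + y) hxp.le hx (by linarith [ht.1])
      have e1 : zx (-x) (t + y) = riemannZeta (((1 / 2 - x : ℝ) : ℂ) + ((t + y : ℝ) : ℂ) * I) := by
        unfold zx
        congr 1
        push_cast
        ring
      have e2 : zx x (t + y) = riemannZeta (((1 / 2 + x : ℝ) : ℂ) + ((t + y : ℝ) : ℂ) * I) := by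
        unfold zx
        congr 1
        push_cast
        ring
      rw [← e1, ← e2] at h2
      have h3 : (t + y) ^ x ≤ Real.exp (L9 * x) := by
        rw [hL9, Real.exp_mul, Real.exp_log (by positivity)]
        apply Real.rpow_le_rpow (by linarith [ht.1]) (by linarith [ht.2]) hxp.le
      have h4 : 1 + 16 / (t + y) ≤ 1 + 64 / T := by
        have : 16 / (t + y) ≤ 64 / T := by
          rw [div_le_div_iff₀ (by linarith [ht.1]) hT0]
          linarith [ht.1]
        linarith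
      have h5 : 1 + (|-x| + |y|) / t ≤ 1 + 4 * ℓ / T := by
        rw [abs_neg]
        linarith [hcoef y t hy ht]
      have hty : 0 < t + y := by linarith [ht.1]
      calc (1 + (|-x| + |y|) / t) * ‖zx (-x) (t + y)‖
          ≤ (1 + 4 * ℓ / T) * ((Real.exp (L9 * x) * (1 + 64 / T)) * ‖zx x (t + y)‖) := by
            apply mul_le_mul h5 (h2.trans _) (norm_nonneg _) (by positivity)
            apply mul_le_mul_of_nonneg_right _ (norm_nonneg _)
            exact mul_le_mul h3 h4 (by positivity) (Real.exp_pos _).le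
        _ = _ := by ring
    refine h1.trans ?_
    rw [mul_assoc, mul_assoc]
    refine mul_le_mul_of_nonneg_left ?_ (Real.exp_pos _).le
    apply mul_le_mul_of_nonneg_left _ (by positivity)
    apply mul_le_mul_of_nonneg_left _ (by positivity)
    rw [nrm_shift]
    exact nrm_interval hp0 (by linarith) (by linarith) (by linarith) hzxc
  have hside : ∀ u y : ℝ, |u| = x → |y| ≤ V → ‖gg (L9 / 2) a b w (u + y * I)‖ ≤ A := by
    intro u y hu hy
    refine (gg_le hw (L9 / 2) u y).trans ?_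
    rcases (abs_eq hxp.le).1 hu with h | h
    · subst h
      rw [hA]
      have h1 : Real.exp (L9 / 2 * u + u ^ 2 - y ^ 2) ≤ Real.exp (L9 / 2 * u + u ^ 2) := by
        rw [Real.exp_le_exp]
        nlinarith [sq_nonneg y]
      apply mul_le_mul h1 _ (nrm_nonneg hab' _) (Real.exp_pos _).le
      refine (hright y hy).trans ?_
      have h2 : 0 ≤ (1 + 4 * ℓ / T) * nx := by positivity
      have h3 : 0 ≤ 64 / T := by positivity
      nlinarith
    · subst h
      rw [hA]
      have h1 : Real.exp (L9 / 2 * (-x) + (-x) ^ 2 - y ^ 2) ≤ Real.exp (-(L9 / 2 * x) + x ^ 2) := by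
        rw [Real.exp_le_exp]
        nlinarith [sq_nonneg y]
      refine (mul_le_mul h1 (hleft y hy) (nrm_nonneg hab' _) (Real.exp_pos _).le).trans
        (le_of_eq ?_)
      rw [← mul_assoc, ← Real.exp_add]
      congr 2
      ring
  have hub : (b - a) ^ (1 / p) ≤ 9 * T := by
    have hba : 1 ≤ b - a := by linarith
    have h1 : (b - a) ^ (1 / p) ≤ (b - a) ^ (1 : ℝ) := by
      apply Real.rpow_le_rpow_of_exponent_le hba
      rw [div_le_one hp0]
      exact hp
    rw [Real.rpow_one] at h1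
    linarith
  have hhor : ∀ u y : ℝ, |u| ≤ x → |y| = V → ‖gg (L9 / 2) a b w (u + y * I)‖ ≤ 1 / 2 := by
    intro u y hu hy
    refine (gg_le hw (L9 / 2) u y).trans ?_
    have huu := abs_le.1 hu
    have h2 : nrm p a b (fun t => kk t * EE (1 / 2 + t * I + (u + y * I))) ≤
        (C₁ * (10 * T) ^ B) * (b - a) ^ (1 / p) := by
      refine nrm_le_const hp0 hab' (KEc _) (by positivity) ?_
      intro t ht
      have ht0 : 0 < t := by linarith [ht.1]
      rw [norm_mul]
      have h3 := hgr (1 / 2 + t * I + (u + y * I)) (by simp; linarith) (by simp; linarith)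
      have e2 : (1 / 2 + t * I + (u + y * I) : ℂ).im = t + y := by simp
      rw [e2] at h3
      have h5 : |t + y| ≤ t + |y| := by
        refine (abs_add_le _ _).trans ?_
        rw [abs_of_pos ht0]
      have h6 : (1 + |t + y|) ^ B ≤ (10 * T) ^ B := by
        apply pow_le_pow_left₀ (by positivity)
        linarith [ht.2]
      have h8 : ‖kk t‖ ≤ 1 := by
        refine (kk_le ht0).trans ?_
        rw [div_le_one ht0]
        linarith [ht.1]
      calc ‖kk t‖ * ‖EE (1 / 2 + t * I + (u + y * I))‖ ≤ 1 * (C₁ * (10 * T) ^ B) := by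
            apply mul_le_mul h8 _ (norm_nonneg _) (by norm_num)
            refine h3.trans ?_
            exact mul_le_mul_of_nonneg_left h6 hC₁.le
        _ = _ := one_mul _
    have h3 : Real.exp (L9 / 2 * u + u ^ 2 - y ^ 2) ≤ Real.exp (ℓ + 2 - V ^ 2) := by
      rw [Real.exp_le_exp]
      have h4 : y ^ 2 = V ^ 2 := by rw [← hy, sq_abs]
      rw [h4]
      have h5 : L9 / 2 * u ≤ L9 / 2 * (1 / 8) :=
        mul_le_mul_of_nonneg_left (by linarith) (by linarith)
      have h6 : u ^ 2 ≤ 1 := by nlinarith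
      linarith
    have h4 : Real.exp (ℓ + 2 - V ^ 2) = Real.exp 2 * T / T ^ (B + 4) := by
      rw [hV2]
      have e : ℓ + 2 - ((B : ℝ) + 4) * ℓ = 2 + ℓ - ((B + 4 : ℕ) : ℝ) * ℓ := by push_cast; ring
      rw [e, Real.exp_sub, Real.exp_add, Real.exp_nat_mul, hℓ, Real.exp_log hT0]
    calc _ ≤ Real.exp (ℓ + 2 - V ^ 2) * ((C₁ * (10 * T) ^ B) * (9 * T)) := by
          apply mul_le_mul h3 (h2.trans _) (nrm_nonneg hab' _) (Real.exp_pos _).le
          exact mul_le_mul_of_nonneg_left hub (by positivity)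
      _ = (9 * C₁ * Real.exp 2 * 10 ^ B) / T ^ 2 := by
          rw [h4, mul_pow, pow_add]
          field_simp
      _ ≤ 1 / 2 := by
          rw [div_le_div_iff₀ (by positivity) (by norm_num)]
          have h5 : 0 < C₁ * Real.exp 2 * 10 ^ B := by positivity
          nlinarith
  have h1 : ‖gg (L9 / 2) a b w 0‖ ≤ max A (1 / 2) :=
    boxmax (gg_diff hw hab' _) hxp hV0 (fun u y hu hy => (hside u y hu hy).trans (le_max_left _ _))
      (fun u y hu hy => (hhor u y hu hy).trans (le_max_right _ _))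
  have h2 : gg (L9 / 2) a b w 0 = ((nrm p a b z : ℝ) : ℂ) := by
    unfold gg
    rw [JJ0, w3]
    simp
  rw [h2, Complex.norm_real, Real.norm_eq_abs, abs_of_nonneg (by linarith)] at h1
  have h3 : nrm p a b z ≤ A := by
    rcases le_max_iff.1 h1 with h | h
    · exact h
    · linarith
  refine h3.trans ?_
  rw [hA]
  have h4 : Real.exp (L9 / 2 * x + x ^ 2) ≤ Real.exp (x * (ℓ / 2 + 1000)) := by
    rw [Real.exp_le_exp, hL9']
    nlinarith
  have h5 : (1 + 64 / T) * (1 + 4 * ℓ / T) ≤ 1 + 1000 * ℓ / T := by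
    have h6 : 1 / T ≤ 1 / 1000 := one_div_le_one_div_of_le (by norm_num) hT1000
    have h7 : 0 < 1 / T := by positivity
    have e1 : (1 + 64 / T) * (1 + 4 * ℓ / T) = 1 + (64 + 4 * ℓ + 256 * ℓ * (1 / T)) * (1 / T) := by
      field_simp
      ring
    have e2 : 1 + 1000 * ℓ / T = 1 + (1000 * ℓ) * (1 / T) := by ring
    rw [e1, e2]
    have h8 : 64 + 4 * ℓ + 256 * ℓ * (1 / T) ≤ 1000 * ℓ := by nlinarith
    have := mul_le_mul_of_nonneg_right h8 h7.le
    linarith
  calc Real.exp (L9 / 2 * x + x ^ 2) * ((1 + 64 / T) * ((1 + 4 * ℓ / T) * nx))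
      = Real.exp (L9 / 2 * x + x ^ 2) * (((1 + 64 / T) * (1 + 4 * ℓ / T)) * nx) := by ring
    _ ≤ Real.exp (x * (ℓ / 2 + 1000)) * ((1 + 1000 * ℓ / T) * nx) := by
        apply mul_le_mul h4 _ (by positivity) (Real.exp_pos _).le
        exact mul_le_mul_of_nonneg_right h5 hnx0
    _ = _ := by ring

end Pool.Agent.Q85.Mom
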