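import Mathlib
import Pool.Agent.Q85.Mom.Blk

set_option autoImplicit false

/-!
# The rotated zeta function on the critical line, local inequalities
-/

open Complex Set Filter Topology MeasureTheory

namespace Pool.Agent.Q85.Mom

/-- `e^{iλt} ζ(1/2+it)` -/
noncomputable def ff (lam t : ℝ) : ℂ := cexp ((lam * t : ℝ) * I) * z t

/-- its derivative -/
noncomputable def ff1 (lam t : ℝ) : ℂ := cexp ((lam * t : ℝ) * I) * (F1 lam t * I)

/-- its second derivative -/
noncomputable def ff2 (lam t : ℝ) : ℂ := -(cexp ((lam * t : ℝ) * I) * F2 lam t)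

lemma z_der (t : ℝ) : HasDerivAt z (z1 t * I) t := by
  have h1 := zeta_der (ne_one t)
  have h2 : HasDerivAt (fun t : ℝ => (1 / 2 + t * I : ℂ)) I t := by
    have h3 := ((Complex.ofRealCLM.hasDerivAt (x := t)).mul_const I).const_add (1 / 2 : ℂ)
    simpa using h3
  exact HasDerivAt.scomp_of_eq (h := fun t : ℝ => (1 / 2 + t * I : ℂ)) t h1 h2 rfl |>.congr_deriv (by
    rw [smul_eq_mul, mul_comm]; rfl)

lemma z1_der (t : ℝ) : HasDerivAt z1 (z2 t * I) t := by
  have h1 := zeta_der2 (ne_one t)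
  have h2 : HasDerivAt (fun t : ℝ => (1 / 2 + t * I : ℂ)) I t := by
    have h3 := ((Complex.ofRealCLM.hasDerivAt (x := t)).mul_const I).const_add (1 / 2 : ℂ)
    simpa using h3
  exact HasDerivAt.scomp_of_eq (h := fun t : ℝ => (1 / 2 + t * I : ℂ)) t h1 h2 rfl |>.congr_deriv (by
    rw [smul_eq_mul, mul_comm]; rfl)

lemma exp_der (lam t : ℝ) : HasDerivAt (fun t : ℝ => cexp ((lam * t : ℝ) * I))
    (cexp ((lam * t : ℝ) * I) * (lam * I)) t := by
  have h : HasDerivAt (fun t : ℝ => lam * t) lam t := by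
    simpa using (hasDerivAt_id t).const_mul lam
  exact (h.ofReal_comp.mul_const I).cexp

lemma ff_der (lam t : ℝ) : HasDerivAt (ff lam) (ff1 lam t) t := by
  refine ((exp_der lam t).mul (z_der t)).congr_deriv ?_
  unfold ff1 F1
  ring

lemma ff1_der (lam t : ℝ) : HasDerivAt (ff1 lam) (ff2 lam t) t := by
  have h : HasDerivAt (F1 lam) (z2 t * I + lam * (z1 t * I)) t :=
    (z1_der t).add ((z_der t).const_mul (lam : ℂ))
  refine ((exp_der lam t).mul (h.mul_const I)).congr_deriv ?_
  unfold ff2 F2 F1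
  linear_combination (cexp ((lam * t : ℝ) * I) * (z2 t + 2 * lam * z1 t + lam ^ 2 * z t)) * I_mul_I

lemma norm_ff (lam t : ℝ) : ‖ff lam t‖ = ‖z t‖ := by
  unfold ff
  rw [norm_mul, Complex.norm_exp_ofReal_mul_I, one_mul]

lemma norm_ff1 (lam t : ℝ) : ‖ff1 lam t‖ = ‖F1 lam t‖ := by
  unfold ff1
  rw [norm_mul, Complex.norm_exp_ofReal_mul_I, one_mul, norm_mul, norm_I, mul_one]

lemma norm_ff2 (lam t : ℝ) : ‖ff2 lam t‖ = ‖F2 lam t‖ := by
  unfold ff2
  rw [norm_neg, norm_mul, Complex.norm_exp_ofReal_mul_I, one_mul]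

lemma ff_cont (lam : ℝ) : Continuous (ff lam) :=
  continuous_iff_continuousAt.2 fun t => (ff_der lam t).continuousAt

lemma ff1_cont (lam : ℝ) : Continuous (ff1 lam) :=
  continuous_iff_continuousAt.2 fun t => (ff1_der lam t).continuousAt

lemma ff2_cont (lam : ℝ) : Continuous (ff2 lam) := by
  unfold ff2
  exact (Continuous.mul (by fun_prop) (F2_cont lam)).neg

lemma nrm_ff (p a b lam : ℝ) : nrm p a b (ff lam) = nrm p a b z := by
  unfold nrm
  simp only [norm_ff]

lemma nrm_ff1 (p a b lam : ℝ) : nrm p a b (ff1 lam) = nrm p a b (F1 lam) := by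
  unfold nrm
  simp only [norm_ff1]

lemma nrm_ff2 (p a b lam : ℝ) : nrm p a b (ff2 lam) = nrm p a b (F2 lam) := by
  unfold nrm
  simp only [norm_ff2]

/-! ## local inequalities for a differentiable function -/

section general

variable {f f' : ℝ → ℂ}

lemma ftc (hf : ∀ t, HasDerivAt f (f' t) t) (hc : Continuous f') (x y : ℝ) :
    ∫ t in x..y, f' t = f y - f x :=
  intervalIntegral.integral_eq_sub_of_hasDerivAt (fun t _ => hf t) (hc.intervalIntegrable _ _)

/-- Hölder -/
lemma diff_pow {p : ℝ} (hp : 1 ≤ p) (hf : ∀ t, HasDerivAt f (f' t) t) (hc : Continuous f')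
    {x y : ℝ} (hxy : x ≤ y) :
    ‖f y - f x‖ ^ p ≤ (y - x) ^ (p - 1) * ∫ t in x..y, ‖f' t‖ ^ p := by
  have hp0 : 0 < p := by linarith
  rcases hxy.eq_or_lt with h | h
  · rw [h, sub_self, norm_zero, Real.zero_rpow hp0.ne', intervalIntegral.integral_same, mul_zero]
  have hd : 0 < y - x := by linarith
  have h1 : ‖f y - f x‖ ≤ ∫ t in x..y, ‖f' t‖ := by
    rw [← ftc hf hc]
    exact intervalIntegral.norm_integral_le_integral_norm hxy
  have h2 := holder hp hxy (F := fun _ => (1 : ℂ)) (G := f') continuous_const hc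
  simp only [norm_one, Real.one_rpow, one_mul, intervalIntegral.integral_const, smul_eq_mul,
    mul_one] at h2
  have h3 : ‖f y - f x‖ ^ p ≤ ((y - x) ^ (1 - 1 / p) * nrm p x y f') ^ p :=
    Real.rpow_le_rpow (norm_nonneg _) (h1.trans h2) hp0.le
  rw [Real.mul_rpow (by positivity) (nrm_nonneg hxy _), nrm_pow hp0 hxy,
    ← Real.rpow_mul hd.le] at h3
  have e : (1 - 1 / p) * p = p - 1 := by field_simp
  rwa [e] at h3

/-- Poincaré's inequality, left end -/
lemma poin_left {p : ℝ} (hp : 1 ≤ p) (hf : ∀ t, HasDerivAt f (f' t) t) (hc : Continuous f')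
    {x y : ℝ} (hxy : x ≤ y) :
    ∫ t in x..y, ‖f t - f x‖ ^ p ≤ (y - x) ^ p / p * ∫ t in x..y, ‖f' t‖ ^ p := by
  have hp0 : 0 < p := by linarith
  have hfc : Continuous f := continuous_iff_continuousAt.2 fun t => (hf t).continuousAt
  set J : ℝ := ∫ t in x..y, ‖f' t‖ ^ p with hJ
  have h1 : ∫ t in x..y, ‖f t - f x‖ ^ p ≤ ∫ t in x..y, (t - x) ^ (p - 1) * J := by
    apply intervalIntegral.integral_mono_on hxy
    · exact (cont_pow hp0.le (hfc.sub continuous_const)).intervalIntegrable _ _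
    · apply Continuous.intervalIntegrable
      exact ((continuous_id.sub continuous_const).rpow_const fun _ => Or.inr (by linarith)).mul
        continuous_const
    · intro t ht
      refine (diff_pow hp hf hc ht.1).trans ?_
      apply mul_le_mul_of_nonneg_left _ (Real.rpow_nonneg (by linarith [ht.1]) _)
      apply intervalIntegral.integral_mono_interval le_rfl ht.1 ht.2
      · exact Filter.Eventually.of_forall fun t => by positivity
      · exact (cont_pow hp0.le hc).intervalIntegrable _ _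
  refine h1.trans (le_of_eq ?_)
  rw [intervalIntegral.integral_mul_const]
  congr 1
  rw [intervalIntegral.integral_comp_sub_right (fun t => t ^ (p - 1)), sub_self,
    integral_rpow (Or.inl (by linarith)), sub_add_cancel, Real.zero_rpow hp0.ne', sub_zero]

/-- Poincaré's inequality, right end -/
lemma poin_right {p : ℝ} (hp : 1 ≤ p) (hf : ∀ t, HasDerivAt f (f' t) t) (hc : Continuous f')
    {x y : ℝ} (hxy : x ≤ y) :
    ∫ t in x..y, ‖f t - f y‖ ^ p ≤ (y - x) ^ p / p * ∫ t in x..y, ‖f' t‖ ^ p := by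
  have h := poin_left (f := fun t => f (-t)) (f' := fun t => -f' (-t)) hp (fun t => by
    have h2 := HasDerivAt.scomp t (hf (-t)) (hasDerivAt_neg t)
    have h3 : (fun t => f (-t)) = f ∘ Neg.neg := rfl
    rw [h3]
    simpa using h2) (hc.comp continuous_neg).neg (x := -y) (y := -x) (by linarith)
  have e1 : ∫ t in -y..-x, ‖f (-t) - f (- -y)‖ ^ p = ∫ t in x..y, ‖f t - f y‖ ^ p := by
    rw [neg_neg, intervalIntegral.integral_comp_neg (fun t => ‖f t - f y‖ ^ p), neg_neg, neg_neg]
  have e2 : ∫ t in -y..-x, ‖-f' (-t)‖ ^ p = ∫ t in x..y, ‖f' t‖ ^ p := by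
    simp only [norm_neg]
    rw [intervalIntegral.integral_comp_neg (fun t => ‖f' t‖ ^ p), neg_neg, neg_neg]
  rw [e1, e2] at h
  rw [show y - x = -x - -y by ring]
  exact h

/-- Poincaré's inequality, arbitrary point -/
lemma poin {p : ℝ} (hp : 1 ≤ p) (hf : ∀ t, HasDerivAt f (f' t) t) (hc : Continuous f')
    {x y s : ℝ} (hxs : x ≤ s) (hsy : s ≤ y) :
    ∫ t in x..y, ‖f t - f s‖ ^ p ≤ (y - x) ^ p / p * ∫ t in x..y, ‖f' t‖ ^ p := by
  have hp0 : 0 < p := by linarith
  have hfc : Continuous f := continuous_iff_continuousAt.2 fun t => (hf t).continuousAt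
  have i1 : Continuous fun t => ‖f t - f s‖ ^ p :=
    cont_pow hp0.le (hfc.sub (continuous_const (y := f s)))
  have i2 := cont_pow hp0.le hc
  rw [← intervalIntegral.integral_add_adjacent_intervals (b := s) (i1.intervalIntegrable _ _)
    (i1.intervalIntegrable _ _), ← intervalIntegral.integral_add_adjacent_intervals (a := x)
    (b := s) (c := y) (i2.intervalIntegrable _ _) (i2.intervalIntegrable _ _), mul_add]
  apply add_le_add
  · refine (poin_right hp hf hc hxs).trans ?_
    apply mul_le_mul_of_nonneg_right _ (int_nonneg hxs _)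
    apply div_le_div_of_nonneg_right _ hp0.le
    exact Real.rpow_le_rpow (by linarith) (by linarith) hp0.le
  · refine (poin_left hp hf hc hsy).trans ?_
    apply mul_le_mul_of_nonneg_right _ (int_nonneg hsy _)
    apply div_le_div_of_nonneg_right _ hp0.le
    exact Real.rpow_le_rpow (by linarith) (by linarith) hp0.le

end general

end Pool.Agent.Q85.Mom
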