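import Mathlib
import Pool.Agent.Q85.Mom.Rot

set_option autoImplicit false

/-!
# The part of a moment near the zeros
-/

open Complex Set Filter Topology MeasureTheory

namespace Pool.Agent.Q85.Mom

section general

variable {f f' : ℝ → ℂ}

/-- points within `h` of a zero in `[c, d]` -/
def near (f : ℝ → ℂ) (h c d : ℝ) : Set ℝ := {t | ∃ γ : ℝ, γ ∈ Icc c d ∧ f γ = 0 ∧ |t - γ| ≤ h}

lemma near_meas (hfin : ∀ c d : ℝ, (Icc c d ∩ {γ | f γ = 0}).Finite) (h c d : ℝ) :
    MeasurableSet (near f h c d) := by
  have e : near f h c d = ⋃ γ ∈ (Icc c d ∩ {γ | f γ = 0}), Icc (γ - h) (γ + h) := by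
    ext t
    simp only [near, mem_ofPred_eq, mem_iUnion, mem_inter_iff, exists_prop, mem_Icc, abs_le]
    constructor
    · rintro ⟨γ, h1, h2, h3⟩
      exact ⟨γ, ⟨h1, h2⟩, by linarith [h3.1], by linarith [h3.2]⟩
    · rintro ⟨γ, ⟨h1, h2⟩, h3, h4⟩
      exact ⟨γ, h1, h2, by linarith, by linarith⟩
  rw [e]
  exact (hfin c d).measurableSet_biUnion fun γ _ => measurableSet_Icc

lemma ind_int {p : ℝ} (hp : 0 ≤ p) (hfc : Continuous f) {S : Set ℝ} (hS : MeasurableSet S)
    (x y : ℝ) : IntervalIntegrable (S.indicator fun t => ‖f t‖ ^ p) volume x y := by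
  rw [intervalIntegrable_iff]
  exact ((intervalIntegrable_iff.1 ((cont_pow hp hfc).intervalIntegrable (μ := volume) x y))).indicator hS

lemma left_ind {p : ℝ} (hp : 1 ≤ p) (hf : ∀ t, HasDerivAt f (f' t) t) (hc : Continuous f')
    {c m h : ℝ} (hcm : c ≤ m) (hh : 0 ≤ h) (h0 : f c = 0) {S : Set ℝ} (hS : MeasurableSet S)
    (hSc : ∀ t ∈ S, t ∈ Icc c m → t - c ≤ h) :
    ∫ t in c..m, S.indicator (fun t => ‖f t‖ ^ p) t ≤ h ^ p / p * ∫ t in c..m, ‖f' t‖ ^ p := by
  have hp0 : 0 < p := by linarith
  have hfc : Continuous f := continuous_iff_continuousAt.2 fun t => (hf t).continuousAt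
  set e : ℝ := min m (c + h) with he
  have hce : c ≤ e := le_min hcm (by linarith)
  have hem : e ≤ m := min_le_left _ _
  have heh : e - c ≤ h := by
    have := min_le_right m (c + h)
    linarith
  rw [← intervalIntegral.integral_add_adjacent_intervals (b := e) (ind_int hp0.le hfc hS _ _)
    (ind_int hp0.le hfc hS _ _)]
  have h1 : ∫ t in e..m, S.indicator (fun t => ‖f t‖ ^ p) t = 0 := by
    apply intervalIntegral.integral_zero_ae
    refine Filter.Eventually.of_forall fun t ht => ?_
    rw [uIoc_of_le hem] at ht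
    apply indicator_of_notMem
    intro htS
    have h2 := hSc t htS ⟨hce.trans ht.1.le, ht.2⟩
    rcases min_choice m (c + h) with h3 | h3
    · rw [he, h3] at ht
      linarith [ht.1, ht.2]
    · rw [he, h3] at ht
      linarith [ht.1]
  have h2 : ∫ t in c..e, S.indicator (fun t => ‖f t‖ ^ p) t ≤ ∫ t in c..e, ‖f t - f c‖ ^ p := by
    apply intervalIntegral.integral_mono_on hce (ind_int hp0.le hfc hS _ _)
    · exact (cont_pow hp0.le (hfc.sub continuous_const)).intervalIntegrable _ _
    · intro t _
      rw [h0, sub_zero]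
      exact indicator_le_self' (fun t _ => by positivity) t
  rw [h1, add_zero]
  refine h2.trans ((poin_left hp hf hc hce).trans ?_)
  apply mul_le_mul
  · apply div_le_div_of_nonneg_right _ hp0.le
    exact Real.rpow_le_rpow (by linarith) heh hp0.le
  · apply intervalIntegral.integral_mono_interval le_rfl hce hem
    · exact Filter.Eventually.of_forall fun t => by positivity
    · exact (cont_pow hp0.le hc).intervalIntegrable _ _
  · exact int_nonneg hce _
  · positivity

lemma right_ind {p : ℝ} (hp : 1 ≤ p) (hf : ∀ t, HasDerivAt f (f' t) t) (hc : Continuous f')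
    {m d h : ℝ} (hmd : m ≤ d) (hh : 0 ≤ h) (h0 : f d = 0) {S : Set ℝ} (hS : MeasurableSet S)
    (hSc : ∀ t ∈ S, t ∈ Icc m d → d - t ≤ h) :
    ∫ t in m..d, S.indicator (fun t => ‖f t‖ ^ p) t ≤ h ^ p / p * ∫ t in m..d, ‖f' t‖ ^ p := by
  have hp0 : 0 < p := by linarith
  have hfc : Continuous f := continuous_iff_continuousAt.2 fun t => (hf t).continuousAt
  set e : ℝ := max m (d - h) with he
  have hed : e ≤ d := max_le hmd (by linarith)
  have hme : m ≤ e := le_max_left _ _
  have heh : d - e ≤ h := by
    have := le_max_right m (d - h)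
    linarith
  rw [← intervalIntegral.integral_add_adjacent_intervals (b := e) (ind_int hp0.le hfc hS _ _)
    (ind_int hp0.le hfc hS _ _)]
  have h1 : ∫ t in m..e, S.indicator (fun t => ‖f t‖ ^ p) t = 0 := by
    apply intervalIntegral.integral_zero_ae
    have hne : ∀ᵐ t : ℝ, t ≠ e := by
      simp [ae_iff]
    filter_upwards [hne] with t hte ht
    rw [uIoc_of_le hme] at ht
    have hlt : t < e := lt_of_le_of_ne ht.2 hte
    apply indicator_of_notMem
    intro htS
    have h2 := hSc t htS ⟨ht.1.le, ht.2.trans hed⟩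
    rcases max_choice m (d - h) with h3 | h3
    · rw [he, h3] at ht
      linarith [ht.1, ht.2]
    · rw [he, h3] at hlt
      linarith
  have h2 : ∫ t in e..d, S.indicator (fun t => ‖f t‖ ^ p) t ≤ ∫ t in e..d, ‖f t - f d‖ ^ p := by
    apply intervalIntegral.integral_mono_on hed (ind_int hp0.le hfc hS _ _)
    · exact (cont_pow hp0.le (hfc.sub continuous_const)).intervalIntegrable _ _
    · intro t _
      rw [h0, sub_zero]
      exact indicator_le_self' (fun t _ => by positivity) t
  rw [h1, zero_add]
  refine h2.trans ((poin_right hp hf hc hed).trans ?_)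
  apply mul_le_mul
  · apply div_le_div_of_nonneg_right _ hp0.le
    exact Real.rpow_le_rpow (by linarith) heh hp0.le
  · apply intervalIntegral.integral_mono_interval hme hed le_rfl
    · exact Filter.Eventually.of_forall fun t => by positivity
    · exact (cont_pow hp0.le hc).intervalIntegrable _ _
  · exact int_nonneg hed _
  · positivity

/-- the `p`-th moment of `f` over the points within `h` of a zero -/
theorem near_le {p : ℝ} (hp : 1 ≤ p) (hf : ∀ t, HasDerivAt f (f' t) t) (hc : Continuous f')
    (hfin : ∀ c d : ℝ, (Icc c d ∩ {γ | f γ = 0}).Finite) {h : ℝ} (hh : 0 ≤ h) (n : ℕ) :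
    ∀ c d : ℝ, c ≤ d → (Ioo c d ∩ {γ | f γ = 0}).ncard ≤ n →
    ∫ t in c..d, (near f h c d).indicator (fun t => ‖f t‖ ^ p) t ≤
      h ^ p / p * ∫ t in c..d, ‖f' t‖ ^ p := by
  have hp0 : 0 < p := by linarith
  have hfc : Continuous f := continuous_iff_continuousAt.2 fun t => (hf t).continuousAt
  have hfinO : ∀ c d : ℝ, (Ioo c d ∩ {γ | f γ = 0}).Finite := fun c d =>
    (hfin c d).subset (inter_subset_inter_left _ Ioo_subset_Icc_self)
  have i2 := cont_pow hp0.le hc
  induction n with
  | zero =>
    intro c d hcd hn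
    have hempty : Ioo c d ∩ {γ | f γ = 0} = ∅ := by
      rw [← Set.ncard_eq_zero (hfinO c d)]
      omega
    have hS := near_meas hfin h c d
    -- zeros are endpoints
    have hend : ∀ γ : ℝ, γ ∈ Icc c d → f γ = 0 → γ = c ∨ γ = d := by
      intro γ h1 h2
      by_contra h3
      push Not at h3
      have h4 : γ ∈ Ioo c d ∩ {γ | f γ = 0} :=
        ⟨⟨lt_of_le_of_ne h1.1 (Ne.symm h3.1), lt_of_le_of_ne h1.2 h3.2⟩, h2⟩
      rw [hempty] at h4
      exact h4
    by_cases hc0 : f c = 0
    · by_cases hd0 : f d = 0
      · set m : ℝ := (c + d) / 2 with hm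
        have hcm : c ≤ m := by rw [hm]; linarith
        have hmd : m ≤ d := by rw [hm]; linarith
        rw [← intervalIntegral.integral_add_adjacent_intervals (b := m) (ind_int hp0.le hfc hS _ _)
          (ind_int hp0.le hfc hS _ _), ← intervalIntegral.integral_add_adjacent_intervals (a := c)
          (b := m) (c := d) (i2.intervalIntegrable _ _) (i2.intervalIntegrable _ _), mul_add]
        apply add_le_add
        · apply left_ind hp hf hc hcm hh hc0 hS
          rintro t ⟨γ, g1, g2, g3⟩ ht
          rcases hend γ g1 g2 with g | g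
          · rw [g] at g3
            exact (le_abs_self _).trans g3
          · rw [g, abs_sub_comm] at g3
            have := (le_abs_self _).trans g3
            have := ht.2
            rw [hm] at this
            linarith
        · apply right_ind hp hf hc hmd hh hd0 hS
          rintro t ⟨γ, g1, g2, g3⟩ ht
          rcases hend γ g1 g2 with g | g
          · rw [g] at g3
            have := (le_abs_self _).trans g3
            have := ht.1
            rw [hm] at this
            linarith
          · rw [g, abs_sub_comm] at g3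
            exact (le_abs_self _).trans g3
      · apply left_ind hp hf hc hcd hh hc0 hS
        rintro t ⟨γ, g1, g2, g3⟩ ht
        rcases hend γ g1 g2 with g | g
        · rw [g] at g3
          exact (le_abs_self _).trans g3
        · rw [g] at g2
          exact absurd g2 hd0
    · by_cases hd0 : f d = 0
      · apply right_ind hp hf hc hcd hh hd0 hS
        rintro t ⟨γ, g1, g2, g3⟩ ht
        rcases hend γ g1 g2 with g | g
        · rw [g] at g2
          exact absurd g2 hc0
        · rw [g, abs_sub_comm] at g3
          exact (le_abs_self _).trans g3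
      · have e : near f h c d = ∅ := by
          rw [Set.eq_empty_iff_forall_notMem]
          rintro t ⟨γ, g1, g2, g3⟩
          rcases hend γ g1 g2 with g | g
          · rw [g] at g2
            exact hc0 g2
          · rw [g] at g2
            exact hd0 g2
        rw [e]
        simp only [indicator_empty, intervalIntegral.integral_zero]
        have := int_nonneg (p := p) hcd f'
        positivity
  | succ n ih =>
    intro c d hcd hn
    by_cases hsmall : (Ioo c d ∩ {γ | f γ = 0}).ncard ≤ n
    · exact ih c d hcd hsmall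
    have hne : (Ioo c d ∩ {γ | f γ = 0}).Nonempty := by
      rw [← Set.ncard_pos (hfinO c d)]
      omega
    obtain ⟨g0, ⟨hg1, hg2⟩, hg3⟩ := hne
    have hlt1 : (Ioo c g0 ∩ {γ | f γ = 0}).ncard < (Ioo c d ∩ {γ | f γ = 0}).ncard := by
      apply Set.ncard_lt_ncard _ (hfinO c d)
      refine ⟨inter_subset_inter_left _ (Ioo_subset_Ioo_right hg2.le), fun hsub => ?_⟩
      exact lt_irrefl _ (hsub ⟨⟨hg1, hg2⟩, hg3⟩).1.2
    have hlt2 : (Ioo g0 d ∩ {γ | f γ = 0}).ncard < (Ioo c d ∩ {γ | f γ = 0}).ncard := by
      apply Set.ncard_lt_ncard _ (hfinO c d)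
      refine ⟨inter_subset_inter_left _ (Ioo_subset_Ioo_left hg1.le), fun hsub => ?_⟩
      exact lt_irrefl _ (hsub ⟨⟨hg1, hg2⟩, hg3⟩).1.1
    have ih1 := ih c g0 hg1.le (by omega)
    have ih2 := ih g0 d hg2.le (by omega)
    have hS := near_meas hfin h c d
    rw [← intervalIntegral.integral_add_adjacent_intervals (b := g0) (ind_int hp0.le hfc hS _ _)
      (ind_int hp0.le hfc hS _ _), ← intervalIntegral.integral_add_adjacent_intervals (a := c)
      (b := g0) (c := d) (i2.intervalIntegrable _ _) (i2.intervalIntegrable _ _), mul_add]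
    apply add_le_add
    · refine le_trans ?_ ih1
      apply intervalIntegral.integral_mono_on hg1.le (ind_int hp0.le hfc hS _ _)
        (ind_int hp0.le hfc (near_meas hfin h c g0) _ _)
      intro t ht
      by_cases htS : t ∈ near f h c d
      · have : t ∈ near f h c g0 := by
          obtain ⟨γ, g1, g2, g3⟩ := htS
          rcases le_total γ g0 with g | g
          · exact ⟨γ, ⟨g1.1, g⟩, g2, g3⟩
          · refine ⟨g0, ⟨hg1.le, le_rfl⟩, hg3, ?_⟩
            rw [abs_sub_comm] at g3 ⊢
            have h5 := (le_abs_self _).trans g3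
            rw [abs_of_nonneg (by linarith [ht.2])]
            linarith
        rw [indicator_of_mem htS, indicator_of_mem this]
      · rw [indicator_of_notMem htS]
        exact indicator_nonneg (fun t _ => by positivity) t
    · refine le_trans ?_ ih2
      apply intervalIntegral.integral_mono_on hg2.le (ind_int hp0.le hfc hS _ _)
        (ind_int hp0.le hfc (near_meas hfin h g0 d) _ _)
      intro t ht
      by_cases htS : t ∈ near f h c d
      · have : t ∈ near f h g0 d := by
          obtain ⟨γ, g1, g2, g3⟩ := htS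
          rcases le_total g0 γ with g | g
          · exact ⟨γ, ⟨g, g1.2⟩, g2, g3⟩
          · refine ⟨g0, ⟨le_rfl, hg2.le⟩, hg3, ?_⟩
            have h5 := (le_abs_self _).trans g3
            rw [abs_of_nonneg (by linarith [ht.1])]
            linarith
        rw [indicator_of_mem htS, indicator_of_mem this]
      · rw [indicator_of_notMem htS]
        exact indicator_nonneg (fun t _ => by positivity) t

end general

/-- the zeros of zeta on the critical line are isolated -/
lemma zeros_fin (c d : ℝ) : (Icc c d ∩ {γ | z γ = 0}).Finite := by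
  by_contra hinf
  have hinf' : (Icc c d ∩ {γ | z γ = 0}).Infinite := hinf
  obtain ⟨x, hx, hacc⟩ := hinf'.exists_accPt_of_subset_isCompact isCompact_Icc inter_subset_left
  have hana : AnalyticAt ℝ z x := by
    have h1 : AnalyticAt ℂ riemannZeta (1 / 2 + x * I) := by
      rw [Complex.analyticAt_iff_eventually_differentiableAt]
      filter_upwards [isOpen_compl_singleton.mem_nhds
        (show (1 / 2 + x * I : ℂ) ∈ ({1} : Set ℂ)ᶜ by simpa using ne_one x)] with w hw
      exact differentiableAt_riemannZeta (by simpa using hw)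
    have h2 : AnalyticAt ℝ riemannZeta (1 / 2 + x * I) := h1.restrictScalars
    have h3 : AnalyticAt ℝ (fun t : ℝ => (1 / 2 + t * I : ℂ)) x := by
      apply analyticAt_const.add
      exact (Complex.ofRealCLM.analyticAt x).mul analyticAt_const
    exact AnalyticAt.fun_comp (g := riemannZeta) (f := fun t : ℝ => (1 / 2 + t * I : ℂ)) h2 h3
  have hfreq : ∃ᶠ y in 𝓝[≠] x, z y = 0 := by
    rw [accPt_iff_frequently_nhdsNE] at hacc
    exact hacc.mono fun y hy => hy.2
  have hall : AnalyticOnNhd ℝ z univ := by
    intro x _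
    have h1 : AnalyticAt ℂ riemannZeta (1 / 2 + x * I) := by
      rw [Complex.analyticAt_iff_eventually_differentiableAt]
      filter_upwards [isOpen_compl_singleton.mem_nhds
        (show (1 / 2 + x * I : ℂ) ∈ ({1} : Set ℂ)ᶜ by simpa using ne_one x)] with w hw
      exact differentiableAt_riemannZeta (by simpa using hw)
    have h2 : AnalyticAt ℝ riemannZeta (1 / 2 + x * I) := h1.restrictScalars
    have h3 : AnalyticAt ℝ (fun t : ℝ => (1 / 2 + t * I : ℂ)) x := by
      apply analyticAt_const.add
      exact (Complex.ofRealCLM.analyticAt x).mul analyticAt_const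
    exact AnalyticAt.fun_comp (g := riemannZeta) (f := fun t : ℝ => (1 / 2 + t * I : ℂ)) h2 h3
  have hzero : EqOn z 0 univ :=
    hall.eqOn_zero_of_preconnected_of_frequently_eq_zero isPreconnected_univ (mem_univ x) hfreq
  obtain ⟨c', T₀, hc', -, hT₀, hl⟩ := low
  have hT0 : 0 < T₀ := by linarith
  set T : ℝ := max T₀ (1 + 2 / c') with hT
  have hT1 : T₀ ≤ T := le_max_left _ _
  have hT2 : 1 + 2 / c' ≤ T := le_max_right _ _
  have hT3 : 0 < 2 / c' := by positivity
  have h1 := hl 1 T T (8 * T) le_rfl hT1 le_rfl (by linarith) le_rfl (by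
    rw [div_one, Real.rpow_one]
    have : 2 / c' ≤ 8 * T - T := by linarith
    rw [div_le_iff₀ hc'] at this
    linarith)
  have h2 : nrm 1 (T - Real.log T) (8 * T + Real.log T) z = 0 := by
    unfold nrm
    have : ∀ t, ‖z t‖ ^ (1 : ℝ) = 0 := by
      intro t
      rw [hzero (mem_univ t)]
      simp
    simp [this]
  rw [h2, mul_zero, div_one, Real.rpow_one] at h1
  have : 0 < 8 * T - T := by linarith
  nlinarith [mul_pos hc' this]

end Pool.Agent.Q85.Mom
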