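import Mathlib
import Pool.Agent.Q85.Mom.Near

set_option autoImplicit false

/-!
# The variation of `|f|^p`
-/

open Complex Set Filter Topology MeasureTheory

namespace Pool.Agent.Q85.Mom

section general

variable {f f' : ℝ → ℂ}

lemma cont_mulpow {p : ℝ} (hp : 1 ≤ p) (hfc : Continuous f) (hc : Continuous f') :
    Continuous fun t => ‖f t‖ ^ (p - 1) * ‖f' t‖ :=
  (cont_pow (by linarith) hfc).mul hc.norm

lemma var_le {p : ℝ} (hp : 1 ≤ p) (hf : ∀ t, HasDerivAt f (f' t) t) (hc : Continuous f')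
    {x y : ℝ} (hxy : x ≤ y) :
    |‖f y‖ ^ p - ‖f x‖ ^ p| ≤ p * ∫ t in x..y, ‖f t‖ ^ (p - 1) * ‖f' t‖ := by
  have hfc : Continuous f := continuous_iff_continuousAt.2 fun t => (hf t).continuousAt
  rcases eq_or_lt_of_le hp with h | h
  · rw [← h]
    simp only [sub_self, Real.rpow_zero, Real.rpow_one, one_mul]
    refine (abs_norm_sub_norm_le _ _).trans ?_
    rw [← ftc hf hc]
    exact intervalIntegral.norm_integral_le_integral_norm hxy
  · have hd : Differentiable ℝ f := fun t => (hf t).differentiableAt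
    have hdf : deriv f = f' := funext fun t => (hf t).deriv
    have hC1 : ContDiff ℝ 1 f := by
      rw [contDiff_one_iff_deriv]
      exact ⟨hd, by rw [hdf]; exact hc⟩
    have hφ : ContDiff ℝ 1 (fun t => ‖f t‖ ^ p) := hC1.norm_rpow h
    have hφd : Differentiable ℝ (fun t => ‖f t‖ ^ p) := hφ.differentiable one_ne_zero
    have hφc : Continuous (deriv fun t => ‖f t‖ ^ p) := hφ.continuous_deriv le_rfl
    have h1 : ∫ t in x..y, deriv (fun t => ‖f t‖ ^ p) t = ‖f y‖ ^ p - ‖f x‖ ^ p :=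
      intervalIntegral.integral_deriv_eq_sub (fun t _ => hφd t) (hφc.intervalIntegrable _ _)
    rw [← h1, ← Real.norm_eq_abs, ← intervalIntegral.integral_const_mul]
    apply intervalIntegral.norm_integral_le_of_norm_le hxy
    · refine Filter.Eventually.of_forall fun t _ => ?_
      have h2 := norm_fderiv_norm_rpow_le hd (x := t) h
      rw [norm_deriv_eq_norm_fderiv]
      refine h2.trans (le_of_eq ?_)
      rw [← norm_deriv_eq_norm_fderiv, hdf]
      ring
    · exact ((cont_mulpow hp hfc hc).const_mul _).intervalIntegrable _ _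

lemma wint_nonneg {p x y : ℝ} (hxy : x ≤ y) : 0 ≤ ∫ t in x..y, ‖f t‖ ^ (p - 1) * ‖f' t‖ :=
  intervalIntegral.integral_nonneg hxy fun t _ => by positivity

/-- a zero on either side -/
lemma peak_le {p : ℝ} (hp : 1 ≤ p) (hf : ∀ t, HasDerivAt f (f' t) t) (hc : Continuous f')
    {u s v : ℝ} (h1 : u ≤ s) (h2 : s ≤ v) (hu : f u = 0) (hv : f v = 0) :
    2 * ‖f s‖ ^ p ≤ p * ∫ t in u..v, ‖f t‖ ^ (p - 1) * ‖f' t‖ := by
  have hp0 : 0 < p := by linarith
  have hfc : Continuous f := continuous_iff_continuousAt.2 fun t => (hf t).continuousAt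
  have i1 := cont_mulpow hp hfc hc
  have h3 := var_le hp hf hc h1
  have h4 := var_le hp hf hc h2
  rw [hu, norm_zero, Real.zero_rpow hp0.ne', sub_zero] at h3
  rw [hv, norm_zero, Real.zero_rpow hp0.ne', zero_sub, abs_neg] at h4
  rw [abs_of_nonneg (by positivity)] at h3 h4
  rw [← intervalIntegral.integral_add_adjacent_intervals (i1.intervalIntegrable u s)
    (i1.intervalIntegrable s v)]
  linarith

/-- from one point to an average -/
lemma point_le {p : ℝ} (hp : 1 ≤ p) (hf : ∀ t, HasDerivAt f (f' t) t) (hc : Continuous f')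
    {x y s : ℝ} (h1 : x ≤ s) (h2 : s ≤ y) (hxy : y = x + 1) :
    ‖f s‖ ^ p ≤ (∫ t in x..y, ‖f t‖ ^ p) + p * ∫ t in x..y, ‖f t‖ ^ (p - 1) * ‖f' t‖ := by
  have hp0 : 0 < p := by linarith
  have hfc : Continuous f := continuous_iff_continuousAt.2 fun t => (hf t).continuousAt
  have i1 := cont_mulpow hp hfc hc
  have i2 := cont_pow hp0.le hfc
  set W : ℝ := p * ∫ t in x..y, ‖f t‖ ^ (p - 1) * ‖f' t‖ with hW
  have hxy' : x ≤ y := by linarith
  have h3 : ∀ t ∈ Icc x y, ‖f s‖ ^ p - W ≤ ‖f t‖ ^ p := by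
    intro t ht
    rcases le_total s t with h | h
    · have h4 := var_le hp hf hc h
      have h5 : p * ∫ t in s..t, ‖f t‖ ^ (p - 1) * ‖f' t‖ ≤ W := by
        apply mul_le_mul_of_nonneg_left _ hp0.le
        apply intervalIntegral.integral_mono_interval h1 h ht.2
        · exact Filter.Eventually.of_forall fun t => by positivity
        · exact i1.intervalIntegrable _ _
      have h6 := (abs_le.1 (h4.trans h5)).1
      linarith
    · have h4 := var_le hp hf hc h
      have h5 : p * ∫ t in t..s, ‖f t‖ ^ (p - 1) * ‖f' t‖ ≤ W := by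
        apply mul_le_mul_of_nonneg_left _ hp0.le
        apply intervalIntegral.integral_mono_interval ht.1 h h2
        · exact Filter.Eventually.of_forall fun t => by positivity
        · exact i1.intervalIntegrable _ _
      have h6 := (abs_le.1 (h4.trans h5)).2
      linarith
  have h4 : ∫ t in x..y, (‖f s‖ ^ p - W) ≤ ∫ t in x..y, ‖f t‖ ^ p := by
    apply intervalIntegral.integral_mono_on hxy' (continuous_const.intervalIntegrable _ _)
      (i2.intervalIntegrable _ _)
    exact h3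
  rw [intervalIntegral.integral_const, smul_eq_mul] at h4
  have e : y - x = 1 := by linarith
  rw [e, one_mul] at h4
  linarith

end general

/-- `∫ |f|^(p-1) |f'|` for the rotated zeta function -/
lemma wint_zeta {p a b lam : ℝ} (hp : 1 ≤ p) (hab : a ≤ b) {q n0 : ℝ}
    (hn : nrm p a b z ≤ n0) (hq : nrm p a b (F1 lam) ≤ q * n0) :
    ∫ t in a..b, ‖ff lam t‖ ^ (p - 1) * ‖ff1 lam t‖ ≤ q * n0 ^ p := by
  have hp0 : 0 < p := by linarith
  have h1 := holder hp hab (ff_cont lam) (ff1_cont lam)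
  rw [nrm_ff1] at h1
  have h0 : 0 ≤ n0 := (nrm_nonneg hab _).trans hn
  have h2 : (∫ t in a..b, ‖ff lam t‖ ^ p) ^ (1 - 1 / p) ≤ n0 ^ (p - 1) := by
    have h3 : ∫ t in a..b, ‖ff lam t‖ ^ p ≤ n0 ^ p := by
      rw [← nrm_pow hp0 hab (ff lam), nrm_ff]
      exact Real.rpow_le_rpow (nrm_nonneg hab _) hn hp0.le
    have h4 : 0 ≤ 1 - 1 / p := by
      rw [sub_nonneg, div_le_one hp0]
      exact hp
    have h5 := Real.rpow_le_rpow (int_nonneg hab _) h3 h4
    rw [← Real.rpow_mul h0] at h5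
    have e : p * (1 - 1 / p) = p - 1 := by field_simp
    rwa [e] at h5
  refine h1.trans ?_
  calc (∫ t in a..b, ‖ff lam t‖ ^ p) ^ (1 - 1 / p) * nrm p a b (F1 lam)
      ≤ n0 ^ (p - 1) * (q * n0) := mul_le_mul h2 hq (nrm_nonneg hab _) (by positivity)
    _ = q * n0 ^ p := by
        rcases h0.eq_or_lt with h6 | h6
        · rw [← h6, mul_zero, mul_zero, Real.zero_rpow hp0.ne', mul_zero]
        · rw [Real.rpow_sub h6, Real.rpow_one]
          field_simp

/-- `∫ |f'|^(p-1) |f''|` for the rotated zeta function -/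
lemma wint_zeta2 {p a b lam : ℝ} (hp : 1 ≤ p) (hab : a ≤ b) {q n0 : ℝ} (hq0 : 0 ≤ q)
    (h0 : 0 ≤ n0) (hq : nrm p a b (F1 lam) ≤ q * n0) (hq2 : nrm p a b (F2 lam) ≤ q ^ 2 * n0) :
    ∫ t in a..b, ‖ff1 lam t‖ ^ (p - 1) * ‖ff2 lam t‖ ≤ q ^ (p + 1) * n0 ^ p := by
  have hp0 : 0 < p := by linarith
  have h1 := holder hp hab (ff1_cont lam) (ff2_cont lam)
  rw [nrm_ff2] at h1
  have hqn : 0 ≤ q * n0 := mul_nonneg hq0 h0
  have h2 : (∫ t in a..b, ‖ff1 lam t‖ ^ p) ^ (1 - 1 / p) ≤ (q * n0) ^ (p - 1) := by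
    have h3 : ∫ t in a..b, ‖ff1 lam t‖ ^ p ≤ (q * n0) ^ p := by
      rw [← nrm_pow hp0 hab (ff1 lam), nrm_ff1]
      exact Real.rpow_le_rpow (nrm_nonneg hab _) hq hp0.le
    have h4 : 0 ≤ 1 - 1 / p := by
      rw [sub_nonneg, div_le_one hp0]
      exact hp
    have h5 := Real.rpow_le_rpow (int_nonneg hab _) h3 h4
    rw [← Real.rpow_mul hqn] at h5
    have e : p * (1 - 1 / p) = p - 1 := by field_simp
    rwa [e] at h5
  refine h1.trans ?_
  calc (∫ t in a..b, ‖ff1 lam t‖ ^ p) ^ (1 - 1 / p) * nrm p a b (F2 lam)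
      ≤ (q * n0) ^ (p - 1) * (q ^ 2 * n0) := mul_le_mul h2 hq2 (nrm_nonneg hab _) (by positivity)
    _ = q ^ (p + 1) * n0 ^ p := by
        rcases hqn.eq_or_lt with h6 | h6
        · rcases mul_eq_zero.1 h6.symm with h7 | h7
          · rw [h7, Real.zero_rpow (by linarith)]
            ring
          · rw [h7, Real.zero_rpow hp0.ne']
            ring
        · have hq1 : 0 < q := by
            rcases hq0.eq_or_lt with h7 | h7
            · rw [← h7, zero_mul] at h6
              exact absurd h6 (lt_irrefl _)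
            · exact h7
          have hn1 : 0 < n0 := by
            rcases h0.eq_or_lt with h7 | h7
            · rw [← h7, mul_zero] at h6
              exact absurd h6 (lt_irrefl _)
            · exact h7
          rw [Real.mul_rpow hq1.le hn1.le, Real.rpow_sub hq1, Real.rpow_sub hn1, Real.rpow_add hq1,
            Real.rpow_one, Real.rpow_one]
          field_simp

end Pool.Agent.Q85.Mom
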