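import Mathlib
import Pool.Agent.Q85.Mom.Var
import Pool.Agent.W338.QS.Line
import Pool.Agent.W32.GP.Tau

set_option autoImplicit false

/-!
# Hardy's function and Rolle's theorem between zeros
-/

open Complex Set Filter Topology MeasureTheory

namespace Pool.Agent.Q85.Mom

open Pool.Agent.W188

lemma tau_all : GP.StTau := Pool.Agent.W32.GPT.gp_tau
lemma line_all : QS.StLine := Pool.Agent.W338.QS.qs_line

lemma z_cp (t : ℝ) : riemannZeta (QS.cp t) = z t := rfl

/-- the phase `π v(t)` of Hardy's function -/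
noncomputable def ph (t : ℝ) : ℝ := Real.pi * GP.vv t

lemma ph_der (t : ℝ) : HasDerivAt ph (GP.lamE t / 2) t := by
  obtain ⟨-, -, -, -, h, -⟩ := tau_all
  have h1 := (h t).const_mul Real.pi
  unfold ph
  refine h1.congr_deriv ?_
  have := Real.pi_ne_zero
  field_simp

/-- a square root of the phase factor at height `100` -/
lemma exists_root : ∃ c₀ : ℂ, c₀ ^ 2 = QS.XX (QS.cp 100) ∧ ‖c₀‖ = 1 := by
  obtain ⟨c₀, hc₀⟩ := IsAlgClosed.exists_pow_nat_eq (QS.XX (QS.cp 100)) (n := 2) (by norm_num)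
  refine ⟨c₀, hc₀, ?_⟩
  have h1 := congrArg norm hc₀
  rw [norm_pow, line_all.2.1 100] at h1
  have h2 := norm_nonneg c₀
  nlinarith

/-- Hardy's function, complex valued -/
noncomputable def HZ (c₀ : ℂ) (t : ℝ) : ℂ := c₀ * (cexp (ph t * I) * z t)

lemma HZ_der (c₀ : ℂ) (t : ℝ) : HasDerivAt (HZ c₀)
    (c₀ * (cexp (ph t * I) * ((z1 t + (GP.lamE t / 2 : ℝ) * z t) * I))) t := by
  have h1 : HasDerivAt (fun t => cexp (ph t * I)) (cexp (ph t * I) * ((GP.lamE t / 2 : ℝ) * I)) t :=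
    ((ph_der t).ofReal_comp.mul_const I).cexp
  refine ((h1.mul (z_der t)).const_mul c₀).congr_deriv ?_
  ring

lemma HZ_real {c₀ : ℂ} (h0 : c₀ ^ 2 = QS.XX (QS.cp 100)) (h1 : ‖c₀‖ = 1) {t : ℝ} (ht : 100 ≤ t) :
    (starRingEnd ℂ) (HZ c₀ t) = HZ c₀ t := by
  obtain ⟨-, -, -, -, -, -, -, -, -, -, hph, -⟩ := tau_all
  have h2 : (starRingEnd ℂ) (z t) = QS.XX (QS.cp t) * z t := line_all.2.2.1 t (by linarith)
  have h3 : QS.XX (QS.cp t) = c₀ ^ 2 * (cexp (ph t * I) * cexp (ph t * I)) := by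
    rw [hph t ht, h0, ← Complex.exp_add]
    congr 2
    unfold ph
    push_cast
    ring
  have h4 : (starRingEnd ℂ) (cexp (ph t * I)) * cexp (ph t * I) = 1 := by
    rw [← Complex.exp_conj, ← Complex.exp_add]
    simp
  have h5 : (starRingEnd ℂ) c₀ * c₀ = 1 := by
    rw [mul_comm, Complex.mul_conj, Complex.normSq_eq_norm_sq, h1]
    simp
  unfold HZ
  rw [map_mul, map_mul, h2, h3]
  linear_combination (cexp (ph t * I) * z t * c₀ * ((starRingEnd ℂ) (cexp (ph t * I)) * cexp (ph t * I))) * h5 +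
    (cexp (ph t * I) * z t * c₀) * h4

lemma lamE_near {T t : ℝ} (hT : 100 ≤ T) (h1 : T ≤ t) (h2 : t ≤ 8 * T) :
    |GP.lamE t / 2 - Real.log T / 2| ≤ 2 := by
  obtain ⟨-, -, -, -, -, -, -, -, -, -, -, hl, -⟩ := tau_all
  have h3 := (hl t (by linarith)).1
  have h4 := (line_all.1 t (by linarith)).2.1
  have hT0 : 0 < T := by linarith
  have ht0 : 0 < t := by linarith
  have hpi := Real.pi_gt_three
  have hpi4 := Real.pi_lt_four
  rw [h3]
  have e : Real.log (t / (2 * Real.pi)) - Real.log T = Real.log (t / T / (2 * Real.pi)) := by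
    rw [Real.log_div ht0.ne' (by positivity), Real.log_div (by positivity) (by positivity),
      Real.log_div ht0.ne' hT0.ne']
    ring
  have h5 : 1 ≤ t / T := (one_le_div hT0).2 h1
  have h6 : t / T ≤ 8 := (div_le_iff₀ hT0).2 h2
  have hexp : 7.38 ≤ Real.exp 2 := by
    have := Real.exp_one_gt_d9
    have e2 : Real.exp 2 = Real.exp 1 ^ 2 := by rw [← Real.exp_nat_mul]; norm_num
    rw [e2]
    nlinarith
  have h7 : Real.log (t / T / (2 * Real.pi)) ≤ 2 := by
    have h8 : Real.log (t / T / (2 * Real.pi)) ≤ Real.log (Real.exp 2) := by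
      apply Real.log_le_log (by positivity)
      rw [div_le_iff₀ (by positivity)]
      nlinarith
    rwa [Real.log_exp] at h8
  have h8 : -2 ≤ Real.log (t / T / (2 * Real.pi)) := by
    have h9 : Real.log (Real.exp (-2)) ≤ Real.log (t / T / (2 * Real.pi)) := by
      apply Real.log_le_log (Real.exp_pos _)
      rw [Real.exp_neg, le_div_iff₀ (by positivity)]
      have h5' : (Real.exp 2)⁻¹ ≤ (7.38 : ℝ)⁻¹ := inv_anti₀ (by norm_num) hexp
      have h6' : 2 * Real.pi ≤ 6.3 := by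
        have := Real.pi_lt_d2
        linarith
      calc (Real.exp 2)⁻¹ * (2 * Real.pi) ≤ (7.38 : ℝ)⁻¹ * 6.3 := by gcongr
        _ ≤ 1 := by norm_num
        _ ≤ t / T := h5
    rwa [Real.log_exp] at h9
  have h9 : 14 / t ≤ 1 := by
    rw [div_le_one ht0]
    linarith
  have h10 := abs_le.1 h4
  rw [abs_le]
  constructor <;> linarith [h10.1, h10.2]

/-- **Rolle's theorem for Hardy's function.** -/
theorem rolle {T x y : ℝ} (hT : 100 ≤ T) (hx : T ≤ x) (hxy : x < y) (hy : y ≤ 8 * T)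
    (hzx : z x = 0) (hzy : z y = 0) :
    ∃ s : ℝ, x ≤ s ∧ s ≤ y ∧ ‖F1 (Real.log T / 2) s‖ ≤ 2 * ‖z s‖ := by
  obtain ⟨c₀, hc₀, hc₁⟩ := exists_root
  have hreal : ∀ t : ℝ, 100 ≤ t → HZ c₀ t = (((HZ c₀ t).re : ℝ) : ℂ) := by
    intro t ht
    have h1 := HZ_real hc₀ hc₁ ht
    exact (Complex.conj_eq_iff_re.1 h1).symm
  set g : ℝ → ℝ := fun t => (HZ c₀ t).re with hg
  have hder : ∀ t : ℝ, HasDerivAt g
      (c₀ * (cexp (ph t * I) * ((z1 t + (GP.lamE t / 2 : ℝ) * z t) * I))).re t := by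
    intro t
    exact (Complex.reCLM.hasFDerivAt.comp_hasDerivAt t (HZ_der c₀ t))
  have hgx : g x = 0 := by
    simp [hg, HZ, hzx]
  have hgy : g y = 0 := by
    simp [hg, HZ, hzy]
  obtain ⟨s, ⟨hs1, hs2⟩, hs3⟩ := exists_hasDerivAt_eq_zero (f := g)
    (f' := fun t => (c₀ * (cexp (ph t * I) * ((z1 t + (GP.lamE t / 2 : ℝ) * z t) * I))).re) hxy
    (fun t _ => (hder t).continuousAt.continuousWithinAt) (by rw [hgx, hgy]) (fun t _ => hder t)
  -- the complex derivative vanishes too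
  have h1 : HasDerivAt (fun t : ℝ => ((g t : ℝ) : ℂ)) ((0 : ℝ) : ℂ) s := by
    have := (hder s).ofReal_comp
    rw [hs3] at this
    exact this
  have h2 : HZ c₀ =ᶠ[𝓝 s] fun t : ℝ => ((g t : ℝ) : ℂ) := by
    filter_upwards [lt_mem_nhds (show (100 : ℝ) < s by linarith)] with t ht
    exact hreal t ht.le
  have h3 := (h1.congr_of_eventuallyEq h2).unique (HZ_der c₀ s)
  have h4 : ‖z1 s + (GP.lamE s / 2 : ℝ) * z s‖ = 0 := by
    have h5 := congrArg norm h3
    rw [Complex.ofReal_zero, norm_zero, norm_mul, norm_mul, norm_mul, hc₁, one_mul,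
      Complex.norm_exp_ofReal_mul_I, one_mul, norm_I, mul_one] at h5
    exact h5.symm
  rw [norm_eq_zero] at h4
  refine ⟨s, hs1.le, hs2.le, ?_⟩
  have e : F1 (Real.log T / 2) s = ((-(GP.lamE s / 2 - Real.log T / 2) : ℝ) : ℂ) * z s := by
    unfold F1
    push_cast at h4 ⊢
    linear_combination h4
  rw [e, norm_mul, Complex.norm_real, Real.norm_eq_abs, abs_neg]
  exact mul_le_mul_of_nonneg_right (lamE_near hT (by linarith) (by linarith)) (norm_nonneg _)

end Pool.Agent.Q85.Mom
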