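import Mathlib
import Pool.Agent.Q85.Mom.Line

set_option autoImplicit false

/-!
# Circle averages of zeta about the points of the critical line
-/

open Complex Set Filter Topology MeasureTheory Metric

namespace Pool.Agent.Q85.Mom

/-- the power of an average is at most the average of the powers -/
lemma avg_pow {p : ℝ} (hp : 1 ≤ p) {G : ℝ → ℂ} (hG : Continuous G) :
    ((2 * Real.pi)⁻¹ * ∫ θ in (0 : ℝ)..2 * Real.pi, ‖G θ‖) ^ p ≤
      (2 * Real.pi)⁻¹ * ∫ θ in (0 : ℝ)..2 * Real.pi, ‖G θ‖ ^ p := by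
  have hp0 : 0 < p := by linarith
  have h2pi : 0 < 2 * Real.pi := by positivity
  have h1 := holder hp h2pi.le (F := fun _ => (1 : ℂ)) (G := G) continuous_const hG
  simp only [norm_one, Real.one_rpow, one_mul, intervalIntegral.integral_const, smul_eq_mul,
    mul_one, sub_zero] at h1
  have h0 : 0 ≤ ∫ θ in (0 : ℝ)..2 * Real.pi, ‖G θ‖ :=
    intervalIntegral.integral_nonneg h2pi.le fun t _ => norm_nonneg _
  have h2 : (2 * Real.pi)⁻¹ * ∫ θ in (0 : ℝ)..2 * Real.pi, ‖G θ‖ ≤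
      (2 * Real.pi) ^ (-(1 / p)) * nrm p 0 (2 * Real.pi) G := by
    have h3 := mul_le_mul_of_nonneg_left h1 (inv_nonneg.2 h2pi.le)
    refine h3.trans (le_of_eq ?_)
    rw [← mul_assoc]
    congr 1
    rw [← Real.rpow_neg_one, ← Real.rpow_add h2pi]
    congr 1
    ring
  have h3 := Real.rpow_le_rpow (by positivity) h2 hp0.le
  refine h3.trans (le_of_eq ?_)
  rw [Real.mul_rpow (by positivity) (nrm_nonneg h2pi.le _), nrm_pow hp0 h2pi.le, ← Real.rpow_mul
    h2pi.le]
  congr 1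
  rw [← Real.rpow_neg_one]
  congr 1
  field_simp

/-- Jensen's inequality for an analytic function with given zeros near the centre -/
theorem jens {f h : ℂ → ℂ} {c : ℂ} {r η p : ℝ} {n : ℕ} {ρ : Fin n → ℂ} {U : Set ℂ} (hr : 0 < r)
    (hη : 0 ≤ η) (hp : 1 ≤ p) (hUo : IsOpen U) (hU : closedBall c r ⊆ U)
    (hh : DifferentiableOn ℂ h U) (hf : ∀ s ∈ U, f s = (∏ i, (s - ρ i)) * h s)
    (hρ : ∀ i, ‖ρ i - c‖ ≤ η) :
    ‖f c‖ ^ p ≤ ((η / r) ^ n) ^ p *
      ((2 * Real.pi)⁻¹ * ∫ θ in (0 : ℝ)..2 * Real.pi, ‖f (circleMap c r θ)‖ ^ p) := by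
  have hp0 : 0 < p := by linarith
  have h2pi : 0 < 2 * Real.pi := by positivity
  set g : ℂ → ℂ := fun s => h s * ∏ i, (((r : ℂ) ^ 2 - (starRingEnd ℂ) (ρ i - c) * (s - c)) / r)
    with hg
  have hgd : DifferentiableOn ℂ g U := by
    apply hh.mul
    intro s _
    apply DifferentiableAt.differentiableWithinAt
    fun_prop
  have hcU : ∀ θ, circleMap c r θ ∈ U := fun θ => hU (circleMap_mem_closedBall c hr.le θ)
  have hrc : (r : ℂ) ≠ 0 := by exact_mod_cast hr.ne'
  -- on the circle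
  have h1 : ∀ θ, ‖g (circleMap c r θ)‖ = ‖f (circleMap c r θ)‖ := by
    intro θ
    rw [hf _ (hcU θ), hg]
    simp only
    rw [norm_mul, norm_mul, mul_comm, norm_prod, norm_prod]
    congr 1
    apply Finset.prod_congr rfl
    intro i _
    have e1 : ‖circleMap c r θ - c‖ = r := by
      have := circleMap_mem_sphere c hr.le θ
      rwa [mem_sphere_iff_norm] at this
    set s := circleMap c r θ with hs
    have e2 : ((r : ℂ) ^ 2) = (s - c) * (starRingEnd ℂ) (s - c) := by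
      rw [Complex.mul_conj, Complex.normSq_eq_norm_sq, e1]
      push_cast
      ring
    have e3 : ((r : ℂ) ^ 2 - (starRingEnd ℂ) (ρ i - c) * (s - c)) =
        (s - c) * (starRingEnd ℂ) (s - ρ i) := by
      rw [e2]
      simp only [map_sub]
      ring
    rw [e3, norm_div, norm_mul, e1, Complex.norm_conj, Complex.norm_real, Real.norm_eq_abs,
      abs_of_pos hr]
    field_simp
  -- at the centre
  have h2 : ‖g c‖ = ‖h c‖ * r ^ n := by
    rw [hg]
    simp only [sub_self, mul_zero, sub_zero]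
    rw [norm_mul]
    congr 1
    rw [Finset.prod_const, Finset.card_univ, Fintype.card_fin, norm_pow]
    congr 1
    rw [pow_two, mul_div_assoc, div_self hrc, mul_one, Complex.norm_real, Real.norm_eq_abs,
      abs_of_pos hr]
  have h3 : ‖f c‖ ≤ (η / r) ^ n * ‖g c‖ := by
    rw [hf c (hU (mem_closedBall_self hr.le)), norm_mul, h2, norm_prod]
    have h4 : ∏ i, ‖c - ρ i‖ ≤ η ^ n := by
      calc ∏ i, ‖c - ρ i‖ ≤ ∏ _i : Fin n, η := by
            apply Finset.prod_le_prod (fun i _ => norm_nonneg _)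
            intro i _
            rw [norm_sub_rev]
            exact hρ i
        _ = η ^ n := by simp
    calc (∏ i, ‖c - ρ i‖) * ‖h c‖ ≤ η ^ n * ‖h c‖ := mul_le_mul_of_nonneg_right h4 (norm_nonneg _)
      _ = _ := by
          rw [div_pow]
          field_simp
  -- mean value
  have hcl : closure (ball c |r|) ⊆ U := by
    rw [abs_of_pos hr, closure_ball c hr.ne']
    exact hU
  have hdcl : DiffContOnCl ℂ g (ball c |r|) :=
    ⟨hgd.mono (subset_closure.trans hcl), hgd.continuousOn.mono hcl⟩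
  have h4 := hdcl.circleAverage
  rw [Real.circleAverage_def] at h4
  have hGc : Continuous fun θ => g (circleMap c r θ) :=
    ContinuousOn.comp_continuous hgd.continuousOn (continuous_circleMap c r) hcU
  have h5 : ‖g c‖ ≤ (2 * Real.pi)⁻¹ * ∫ θ in (0 : ℝ)..2 * Real.pi, ‖g (circleMap c r θ)‖ := by
    rw [← h4, norm_smul, Real.norm_eq_abs, abs_of_pos (by positivity)]
    apply mul_le_mul_of_nonneg_left _ (by positivity)
    exact intervalIntegral.norm_integral_le_integral_norm h2pi.le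
  have h6 := avg_pow hp hGc
  have h7 := Real.rpow_le_rpow (norm_nonneg _) h5 hp0.le
  have h8 := Real.rpow_le_rpow (norm_nonneg _) h3 hp0.le
  rw [Real.mul_rpow (by positivity) (norm_nonneg _)] at h8
  simp only [h1] at h6 h7
  refine h8.trans (mul_le_mul_of_nonneg_left (h7.trans h6) (by positivity))

/-- the circle averages of the twisted zeta function -/
noncomputable def AA (lam r p t : ℝ) : ℝ := (2 * Real.pi)⁻¹ * ∫ θ in (0 : ℝ)..2 * Real.pi,
  (Real.exp (lam * (r * Real.cos θ)) * ‖zx (r * Real.cos θ) (t + r * Real.sin θ)‖) ^ p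

lemma zz_cont {r : ℝ} (hr0 : 0 ≤ r) (hr : r ≤ 1 / 8) : Continuous fun q : ℝ × ℝ =>
    zx (r * Real.cos q.2) (q.1 + r * Real.sin q.2) := by
  unfold zx
  rw [continuous_iff_continuousAt]
  intro q
  have hne : (1 / 2 + ((r * Real.cos q.2 : ℝ) : ℂ) + ((q.1 + r * Real.sin q.2 : ℝ) : ℂ) * I : ℂ) ≠ 1 := by
    apply ne_one''
    have h1 : r * Real.cos q.2 ≤ r * 1 := mul_le_mul_of_nonneg_left (Real.cos_le_one _) hr0
    linarith
  exact ContinuousAt.comp (f := fun q : ℝ × ℝ =>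
    (1 / 2 + ((r * Real.cos q.2 : ℝ) : ℂ) + ((q.1 + r * Real.sin q.2 : ℝ) : ℂ) * I : ℂ))
    (g := riemannZeta) (differentiableAt_riemannZeta hne).continuousAt (by fun_prop)

lemma zz_cont' {r : ℝ} (hr0 : 0 ≤ r) (hr : r ≤ 1 / 8) : Continuous fun q : ℝ × ℝ =>
    zx (r * Real.cos q.1) (q.2 + r * Real.sin q.1) := by
  unfold zx
  rw [continuous_iff_continuousAt]
  intro q
  have hne : (1 / 2 + ((r * Real.cos q.1 : ℝ) : ℂ) + ((q.2 + r * Real.sin q.1 : ℝ) : ℂ) * I : ℂ) ≠ 1 := by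
    apply ne_one''
    have h1 : r * Real.cos q.1 ≤ r * 1 := mul_le_mul_of_nonneg_left (Real.cos_le_one _) hr0
    linarith
  exact ContinuousAt.comp (f := fun q : ℝ × ℝ =>
    (1 / 2 + ((r * Real.cos q.1 : ℝ) : ℂ) + ((q.2 + r * Real.sin q.1 : ℝ) : ℂ) * I : ℂ))
    (g := riemannZeta) (differentiableAt_riemannZeta hne).continuousAt (by fun_prop)

lemma AAint_cont {lam r p : ℝ} (hp : 0 ≤ p) (hr0 : 0 ≤ r) (hr : r ≤ 1 / 8) :
    Continuous fun q : ℝ × ℝ =>
      (Real.exp (lam * (r * Real.cos q.2)) * ‖zx (r * Real.cos q.2) (q.1 + r * Real.sin q.2)‖) ^ p := by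
  apply Continuous.rpow_const _ fun _ => Or.inr hp
  exact (by fun_prop : Continuous fun q : ℝ × ℝ => Real.exp (lam * (r * Real.cos q.2))).mul
    (zz_cont hr0 hr).norm

lemma AAint_cont' {lam r p : ℝ} (hp : 0 ≤ p) (hr0 : 0 ≤ r) (hr : r ≤ 1 / 8) :
    Continuous fun q : ℝ × ℝ =>
      (Real.exp (lam * (r * Real.cos q.1)) * ‖zx (r * Real.cos q.1) (q.2 + r * Real.sin q.1)‖) ^ p := by
  apply Continuous.rpow_const _ fun _ => Or.inr hp
  exact (by fun_prop : Continuous fun q : ℝ × ℝ => Real.exp (lam * (r * Real.cos q.1))).mul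
    (zz_cont' hr0 hr).norm

/-- the integrand -/
noncomputable def II (lam r p t θ : ℝ) : ℝ :=
  (Real.exp (lam * (r * Real.cos θ)) * ‖zx (r * Real.cos θ) (t + r * Real.sin θ)‖) ^ p

lemma swap_II {lam r p : ℝ} (hp : 0 ≤ p) (hr0 : 0 ≤ r) (hr : r ≤ 1 / 8) (a b c d : ℝ) :
    ∫ t in a..b, (∫ θ in c..d, II lam r p t θ) = ∫ θ in c..d, (∫ t in a..b, II lam r p t θ) := by
  apply MeasureTheory.intervalIntegral_intervalIntegral_swap
  have h2 : Continuous (Function.uncurry fun t θ => II lam r p t θ) := AAint_cont hp hr0 hr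
  exact (h2.continuousOn.integrableOn_compact (isCompact_uIcc.prod isCompact_uIcc)).mono_set
      (Set.prod_mono uIoc_subset_uIcc uIoc_subset_uIcc)

lemma inner_cont {lam r p : ℝ} (hp : 0 ≤ p) (hr0 : 0 ≤ r) (hr : r ≤ 1 / 8) (a b : ℝ) :
    Continuous fun θ => ∫ t in a..b, II lam r p t θ := by
  have h2 : Continuous (Function.uncurry fun θ t => II lam r p t θ) := AAint_cont' hp hr0 hr
  exact intervalIntegral.continuous_parametric_intervalIntegral_of_continuous' h2 a b

lemma AA_cont {lam r p : ℝ} (hp : 0 ≤ p) (hr0 : 0 ≤ r) (hr : r ≤ 1 / 8) :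
    Continuous (AA lam r p) := by
  unfold AA
  apply Continuous.const_mul
  exact intervalIntegral.continuous_parametric_intervalIntegral_of_continuous'
    (f := fun t θ => (Real.exp (lam * (r * Real.cos θ)) *
      ‖zx (r * Real.cos θ) (t + r * Real.sin θ)‖) ^ p) (AAint_cont hp hr0 hr) 0 (2 * Real.pi)

lemma AA_nonneg (lam r p t : ℝ) : 0 ≤ AA lam r p t := by
  unfold AA
  apply mul_nonneg (by positivity)
  exact intervalIntegral.integral_nonneg (by positivity) fun θ _ => by positivity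

/-- the integral of the circle averages -/
theorem AA_int : ∃ C T₀ : ℝ, 1 ≤ C ∧ 3 ≤ T₀ ∧ ∀ (p T a b r : ℝ), 1 ≤ p → T₀ ≤ T →
    T + 1 ≤ a → a + C ^ p ≤ b → b + 1 ≤ 8 * T → 0 ≤ r → r ≤ 1 / 8 →
    ∫ t in a..b, AA (Real.log T / 2) r p t ≤
      ((1 + 4 * Real.log T / T) * Real.exp (r * (Real.log T / 2 + C)) *
        nrm p (a - 2 * Real.log T) (b + 2 * Real.log T) z) ^ p := by
  obtain ⟨C, T₀, hC, hT₀, hl⟩ := line
  refine ⟨C, T₀, hC, hT₀, ?_⟩
  intro p T a b r hp hT ha hab hb hr0 hr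
  have hT3 : 3 ≤ T := hT₀.trans hT
  have hT0 : 0 < T := by linarith
  have hp0 : 0 < p := by linarith
  set ℓ : ℝ := Real.log T with hℓ
  have hℓ1 : 1 ≤ ℓ := by
    have h1 : Real.log (Real.exp 1) ≤ Real.log T := by
      apply Real.log_le_log (Real.exp_pos _)
      have := Real.exp_one_lt_d9
      linarith
    rwa [Real.log_exp] at h1
  have hCp : 0 < C ^ p := by positivity
  have hab' : a ≤ b := by linarith
  set K : ℝ := (1 + 4 * ℓ / T) * Real.exp (r * (ℓ / 2 + C)) *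
    nrm p (a - 2 * ℓ) (b + 2 * ℓ) z with hK
  have h2pi : 0 < 2 * Real.pi := by positivity
  -- Fubini
  have h1 : ∫ t in a..b, AA (ℓ / 2) r p t = (2 * Real.pi)⁻¹ * ∫ θ in (0 : ℝ)..2 * Real.pi,
      ∫ t in a..b, II (ℓ / 2) r p t θ := by
    have e : ∀ t, AA (ℓ / 2) r p t = (2 * Real.pi)⁻¹ * ∫ θ in (0 : ℝ)..2 * Real.pi,
      II (ℓ / 2) r p t θ := fun t => rfl
    simp only [e]
    rw [intervalIntegral.integral_const_mul, swap_II hp0.le hr0 hr]
  -- each line
  have h2 : ∀ θ : ℝ, ∫ t in a..b, II (ℓ / 2) r p t θ ≤ K ^ p := by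
    intro θ
    unfold II
    set x : ℝ := r * Real.cos θ with hx
    set y : ℝ := r * Real.sin θ with hy
    have hxr : |x| ≤ r := by
      rw [hx, abs_mul, abs_of_nonneg hr0]
      have := Real.abs_cos_le_one θ
      nlinarith
    have hyr : |y| ≤ 1 := by
      rw [hy, abs_mul, abs_of_nonneg hr0]
      have := Real.abs_sin_le_one θ
      nlinarith
    have hyy := abs_le.1 hyr
    have h3 : ∀ t, (Real.exp (ℓ / 2 * x) * ‖zx x (t + y)‖) ^ p =
        Real.exp (ℓ / 2 * x) ^ p * ‖zx x (t + y)‖ ^ p := fun t =>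
      Real.mul_rpow (Real.exp_pos _).le (norm_nonneg _)
    simp only [h3]
    rw [intervalIntegral.integral_const_mul, ← nrm_pow hp0 hab' (fun t => zx x (t + y)),
      nrm_shift, ← Real.mul_rpow (Real.exp_pos _).le (nrm_nonneg (by linarith) _)]
    apply Real.rpow_le_rpow (mul_nonneg (Real.exp_pos _).le (nrm_nonneg (by linarith) _)) _ hp0.le
    have h4 := hl p T (a + y) (b + y) (ℓ / 2) x hp hT (by linarith) (by linarith) (by linarith)
      (by linarith) (by linarith) (by linarith)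
    rw [show ℓ - ℓ / 2 = ℓ / 2 by ring, max_self, Real.exp_sub] at h4
    have h5 : nrm p (a + y - ℓ) (b + y + ℓ) z ≤ nrm p (a - 2 * ℓ) (b + 2 * ℓ) z :=
      nrm_interval hp0 (by linarith) (by linarith) (by linarith) z_cont
    have h6 : Real.exp (|x| * (ℓ / 2 + C)) ≤ Real.exp (r * (ℓ / 2 + C)) := by
      rw [Real.exp_le_exp]
      exact mul_le_mul_of_nonneg_right hxr (by linarith)
    have h7 : 0 ≤ nrm p (a + y - ℓ) (b + y + ℓ) z := nrm_nonneg (by linarith) _
    have h8 := mul_le_mul_of_nonneg_left h4 (Real.exp_pos (ℓ / 2 * x)).le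
    refine h8.trans ?_
    have e : Real.exp (ℓ / 2 * x) * ((1 + 4 * ℓ / T) *
        (Real.exp (|x| * (ℓ / 2 + C)) / Real.exp (ℓ / 2 * x)) * nrm p (a + y - ℓ) (b + y + ℓ) z) =
        (1 + 4 * ℓ / T) * Real.exp (|x| * (ℓ / 2 + C)) * nrm p (a + y - ℓ) (b + y + ℓ) z := by
      field_simp
    rw [e, hK]
    apply mul_le_mul _ h5 h7 (by positivity)
    exact mul_le_mul_of_nonneg_left h6 (by positivity)
  have h3 : ∫ θ in (0 : ℝ)..2 * Real.pi, (∫ t in a..b, II (ℓ / 2) r p t θ) ≤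
      ∫ _θ in (0 : ℝ)..2 * Real.pi, K ^ p := by
    apply intervalIntegral.integral_mono_on h2pi.le _ (continuous_const.intervalIntegrable _ _)
      fun θ _ => h2 θ
    exact (inner_cont hp0.le hr0 hr a b).intervalIntegrable _ _
  rw [intervalIntegral.integral_const, smul_eq_mul, sub_zero] at h3
  rw [h1]
  calc (2 * Real.pi)⁻¹ * _ ≤ (2 * Real.pi)⁻¹ * (2 * Real.pi * K ^ p) :=
        mul_le_mul_of_nonneg_left h3 (by positivity)
    _ = K ^ p := by field_simp

/-- zeta has `n` zeros, counted with multiplicity, at distance at most `η` from `1/2 + it` -/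
def ManyZeros (n : ℕ) (η t : ℝ) : Prop :=
  ∃ (ρ : Fin n → ℂ) (h : ℂ → ℂ), (∀ i, ‖ρ i - (1 / 2 + t * I)‖ ≤ η) ∧
    DifferentiableOn ℂ h {1}ᶜ ∧ ∀ s : ℂ, s ≠ 1 → riemannZeta s = (∏ i, (s - ρ i)) * h s

lemma circ (t r θ : ℝ) : circleMap (1 / 2 + t * I) r θ =
    1 / 2 + ((r * Real.cos θ : ℝ) : ℂ) + ((t + r * Real.sin θ : ℝ) : ℂ) * I := by
  rw [circleMap, Complex.exp_mul_I]
  push_cast
  ring

/-- Jensen's inequality for zeta about a point of the critical line -/
theorem many {n : ℕ} {η t r lam p : ℝ} (hn : ManyZeros n η t) (hη : 0 ≤ η) (hr : 0 < r)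
    (hr8 : r ≤ 1 / 8) (hp : 1 ≤ p) : ‖z t‖ ^ p ≤ ((η / r) ^ n) ^ p * AA lam r p t := by
  obtain ⟨ρ, h, hρ, hd, hz⟩ := hn
  set c : ℂ := 1 / 2 + t * I with hc
  have hball : closedBall c r ⊆ ({1} : Set ℂ)ᶜ := by
    intro s hs h1
    rw [mem_singleton_iff] at h1
    rw [mem_closedBall_iff_norm, h1] at hs
    have h2 := (Complex.abs_re_le_norm (1 - c)).trans hs
    rw [hc] at h2
    norm_num at h2
    linarith
  have h1 := jens (f := fun s => cexp (lam * (s - c)) * riemannZeta s)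
    (h := fun s => cexp (lam * (s - c)) * h s) (c := c) (ρ := ρ) (U := {1}ᶜ) hr hη hp
    isOpen_compl_singleton hball (by
      apply DifferentiableOn.mul _ hd
      intro s _
      apply DifferentiableAt.differentiableWithinAt
      fun_prop) (by
      intro s hs
      rw [hz s hs]
      ring) hρ
  simp only [sub_self, mul_zero, Complex.exp_zero, one_mul] at h1
  refine h1.trans (le_of_eq ?_)
  congr 1
  unfold AA
  congr 1
  apply intervalIntegral.integral_congr
  intro θ _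
  show ‖cexp (lam * (circleMap c r θ - c)) * riemannZeta (circleMap c r θ)‖ ^ p =
    (Real.exp (lam * (r * Real.cos θ)) * ‖zx (r * Real.cos θ) (t + r * Real.sin θ)‖) ^ p
  congr 1
  rw [norm_mul, hc, circ]
  unfold zx
  congr 1
  rw [Complex.norm_exp]
  congr 1
  have e : (lam * (1 / 2 + ((r * Real.cos θ : ℝ) : ℂ) + ((t + r * Real.sin θ : ℝ) : ℂ) * I -
      (1 / 2 + t * I)) : ℂ) = ((lam * (r * Real.cos θ) : ℝ) : ℂ) +
        ((lam * (r * Real.sin θ) : ℝ) : ℂ) * I := by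
    push_cast
    ring
  rw [e, Complex.add_re, Complex.ofReal_re, Complex.re_ofReal_mul, Complex.I_re, mul_zero, add_zero]

end Pool.Agent.Q85.Mom
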