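import Mathlib
import Pool.Agent.Q85.Mom.Disc

set_option autoImplicit false

/-!
# Local maxima over complex discs
-/

open Complex Set Filter Topology MeasureTheory Metric

namespace Pool.Agent.Q85.Mom

/-- subharmonicity of `|f|^p`, with the Poisson kernel -/
theorem poi_sub {f : ℂ → ℂ} {c w : ℂ} {R p : ℝ} (hp : 1 ≤ p) (hf : DiffContOnCl ℂ f (ball c R))
    (hw : ‖w - c‖ < R) :
    ‖f w‖ ^ p ≤ (R + ‖w - c‖) / (R - ‖w - c‖) *
      ((2 * Real.pi)⁻¹ * ∫ θ in (0 : ℝ)..2 * Real.pi, ‖f (circleMap c R θ)‖ ^ p) := by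
  have hR : 0 < R := (norm_nonneg _).trans_lt hw
  have hp0 : 0 < p := by linarith
  have h2pi : 0 < 2 * Real.pi := by positivity
  have hwb : w ∈ ball c R := by rwa [mem_ball_iff_norm]
  have hsph : ∀ θ, circleMap c R θ ∈ sphere c R := circleMap_mem_sphere c hR.le
  set k : ℝ → ℝ := fun θ => (((circleMap c R θ - c + (w - c)) /
    ((circleMap c R θ - c) - (w - c))) : ℂ).re with hk
  have hne : ∀ θ, (circleMap c R θ - c) - (w - c) ≠ 0 := by
    intro θ h
    have h1 : circleMap c R θ - c = w - c := sub_eq_zero.1 h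
    have h2 := hsph θ
    rw [mem_sphere_iff_norm, h1] at h2
    linarith
  have hkc : Continuous k := by
    apply Complex.continuous_re.comp
    exact Continuous.div (by fun_prop) (by fun_prop) hne
  have hk0 : ∀ θ, 0 < k θ := by
    intro θ
    have := le_re_herglotzRieszKernel (hsph θ) hwb
    refine lt_of_lt_of_le ?_ this
    have h1 : 0 < R - ‖w - c‖ := by linarith
    positivity
  have hk1 : ∀ θ, k θ ≤ (R + ‖w - c‖) / (R - ‖w - c‖) := fun θ =>
    re_herglotzRieszKernel_le (hsph θ) hwb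
  -- total mass
  have hmass : ∫ θ in (0 : ℝ)..2 * Real.pi, k θ = 2 * Real.pi := by
    have h1 := (diffContOnCl_const (𝕜 := ℂ) (s := ball c R) (c := (1 : ℂ))).circleAverage_re_herglotzRieszKernel_smul' hwb
    rw [Real.circleAverage_def] at h1
    have h2 : ∫ θ in (0 : ℝ)..2 * Real.pi, (fun z : ℂ => ((z - c + (w - c)) /
        ((z - c) - (w - c))).re • (1 : ℂ)) (circleMap c R θ) =
        ((∫ θ in (0 : ℝ)..2 * Real.pi, k θ : ℝ) : ℂ) := by
      rw [← intervalIntegral.integral_ofReal]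
      congr 1
      funext θ
      simp only [hk, Complex.real_smul, mul_one]
    rw [h2, Complex.real_smul, ← Complex.ofReal_mul] at h1
    have h3 : (2 * Real.pi)⁻¹ * ∫ θ in (0 : ℝ)..2 * Real.pi, k θ = 1 := by exact_mod_cast h1
    field_simp at h3
    linarith
  -- the function on the circle
  have hcc : ContinuousOn f (closedBall c R) := by
    have := hf.continuousOn
    rwa [closure_ball c hR.ne'] at this
  have hfc : Continuous fun θ => f (circleMap c R θ) :=
    ContinuousOn.comp_continuous hcc (continuous_circleMap c R)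
      (fun θ => sphere_subset_closedBall (hsph θ))
  have hrep := hf.circleAverage_re_herglotzRieszKernel_smul' hwb
  rw [Real.circleAverage_def] at hrep
  have hnorm : ‖f w‖ ≤ (2 * Real.pi)⁻¹ * ∫ θ in (0 : ℝ)..2 * Real.pi, k θ * ‖f (circleMap c R θ)‖ := by
    rw [← hrep, norm_smul, Real.norm_eq_abs, abs_of_pos (by positivity)]
    apply mul_le_mul_of_nonneg_left _ (by positivity)
    refine (intervalIntegral.norm_integral_le_integral_norm h2pi.le).trans (le_of_eq ?_)
    congr 1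
    funext θ
    rw [norm_smul, Real.norm_eq_abs]
    congr 1
    exact abs_of_pos (hk0 θ)
  -- Hölder
  have hF : Continuous fun θ => (((k θ) ^ (1 / p) : ℝ) : ℂ) :=
    Complex.continuous_ofReal.comp (hkc.rpow_const fun θ => Or.inl (hk0 θ).ne')
  have hH := holder hp h2pi.le (F := fun θ => (((k θ) ^ (1 / p) : ℝ) : ℂ))
    (G := fun θ => (((k θ) ^ (1 / p) : ℝ) : ℂ) * f (circleMap c R θ)) hF (hF.mul hfc)
  have e1 : ∀ θ, ‖(((k θ) ^ (1 / p) : ℝ) : ℂ)‖ = (k θ) ^ (1 / p) := by
    intro θ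
    rw [Complex.norm_real, Real.norm_eq_abs, abs_of_pos (Real.rpow_pos_of_pos (hk0 θ) _)]
  have e2 : ∀ θ, ‖(((k θ) ^ (1 / p) : ℝ) : ℂ)‖ ^ (p - 1) *
      ‖(((k θ) ^ (1 / p) : ℝ) : ℂ) * f (circleMap c R θ)‖ = k θ * ‖f (circleMap c R θ)‖ := by
    intro θ
    rw [norm_mul, e1, ← mul_assoc, ← Real.rpow_mul (hk0 θ).le, ← Real.rpow_add (hk0 θ)]
    have : 1 / p * (p - 1) + 1 / p = 1 := by field_simp; ring
    rw [this, Real.rpow_one]
  have e3 : ∀ θ, ‖(((k θ) ^ (1 / p) : ℝ) : ℂ)‖ ^ p = k θ := by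
    intro θ
    rw [e1, ← Real.rpow_mul (hk0 θ).le, one_div, inv_mul_cancel₀ hp0.ne', Real.rpow_one]
  have e4 : ∀ θ, ‖(((k θ) ^ (1 / p) : ℝ) : ℂ) * f (circleMap c R θ)‖ ^ p =
      k θ * ‖f (circleMap c R θ)‖ ^ p := by
    intro θ
    rw [norm_mul, Real.mul_rpow (norm_nonneg _) (norm_nonneg _), e3]
  simp only [e2, e3] at hH
  unfold nrm at hH
  simp only [e4] at hH
  rw [hmass] at hH
  set S : ℝ := ∫ θ in (0 : ℝ)..2 * Real.pi, k θ * ‖f (circleMap c R θ)‖ ^ p with hS
  have hS0 : 0 ≤ S := intervalIntegral.integral_nonneg h2pi.le fun θ _ =>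
    mul_nonneg (hk0 θ).le (by positivity)
  have h1 : ‖f w‖ ^ p ≤ (2 * Real.pi)⁻¹ * S := by
    have h2 : ‖f w‖ ≤ (2 * Real.pi)⁻¹ * ((2 * Real.pi) ^ (1 - 1 / p) * S ^ (1 / p)) :=
      hnorm.trans (mul_le_mul_of_nonneg_left hH (by positivity))
    have h3 := Real.rpow_le_rpow (norm_nonneg _) h2 hp0.le
    refine h3.trans (le_of_eq ?_)
    rw [← mul_assoc, Real.mul_rpow (by positivity) (by positivity), ← Real.rpow_mul hS0, one_div,
      inv_mul_cancel₀ hp0.ne', Real.rpow_one]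
    congr 1
    rw [← Real.rpow_neg_one, ← Real.rpow_add h2pi, ← Real.rpow_mul h2pi.le]
    congr 1
    field_simp
    ring
  refine h1.trans ?_
  have h2 : S ≤ (R + ‖w - c‖) / (R - ‖w - c‖) * ∫ θ in (0 : ℝ)..2 * Real.pi,
      ‖f (circleMap c R θ)‖ ^ p := by
    rw [hS, ← intervalIntegral.integral_const_mul]
    have hcp : Continuous fun θ => ‖f (circleMap c R θ)‖ ^ p := cont_pow hp0.le hfc
    apply intervalIntegral.integral_mono_on h2pi.le
    · exact (hkc.mul hcp).intervalIntegrable _ _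
    · exact (hcp.const_mul _).intervalIntegrable _ _
    · intro θ _
      exact mul_le_mul_of_nonneg_right (hk1 θ) (by positivity)
  calc (2 * Real.pi)⁻¹ * S ≤ (2 * Real.pi)⁻¹ * _ := mul_le_mul_of_nonneg_left h2 (by positivity)
    _ = _ := by ring

/-- local maxima -/
theorem peak {t r ρ lam p : ℝ} {w : ℂ} (hr8 : r ≤ 1 / 8) (hp : 1 ≤ p) (hw : ‖w‖ ≤ ρ)
    (hρ : ρ < r) :
    (Real.exp (lam * w.re) * ‖riemannZeta (1 / 2 + t * I + w)‖) ^ p ≤
      (r + ρ) / (r - ρ) * AA lam r p t := by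
  have hr : 0 < r := (norm_nonneg w).trans_lt (lt_of_le_of_lt hw hρ)
  set c : ℂ := 1 / 2 + t * I with hc
  have hball : closedBall c r ⊆ ({1} : Set ℂ)ᶜ := by
    intro s hs h1
    rw [mem_singleton_iff] at h1
    rw [mem_closedBall_iff_norm, h1] at hs
    have h2 := (Complex.abs_re_le_norm (1 - c)).trans hs
    rw [hc] at h2
    norm_num at h2
    linarith
  set f : ℂ → ℂ := fun s => cexp (lam * (s - c)) * riemannZeta s with hf
  have hfd : DifferentiableOn ℂ f ({1} : Set ℂ)ᶜ := by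
    intro s hs
    have h1 : DifferentiableAt ℂ riemannZeta s := differentiableAt_riemannZeta (by simpa using hs)
    have h2 : DifferentiableAt ℂ (fun s => cexp (lam * (s - c))) s := by fun_prop
    exact (h2.mul h1).differentiableWithinAt
  have hdcl : DiffContOnCl ℂ f (ball c r) := by
    refine ⟨hfd.mono (ball_subset_closedBall.trans hball), ?_⟩
    rw [closure_ball c hr.ne']
    exact hfd.continuousOn.mono hball
  have h1 := poi_sub hp hdcl (w := c + w) (by
    rw [add_sub_cancel_left]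
    exact lt_of_le_of_lt hw hρ)
  rw [add_sub_cancel_left] at h1
  have e1 : ‖f (c + w)‖ = Real.exp (lam * w.re) * ‖riemannZeta (1 / 2 + t * I + w)‖ := by
    rw [hf]
    simp only
    rw [norm_mul, add_sub_cancel_left, Complex.norm_exp, Complex.re_ofReal_mul, hc]
  rw [e1] at h1
  have e2 : (2 * Real.pi)⁻¹ * ∫ θ in (0 : ℝ)..2 * Real.pi, ‖f (circleMap c r θ)‖ ^ p =
      AA lam r p t := by
    unfold AA
    congr 1
    apply intervalIntegral.integral_congr
    intro θ _
    show ‖cexp (lam * (circleMap c r θ - c)) * riemannZeta (circleMap c r θ)‖ ^ p =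
      (Real.exp (lam * (r * Real.cos θ)) * ‖zx (r * Real.cos θ) (t + r * Real.sin θ)‖) ^ p
    congr 1
    rw [norm_mul, hc, circ]
    unfold zx
    congr 1
    rw [Complex.norm_exp]
    congr 1
    have e : (lam * (1 / 2 + ((r * Real.cos θ : ℝ) : ℂ) + ((t + r * Real.sin θ : ℝ) : ℂ) * I -
        (1 / 2 + t * I)) : ℂ) = ((lam * (r * Real.cos θ) : ℝ) : ℂ) +
          ((lam * (r * Real.sin θ) : ℝ) : ℂ) * I := by
      push_cast
      ring
    rw [e, Complex.add_re, Complex.ofReal_re, Complex.re_ofReal_mul, Complex.I_re, mul_zero,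
      add_zero]
  rw [e2] at h1
  refine h1.trans ?_
  apply mul_le_mul_of_nonneg_right _ (AA_nonneg _ _ _ _)
  have h3 : 0 < r - ‖w‖ := by linarith
  exact div_le_div₀ (by linarith [norm_nonneg w]) (by linarith) (by linarith) (by linarith)

end Pool.Agent.Q85.Mom
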