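import Mathlib
import Pool.Agent.Q85.Mom.Var

set_option autoImplicit false

/-!
# Shifts
-/

open Complex Set Filter Topology MeasureTheory

namespace Pool.Agent.Q85.Mom

section general

variable {f f' : ℝ → ℂ}

/-- the `L^p` modulus of continuity -/
theorem shift_le {p : ℝ} (hp : 1 ≤ p) (hf : ∀ t, HasDerivAt f (f' t) t) (hc : Continuous f')
    {a b u v : ℝ} (hab : a ≤ b) (hvu : v ≤ u) :
    nrm p a b (fun t => f (t + u) - f (t + v)) ≤ (u - v) * nrm p (a + v) (b + u) f' := by
  have hp0 : 0 < p := by linarith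
  have hfc : Continuous f := continuous_iff_continuousAt.2 fun t => (hf t).continuousAt
  have hd : 0 ≤ u - v := by linarith
  have i2 : Continuous fun t => ‖f' t‖ ^ p := cont_pow hp0.le hc
  have h1 : ∀ t, ‖f (t + u) - f (t + v)‖ ^ p ≤ (u - v) ^ (p - 1) * ∫ r in v..u, ‖f' (t + r)‖ ^ p := by
    intro t
    have h2 := diff_pow hp hf hc (x := t + v) (y := t + u) (by linarith)
    have e : ∫ r in v..u, ‖f' (t + r)‖ ^ p = ∫ r in (t + v)..(t + u), ‖f' r‖ ^ p := by
      rw [intervalIntegral.integral_comp_add_left (fun r => ‖f' r‖ ^ p)]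
    rw [e]
    rwa [show t + u - (t + v) = u - v by ring] at h2
  have hcont2 : Continuous (Function.uncurry fun t r : ℝ => ‖f' (t + r)‖ ^ p) := by
    have : Continuous fun x : ℝ × ℝ => ‖f' (x.1 + x.2)‖ ^ p :=
      i2.comp (continuous_fst.add continuous_snd)
    exact this
  have hcint : Continuous fun t => ∫ r in v..u, ‖f' (t + r)‖ ^ p :=
    intervalIntegral.continuous_parametric_intervalIntegral_of_continuous' hcont2 v u
  have h3 : ∫ t in a..b, ‖f (t + u) - f (t + v)‖ ^ p ≤
      (u - v) ^ (p - 1) * ∫ t in a..b, ∫ r in v..u, ‖f' (t + r)‖ ^ p := by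
    rw [← intervalIntegral.integral_const_mul]
    apply intervalIntegral.integral_mono_on hab
    · apply Continuous.intervalIntegrable
      exact cont_pow hp0.le ((hfc.comp (by fun_prop)).sub (hfc.comp (by fun_prop)))
    · exact (hcint.const_mul _).intervalIntegrable _ _
    · intro t _
      exact h1 t
  have h4 : ∫ t in a..b, ∫ r in v..u, ‖f' (t + r)‖ ^ p =
      ∫ r in v..u, ∫ t in a..b, ‖f' (t + r)‖ ^ p := by
    apply intervalIntegral_intervalIntegral_swap
    apply (hcont2.integrableOn_Icc (a := (min a b, min v u)) (b := (max a b, max v u))).mono_set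
    rintro ⟨x, y⟩ ⟨hx, hy⟩
    exact ⟨⟨hx.1.le, hy.1.le⟩, ⟨hx.2, hy.2⟩⟩
  have h5 : ∫ r in v..u, ∫ t in a..b, ‖f' (t + r)‖ ^ p ≤
      ∫ r in v..u, ∫ t in (a + v)..(b + u), ‖f' t‖ ^ p := by
    apply intervalIntegral.integral_mono_on hvu
    · apply Continuous.intervalIntegrable
      have hcont3 : Continuous (Function.uncurry fun r t : ℝ => ‖f' (t + r)‖ ^ p) := by
        have : Continuous fun x : ℝ × ℝ => ‖f' (x.2 + x.1)‖ ^ p :=
          i2.comp (continuous_snd.add continuous_fst)
        exact this
      exact intervalIntegral.continuous_parametric_intervalIntegral_of_continuous' hcont3 a b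
    · exact continuous_const.intervalIntegrable _ _
    · intro r hr
      rw [intervalIntegral.integral_comp_add_right (fun t => ‖f' t‖ ^ p)]
      apply intervalIntegral.integral_mono_interval (by linarith [hr.1]) (by linarith)
        (by linarith [hr.2])
      · exact Filter.Eventually.of_forall fun t => by positivity
      · exact i2.intervalIntegrable _ _
  rw [intervalIntegral.integral_const, smul_eq_mul] at h5
  have hJ := int_nonneg (p := p) (a := a + v) (b := b + u) (by linarith) f'
  have h6 : ∫ t in a..b, ‖f (t + u) - f (t + v)‖ ^ p ≤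
      (u - v) ^ p * ∫ t in (a + v)..(b + u), ‖f' t‖ ^ p := by
    rcases hd.eq_or_lt with h7 | h7
    · have : u = v := by linarith
      rw [this]
      simp [Real.zero_rpow hp0.ne']
    · refine h3.trans ?_
      rw [h4]
      refine (mul_le_mul_of_nonneg_left h5 (by positivity)).trans (le_of_eq ?_)
      rw [← mul_assoc]
      congr 1
      rw [Real.rpow_sub h7, Real.rpow_one]
      field_simp
  unfold nrm
  refine (Real.rpow_le_rpow (int_nonneg hab _) h6 (by positivity)).trans (le_of_eq ?_)
  rw [Real.mul_rpow (by positivity) hJ, ← Real.rpow_mul hd, mul_one_div, div_self hp0.ne',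
    Real.rpow_one]

end general

end Pool.Agent.Q85.Mom
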