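import Mathlib
import Pool.Agent.Q85.Mom.Disc2
import Pool.Agent.Q85.Mom.Shift

set_option autoImplicit false

/-!
# Minkowski's inequality for integrals, Taylor's formula, Landau's inequality
-/

open Filter Topology Set MeasureTheory Complex

namespace Pool.Agent.Q85.Mom

/-- Minkowski's inequality for integrals -/
lemma mink {p : ℝ} (hp : 1 ≤ p) {a b c d : ℝ} (hab : a ≤ b) (hcd : c ≤ d) {G : ℝ → ℝ → ℂ}
    (hG : Continuous fun q : ℝ × ℝ => G q.1 q.2) :
    nrm p a b (fun t => ∫ u in c..d, G t u) ≤ ∫ u in c..d, nrm p a b (fun t => G t u) := by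
  have hp0 : 0 < p := by linarith
  have hFc : Continuous fun t => ∫ u in c..d, G t u :=
    intervalIntegral.continuous_parametric_intervalIntegral_of_continuous' hG c d
  obtain ⟨w, w1, ⟨B, hB⟩, w3, w4⟩ := dual hp hab hFc
  have h2 : nrm p a b (fun t => ∫ u in c..d, G t u) =
      ‖((nrm p a b (fun t => ∫ u in c..d, G t u) : ℝ) : ℂ)‖ := by
    rw [Complex.norm_real, Real.norm_eq_abs, abs_of_nonneg (nrm_nonneg hab _)]
  rw [h2, ← w3]
  have e1 : ∫ t in a..b, w t * ∫ u in c..d, G t u = ∫ t in a..b, ∫ u in c..d, w t * G t u := by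
    congr 1
    funext t
    rw [intervalIntegral.integral_const_mul]
  have e2 : ∫ t in a..b, (∫ u in c..d, w t * G t u) = ∫ u in c..d, (∫ t in a..b, w t * G t u) := by
    apply intervalIntegral_intervalIntegral_swap
    obtain ⟨M, hM⟩ := (isCompact_Icc (a := (a, c)) (b := (b, d))).exists_bound_of_continuousOn
      hG.continuousOn
    have hsub : uIoc a b ×ˢ uIoc c d ⊆ Icc (a, c) (b, d) := by
      rintro ⟨x, y⟩ ⟨hx, hy⟩
      rw [uIoc_of_le hab] at hx
      rw [uIoc_of_le hcd] at hy
      exact ⟨⟨hx.1.le, hy.1.le⟩, ⟨hx.2, hy.2⟩⟩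
    have hfin : volume (uIoc a b ×ˢ uIoc c d : Set (ℝ × ℝ)) < ⊤ :=
      lt_of_le_of_lt (measure_mono hsub) isCompact_Icc.measure_lt_top
    have hbd : ∀ q ∈ uIoc a b ×ˢ uIoc c d, ‖Function.uncurry (fun t u => w t * G t u) q‖ ≤ B * M := by
      rintro ⟨x, y⟩ hq
      have hq2 := hsub hq
      simp only [Function.uncurry]
      rw [norm_mul]
      have hx : x ∈ Icc a b := ⟨hq2.1.1, hq2.2.1⟩
      exact mul_le_mul (hB x hx) (hM (x, y) hq2) (norm_nonneg _) ((norm_nonneg _).trans (hB x hx))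
    have hmeas : AEStronglyMeasurable (Function.uncurry (fun t u => w t * G t u))
        (volume.restrict (uIoc a b ×ˢ uIoc c d)) := by
      apply AEStronglyMeasurable.mul
      · exact (w1.comp measurable_fst).aestronglyMeasurable
      · exact hG.aestronglyMeasurable
    have : IsFiniteMeasure (volume.restrict (uIoc a b ×ˢ uIoc c d : Set (ℝ × ℝ))) :=
      ⟨by rw [Measure.restrict_apply_univ]; exact hfin⟩
    refine Integrable.of_bound hmeas (B * M) ?_
    filter_upwards [ae_restrict_mem (measurableSet_uIoc.prod measurableSet_uIoc)] with q hq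
    exact hbd q hq
  rw [e1, e2]
  refine (intervalIntegral.norm_integral_le_integral_norm hcd).trans ?_
  have hc2 : Continuous fun u => nrm p a b (fun t => G t u) := by
    unfold nrm
    apply Continuous.rpow_const _ fun u => Or.inr (by positivity)
    have h3 : Continuous (Function.uncurry fun u t : ℝ => ‖G t u‖ ^ p) := by
      have h4 : Continuous fun q : ℝ × ℝ => G q.2 q.1 := hG.comp (continuous_snd.prodMk continuous_fst)
      exact h4.norm.rpow_const fun _ => Or.inr hp0.le
    exact intervalIntegral.continuous_parametric_intervalIntegral_of_continuous' h3 a b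
  have h5 : ∀ u, ‖∫ t in a..b, w t * G t u‖ ≤ nrm p a b (fun t => G t u) := fun u =>
    w4 _ (hG.comp (continuous_id.prodMk continuous_const))
  rw [intervalIntegral.integral_of_le hcd, intervalIntegral.integral_of_le hcd]
  apply integral_mono_of_nonneg
  · exact Filter.Eventually.of_forall fun u => norm_nonneg _
  · have := hc2.intervalIntegrable (μ := volume) c d
    rwa [intervalIntegrable_iff_integrableOn_Ioc_of_le hcd] at this
  · exact Filter.Eventually.of_forall h5

/-- Taylor's formula -/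
lemma taylor {f f1 f2 : ℝ → ℂ} (h1 : ∀ t, HasDerivAt f (f1 t) t) (h2 : ∀ t, HasDerivAt f1 (f2 t) t)
    (hc2 : Continuous f2) (t u : ℝ) :
    f (t + u) - f t - u * f1 t = ∫ s in (0 : ℝ)..1, (u : ℂ) ^ 2 * (1 - s) * f2 (t + s * u) := by
  have hd : ∀ s : ℝ, HasDerivAt (fun s : ℝ => f (t + s * u) + (u : ℂ) * (1 - s) * f1 (t + s * u))
      ((u : ℂ) ^ 2 * (1 - s) * f2 (t + s * u)) s := by
    intro s
    have e : HasDerivAt (fun s : ℝ => t + s * u) u s := by
      have := ((hasDerivAt_id s).mul_const u).const_add t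
      simpa using this
    have e1 : HasDerivAt (fun s : ℝ => f (t + s * u)) (u • f1 (t + s * u)) s :=
      HasDerivAt.scomp s (h1 (t + s * u)) e
    have e2 : HasDerivAt (fun s : ℝ => f1 (t + s * u)) (u • f2 (t + s * u)) s :=
      HasDerivAt.scomp s (h2 (t + s * u)) e
    have e3 : HasDerivAt (fun s : ℝ => (u : ℂ) * (1 - (s : ℂ))) (-(u : ℂ)) s := by
      have h3 := ((Complex.ofRealCLM.hasDerivAt (x := s)).const_sub (1 : ℂ)).const_mul (u : ℂ)
      simpa using h3
    have h4 := e1.add (e3.mul e2)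
    refine h4.congr_deriv ?_
    simp only [Complex.real_smul]
    ring
  have hci : Continuous fun s : ℝ => (u : ℂ) ^ 2 * (1 - s) * f2 (t + s * u) := by
    have : Continuous fun s : ℝ => f2 (t + s * u) := hc2.comp (by fun_prop)
    exact (by fun_prop : Continuous fun s : ℝ => (u : ℂ) ^ 2 * (1 - (s : ℂ))).mul this
  rw [intervalIntegral.integral_eq_sub_of_hasDerivAt (fun s _ => hd s) (hci.intervalIntegrable _ _)]
  simp
  ring

lemma taylor_nrm {p : ℝ} (hp : 1 ≤ p) {f f1 f2 : ℝ → ℂ} (h1 : ∀ t, HasDerivAt f (f1 t) t)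
    (h2 : ∀ t, HasDerivAt f1 (f2 t) t) (hc2 : Continuous f2) {a b u Q : ℝ} (hab : a ≤ b)
    (hu : |u| ≤ 1) (hQ : nrm p (a - 1) (b + 1) f2 ≤ Q) :
    nrm p a b (fun t => f (t + u) - f t - u * f1 t) ≤ u ^ 2 / 2 * Q := by
  have hp0 : 0 < p := by linarith
  have huu := abs_le.1 hu
  have e : (fun t => f (t + u) - f t - u * f1 t) =
      fun t => ∫ s in (0 : ℝ)..1, (u : ℂ) ^ 2 * (1 - s) * f2 (t + s * u) := by
    funext t
    exact taylor h1 h2 hc2 t u
  rw [e]
  have hGc : Continuous fun q : ℝ × ℝ => (u : ℂ) ^ 2 * (1 - (q.2 : ℂ)) * f2 (q.1 + q.2 * u) := by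
    have : Continuous fun q : ℝ × ℝ => f2 (q.1 + q.2 * u) := hc2.comp (by fun_prop)
    exact (by fun_prop : Continuous fun q : ℝ × ℝ => (u : ℂ) ^ 2 * (1 - (q.2 : ℂ))).mul this
  refine (mink hp hab zero_le_one (G := fun t s => (u : ℂ) ^ 2 * (1 - (s : ℂ)) * f2 (t + s * u))
    hGc).trans ?_
  have h3 : ∀ s ∈ Icc (0 : ℝ) 1,
      nrm p a b (fun t => (u : ℂ) ^ 2 * (1 - (s : ℂ)) * f2 (t + s * u)) ≤ u ^ 2 * (1 - s) * Q := by
    intro s hs
    have hsu : |s * u| ≤ 1 := by
      rw [abs_mul, abs_of_nonneg hs.1]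
      nlinarith [hs.2, abs_nonneg u]
    have hsu2 := abs_le.1 hsu
    have h4 : nrm p a b (fun t => (u : ℂ) ^ 2 * (1 - (s : ℂ)) * f2 (t + s * u)) ≤
        (u ^ 2 * (1 - s)) * nrm p a b (fun t => f2 (t + s * u)) := by
      have hs1 : 0 ≤ 1 - s := by linarith [hs.2]
      refine nrm_mono hp0 hab ?_ (hc2.comp (by fun_prop)) (by positivity) fun t _ => ?_
      · exact continuous_const.mul (hc2.comp (by fun_prop))
      · have e5 : ((u : ℂ) ^ 2 * (1 - (s : ℂ))) = ((u ^ 2 * (1 - s) : ℝ) : ℂ) := by push_cast; ring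
        simp only [e5]
        rw [norm_mul, Complex.norm_real, Real.norm_eq_abs, abs_of_nonneg (by positivity)]
        exact le_rfl
    refine h4.trans (mul_le_mul_of_nonneg_left ?_ (mul_nonneg (sq_nonneg _) (by linarith [hs.2])))
    rw [nrm_shift]
    exact (nrm_interval hp0 (by linarith) (by linarith) (by linarith) hc2).trans hQ
  have h4 : ∫ s in (0 : ℝ)..1, nrm p a b (fun t => (u : ℂ) ^ 2 * (1 - (s : ℂ)) * f2 (t + s * u)) ≤
      ∫ s in (0 : ℝ)..1, u ^ 2 * (1 - s) * Q := by
    rw [intervalIntegral.integral_of_le zero_le_one, intervalIntegral.integral_of_le zero_le_one]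
    apply integral_mono_of_nonneg
    · exact Filter.Eventually.of_forall fun s => nrm_nonneg hab _
    · have h5 : Continuous fun s : ℝ => u ^ 2 * (1 - s) * Q := by fun_prop
      have := h5.intervalIntegrable (μ := volume) 0 1
      rwa [intervalIntegrable_iff_integrableOn_Ioc_of_le zero_le_one] at this
    · filter_upwards [ae_restrict_mem measurableSet_Ioc] with s hs
      exact h3 s ⟨hs.1.le, hs.2⟩
  refine h4.trans (le_of_eq ?_)
  have e9 : ∫ x in (0 : ℝ)..1, (1 - x) = 1 / 2 := by
    rw [intervalIntegral.integral_comp_sub_left (fun x : ℝ => x) (1 : ℝ), integral_id]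
    norm_num
  rw [intervalIntegral.integral_mul_const, intervalIntegral.integral_const_mul, e9]
  ring

/-- Landau's inequality -/
lemma landau {p : ℝ} (hp : 1 ≤ p) {f f1 f2 : ℝ → ℂ} (h1 : ∀ t, HasDerivAt f (f1 t) t)
    (h2 : ∀ t, HasDerivAt f1 (f2 t) t) (hc2 : Continuous f2) {a b h : ℝ} (hab : a ≤ b)
    (hh : 0 < h) (hh1 : h ≤ 1) :
    nrm p a b f1 ≤ 2 / h * nrm p (a - 1) (b + 1) f + h / 2 * nrm p (a - 1) (b + 1) f2 := by
  have hp0 : 0 < p := by linarith
  have hfc : Continuous f := continuous_iff_continuousAt.2 fun t => (h1 t).continuousAt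
  have hf1c : Continuous f1 := continuous_iff_continuousAt.2 fun t => (h2 t).continuousAt
  have h3 := taylor_nrm hp h1 h2 hc2 (u := h) hab (by rwa [abs_of_pos hh]) le_rfl
  set R : ℝ → ℂ := fun t => f (t + h) - f t - h * f1 t with hR
  have hfh : Continuous fun t => f (t + h) := hfc.comp (by fun_prop)
  have hRc : Continuous R := (hfh.sub hfc).sub (continuous_const.mul hf1c)
  have h4 : nrm p a b (fun t => (h : ℂ) * f1 t) ≤
      nrm p a b (fun t => f (t + h)) + nrm p a b f + nrm p a b R := by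
    have e : (fun t => (h : ℂ) * f1 t) = fun t => (f (t + h) + (-1 : ℂ) * f t) + (-1 : ℂ) * R t := by
      funext t
      rw [hR]
      ring
    rw [e]
    have g1 : Continuous fun t => (-1 : ℂ) * f t := continuous_const.mul hfc
    have g2 : Continuous fun t => (-1 : ℂ) * R t := continuous_const.mul hRc
    refine (nrm_add hp hab (hfh.add g1) g2).trans ?_
    have h5 : nrm p a b (fun t => (-1 : ℂ) * R t) = nrm p a b R :=
      nrm_congr hab fun t _ => by rw [norm_mul, norm_neg, norm_one, one_mul]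
    have h6 : nrm p a b (fun t => (-1 : ℂ) * f t) = nrm p a b f :=
      nrm_congr hab fun t _ => by rw [norm_mul, norm_neg, norm_one, one_mul]
    have h7 := nrm_add hp hab hfh g1
    rw [h6] at h7
    rw [h5]
    have h8 : nrm p a b ((fun t => f (t + h)) + fun t => (-1 : ℂ) * f t) =
      nrm p a b (fun t => f (t + h) + (-1 : ℂ) * f t) := rfl
    linarith
  have h5 : h * nrm p a b f1 ≤ nrm p a b (fun t => (h : ℂ) * f1 t) := by
    have g1 : Continuous fun t => (h : ℂ) * f1 t := continuous_const.mul hf1c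
    have h6 := nrm_mono (K := 1 / h) hp0 hab hf1c g1 (by positivity) fun t _ => by
      rw [norm_mul, Complex.norm_real, Real.norm_eq_abs, abs_of_pos hh]
      field_simp
      exact le_rfl
    have h7 := mul_le_mul_of_nonneg_left h6 hh.le
    rwa [← mul_assoc, mul_one_div, div_self hh.ne', one_mul] at h7
  have h6 : nrm p a b (fun t => f (t + h)) ≤ nrm p (a - 1) (b + 1) f := by
    rw [nrm_shift]
    exact nrm_interval hp0 (by linarith) (by linarith) (by linarith) hfc
  have h7 : nrm p a b f ≤ nrm p (a - 1) (b + 1) f :=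
    nrm_interval hp0 (by linarith) hab (by linarith) hfc
  have h8 : h * nrm p a b f1 ≤ 2 * nrm p (a - 1) (b + 1) f +
      h ^ 2 / 2 * nrm p (a - 1) (b + 1) f2 := by linarith
  have h9 : nrm p a b f1 ≤ (2 * nrm p (a - 1) (b + 1) f +
      h ^ 2 / 2 * nrm p (a - 1) (b + 1) f2) / h := by
    rw [le_div_iff₀ hh]
    linarith
  refine h9.trans (le_of_eq ?_)
  field_simp

end Pool.Agent.Q85.Mom
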