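import Mathlib
import Pool.Agent.Q85.Mom.Tay
import Pool.Agent.Q85.Mom.Rolle

set_option autoImplicit false

/-!
# The derivatives of zeta on the critical line
-/

open Filter Topology Set MeasureTheory Complex Metric

namespace Pool.Agent.Q85.Mom

open Pool.Agent.W188

/-- the `j`-th derivative on the critical line -/
noncomputable def yy (j : ℕ) (t : ℝ) : ℂ := iteratedDeriv j riemannZeta (1 / 2 + t * I)

lemma yy_zero : yy 0 = z := by
  funext t
  unfold yy z
  rw [iteratedDeriv_zero]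

lemma yy_one : yy 1 = z1 := by
  funext t
  unfold yy z1
  rw [iteratedDeriv_one]

lemma zeta_an {s : ℂ} (hs : s ≠ 1) (j : ℕ) : AnalyticAt ℂ (iteratedDeriv j riemannZeta) s := by
  have h1 : AnalyticAt ℂ riemannZeta s := by
    rw [Complex.analyticAt_iff_eventually_differentiableAt]
    filter_upwards [isOpen_compl_singleton.mem_nhds (show s ∈ ({1} : Set ℂ)ᶜ by simpa using hs)]
      with w hw
    exact differentiableAt_riemannZeta (by simpa using hw)
  rw [iteratedDeriv_eq_iterate]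
  exact h1.iterated_deriv j

lemma yy_der (j : ℕ) (t : ℝ) : HasDerivAt (yy j) (yy (j + 1) t * I) t := by
  have h1 : HasDerivAt (iteratedDeriv j riemannZeta) (iteratedDeriv (j + 1) riemannZeta (1 / 2 + t * I))
      (1 / 2 + t * I) := by
    rw [iteratedDeriv_succ]
    exact (zeta_an (ne_one t) j).differentiableAt.hasDerivAt
  have h2 : HasDerivAt (fun t : ℝ => (1 / 2 + t * I : ℂ)) I t := by
    have h3 := ((Complex.ofRealCLM.hasDerivAt (x := t)).mul_const I).const_add (1 / 2 : ℂ)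
    simpa using h3
  exact HasDerivAt.scomp_of_eq (h := fun t : ℝ => (1 / 2 + t * I : ℂ)) t h1 h2 rfl |>.congr_deriv (by
    rw [smul_eq_mul, mul_comm]; rfl)

lemma yy_cont (j : ℕ) : Continuous (yy j) :=
  continuous_iff_continuousAt.2 fun t => (yy_der j t).continuousAt

/-- the pointwise lower bound for the first derivative -/
lemma z1_ge {T t : ℝ} (hT : 100 ≤ T) (h1 : T < t) (h2 : t ≤ 8 * T) (hL : 4 ≤ Real.log T) :
    (Real.log T / 2 - 2) * ‖z t‖ ≤ ‖z1 t‖ := by
  obtain ⟨c₀, hc₀, hc₁⟩ := Pool.Agent.Q85.Mom.exists_root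
  have hd := HZ_der c₀ t
  set D := c₀ * (cexp (ph t * I) * ((z1 t + (GP.lamE t / 2 : ℝ) * z t) * I)) with hD
  have hconj : HasDerivAt (fun t => (starRingEnd ℂ) (HZ c₀ t)) ((starRingEnd ℂ) D) t := by
    exact (Complex.conjCLE.toContinuousLinearMap.hasFDerivAt.comp_hasDerivAt t hd)
  have hev : (fun t => (starRingEnd ℂ) (HZ c₀ t)) =ᶠ[𝓝 t] HZ c₀ := by
    filter_upwards [lt_mem_nhds (show (100 : ℝ) < t by linarith)] with u hu
    exact HZ_real hc₀ hc₁ hu.le
  have hDr : (starRingEnd ℂ) D = D := (hconj.congr_of_eventuallyEq hev.symm).unique hd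
  have hDim : D.im = 0 := Complex.conj_eq_iff_im.1 hDr
  have hHr := HZ_real hc₀ hc₁ (t := t) (by linarith)
  have hHim : (HZ c₀ t).im = 0 := Complex.conj_eq_iff_im.1 hHr
  set A : ℂ := c₀ * (cexp (ph t * I) * (z1 t * I)) with hA
  have hDA : D = A + ((GP.lamE t / 2 : ℝ) : ℂ) * HZ c₀ t * I := by
    rw [hD, hA]
    unfold HZ
    ring
  have hAn : ‖A‖ = ‖z1 t‖ := by
    rw [hA, norm_mul, hc₁, one_mul, norm_mul, Complex.norm_exp_ofReal_mul_I, one_mul, norm_mul,
      norm_I, mul_one]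
  have hHn : ‖HZ c₀ t‖ = ‖z t‖ := by
    unfold HZ
    rw [norm_mul, hc₁, one_mul, norm_mul, Complex.norm_exp_ofReal_mul_I, one_mul]
  have him : A.im = -(GP.lamE t / 2 * (HZ c₀ t).re) := by
    have h3 := congrArg Complex.im hDA
    rw [hDim, Complex.add_im, Complex.mul_I_im, Complex.re_ofReal_mul] at h3
    linarith
  have hHre : |(HZ c₀ t).re| = ‖z t‖ := by
    rw [← hHn]
    have h3 : HZ c₀ t = (((HZ c₀ t).re : ℝ) : ℂ) := (Complex.conj_eq_iff_re.1 hHr).symm
    nth_rewrite 2 [h3]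
    rw [Complex.norm_real, Real.norm_eq_abs]
  have hlam := abs_le.1 (lamE_near hT h1.le h2)
  calc (Real.log T / 2 - 2) * ‖z t‖ ≤ (GP.lamE t / 2) * ‖z t‖ :=
        mul_le_mul_of_nonneg_right (by linarith [hlam.1]) (norm_nonneg _)
    _ = |A.im| := by
        rw [him, abs_neg, abs_mul, hHre, abs_of_nonneg (by linarith [hlam.1])]
    _ ≤ ‖A‖ := Complex.abs_im_le_norm A
    _ = ‖z1 t‖ := hAn

/-- upper bounds -/
theorem up : ∃ C T₀ : ℝ, 1 ≤ C ∧ 3 ≤ T₀ ∧ ∀ (m : ℕ) (p T a b : ℝ), 1 ≤ p → T₀ ≤ T →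
    T + 1 ≤ a → a + C ^ p ≤ b → b + 1 ≤ 8 * T →
    nrm p a b (yy m) ≤ C * m.factorial * Real.log T ^ m *
      nrm p (a - 2 * Real.log T) (b + 2 * Real.log T) z := by
  obtain ⟨C, T₀, hC, hT₀, h1⟩ := AA_int
  refine ⟨max C (6 * Real.exp (3 / 2 + 2 * C)), max T₀ (Real.exp 16), hC.trans (le_max_left _ _),
    hT₀.trans (le_max_left _ _), ?_⟩
  intro m p T a b hp hT ha hab hb
  have hTT₀ : T₀ ≤ T := (le_max_left _ _).trans hT
  have hT3 : 3 ≤ T := hT₀.trans hTT₀
  have hT0 : 0 < T := by linarith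
  set ℓ : ℝ := Real.log T with hℓ
  have hℓ16 : 16 ≤ ℓ := by
    rw [hℓ, ← Real.log_exp 16]
    exact Real.log_le_log (Real.exp_pos _) ((le_max_right _ _).trans hT)
  have hℓ0 : 0 < ℓ := by linarith
  have hp0 : 0 < p := by linarith
  set C' : ℝ := max C (6 * Real.exp (3 / 2 + 2 * C)) with hC'
  have hCC' : C ^ p ≤ C' ^ p := Real.rpow_le_rpow (by linarith) (le_max_left _ _) hp0.le
  have hCp : 0 < C ^ p := by positivity
  have hab' : a ≤ b := by linarith
  set r : ℝ := 2 / ℓ with hr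
  set ρ : ℝ := 1 / ℓ with hρ
  have hr0 : 0 < r := by positivity
  have hρ0 : 0 < ρ := by positivity
  have hr8 : r ≤ 1 / 8 := by
    rw [hr, div_le_iff₀ hℓ0]
    linarith
  have hρr : ρ < r := by
    rw [hρ, hr]
    exact div_lt_div_of_pos_right (by norm_num) hℓ0
  have hcoef : (r + ρ) / (r - ρ) = 3 := by
    rw [hr, hρ]
    field_simp
    norm_num
  have h2 := h1 p T a b r hp hTT₀ ha (by linarith) hb hr0.le hr8
  set N := nrm p (a - 2 * ℓ) (b + 2 * ℓ) z with hN
  have hN0 : 0 ≤ N := nrm_nonneg (by linarith) _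
  set Am : ℝ := m.factorial * ℓ ^ m * Real.exp (1 / 2) with hAm
  have hAm0 : 0 ≤ Am := by positivity
  -- pointwise
  have hpt : ∀ t : ℝ, ‖yy m t‖ ^ p ≤ Am ^ p * (3 * AA (ℓ / 2) r p t) := by
    intro t
    have hA0 : 0 ≤ 3 * AA (ℓ / 2) r p t := mul_nonneg (by norm_num) (AA_nonneg _ _ _ _)
    set Q : ℝ := Real.exp (1 / 2) * (3 * AA (ℓ / 2) r p t) ^ (1 / p) with hQ
    set c : ℂ := 1 / 2 + t * I with hc
    have hball : closedBall c ρ ⊆ ({1} : Set ℂ)ᶜ := by
      intro s hs h1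
      rw [mem_singleton_iff] at h1
      rw [mem_closedBall_iff_norm, h1] at hs
      have h2 := (Complex.abs_re_le_norm (1 - c)).trans hs
      rw [hc] at h2
      norm_num at h2
      linarith
    have hdz : DifferentiableOn ℂ riemannZeta ({1} : Set ℂ)ᶜ := fun s hs =>
      (differentiableAt_riemannZeta (by simpa using hs)).differentiableWithinAt
    have hdcl : DiffContOnCl ℂ riemannZeta (ball c ρ) := by
      refine ⟨hdz.mono (ball_subset_closedBall.trans hball), ?_⟩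
      rw [closure_ball c hρ0.ne']
      exact hdz.continuousOn.mono hball
    have hsph : ∀ s ∈ sphere c ρ, ‖riemannZeta s‖ ≤ Q := by
      intro s hs
      rw [mem_sphere_iff_norm] at hs
      have h3 := peak (t := t) (r := r) (ρ := ρ) (lam := ℓ / 2) (p := p) (w := s - c) hr8 hp hs.le hρr
      rw [hcoef, ← hc, add_sub_cancel] at h3
      have h4 := Real.rpow_le_rpow (by positivity) h3 (by positivity : 0 ≤ 1 / p)
      rw [← Real.rpow_mul (by positivity), mul_one_div, div_self hp0.ne', Real.rpow_one] at h4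
      have h5 : Real.exp (-(1 / 2)) ≤ Real.exp (ℓ / 2 * (s - c).re) := by
        rw [Real.exp_le_exp]
        have h6 := abs_le.1 ((Complex.abs_re_le_norm (s - c)).trans hs.le)
        have h7 : ℓ / 2 * (-ρ) ≤ ℓ / 2 * (s - c).re :=
          mul_le_mul_of_nonneg_left h6.1 (by linarith)
        have h8 : ℓ / 2 * (-ρ) = -(1 / 2) := by
          rw [hρ]
          field_simp
        linarith
      have h6 : Real.exp (-(1 / 2)) * ‖riemannZeta s‖ ≤ (3 * AA (ℓ / 2) r p t) ^ (1 / p) :=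
        (mul_le_mul_of_nonneg_right h5 (norm_nonneg _)).trans h4
      rw [Real.exp_neg, inv_mul_le_iff₀ (Real.exp_pos _)] at h6
      exact h6
    have h3 := Complex.norm_iteratedDeriv_le_of_forall_mem_sphere_norm_le m hρ0 hdcl hsph
    have h4 : ‖yy m t‖ ≤ Am * (3 * AA (ℓ / 2) r p t) ^ (1 / p) := by
      refine h3.trans (le_of_eq ?_)
      rw [hQ, hAm, hρ, one_div_pow]
      field_simp
    have h5 := Real.rpow_le_rpow (norm_nonneg _) h4 hp0.le
    rwa [Real.mul_rpow hAm0 (by positivity), ← Real.rpow_mul hA0, one_div,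
      inv_mul_cancel₀ hp0.ne', Real.rpow_one] at h5
  have hAc : Continuous (AA (ℓ / 2) r p) := AA_cont hp0.le hr0.le hr8
  have h3 : ∫ t in a..b, ‖yy m t‖ ^ p ≤ ∫ t in a..b, Am ^ p * (3 * AA (ℓ / 2) r p t) := by
    apply intervalIntegral.integral_mono_on hab'
    · exact (cont_pow hp0.le (yy_cont m)).intervalIntegrable _ _
    · exact ((hAc.const_mul 3).const_mul _).intervalIntegrable _ _
    · exact fun t _ => hpt t
  rw [intervalIntegral.integral_const_mul, intervalIntegral.integral_const_mul] at h3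
  set K : ℝ := (1 + 4 * ℓ / T) * Real.exp (r * (ℓ / 2 + C)) * N with hK
  have hK0 : 0 ≤ K := by positivity
  have h3p : (3 : ℝ) ≤ 3 ^ p := by
    calc (3 : ℝ) = 3 ^ (1 : ℝ) := (Real.rpow_one 3).symm
      _ ≤ 3 ^ p := Real.rpow_le_rpow_of_exponent_le (by norm_num) hp
  have h4 : ∫ t in a..b, ‖yy m t‖ ^ p ≤ (Am * 3 * K) ^ p := by
    rw [Real.mul_rpow (by positivity) hK0, Real.mul_rpow hAm0 (by norm_num)]
    refine h3.trans ?_
    rw [mul_assoc]
    apply mul_le_mul_of_nonneg_left _ (by positivity)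
    exact mul_le_mul h3p h2 (intervalIntegral.integral_nonneg hab' fun t _ => AA_nonneg _ _ _ _)
      (by positivity)
  have h5 : nrm p a b (yy m) ≤ Am * 3 * K := by
    have h6 := Real.rpow_le_rpow (int_nonneg hab' _) h4 (by positivity : 0 ≤ 1 / p)
    rw [← Real.rpow_mul (by positivity), mul_one_div, div_self hp0.ne', Real.rpow_one] at h6
    exact h6
  refine h5.trans ?_
  have h6 : 1 + 4 * ℓ / T ≤ 2 * 1 := by
    have h7 : ℓ ≤ T / 4 := by
      have h8 := Real.add_one_le_exp (ℓ / 4)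
      have h9 : T = Real.exp (ℓ / 4) ^ 4 := by
        rw [← Real.exp_nat_mul, hℓ]
        push_cast
        rw [mul_div_cancel₀ _ (by norm_num : (4 : ℝ) ≠ 0), Real.exp_log hT0]
      have h10 : (ℓ / 4 + 1) ^ 4 ≤ T := by
        rw [h9]
        exact pow_le_pow_left₀ (by positivity) h8 4
      have a1 : ℓ ≤ (ℓ / 4 + 1) ^ 2 := by nlinarith [sq_nonneg (ℓ / 4 - 1)]
      have a2 : ℓ ^ 2 ≤ ((ℓ / 4 + 1) ^ 2) ^ 2 := pow_le_pow_left₀ hℓ0.le a1 2
      have a3 : ((ℓ / 4 + 1) ^ 2) ^ 2 = (ℓ / 4 + 1) ^ 4 := by ring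
      have a4 : 4 * ℓ ≤ ℓ ^ 2 := by nlinarith
      linarith
    have h8 : 4 * ℓ / T ≤ 1 := by
      rw [div_le_one hT0]
      linarith
    linarith
  have h7 : Real.exp (r * (ℓ / 2 + C)) ≤ Real.exp (1 + 2 * C) := by
    rw [Real.exp_le_exp]
    have e1 : r * (ℓ / 2 + C) = 1 + 2 * C / ℓ := by
      rw [hr]
      field_simp
    rw [e1]
    have : 2 * C / ℓ ≤ 2 * C := div_le_self (by linarith) (by linarith)
    linarith
  have h8 : K ≤ 2 * Real.exp (1 + 2 * C) * N := by
    rw [hK]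
    apply mul_le_mul_of_nonneg_right _ hN0
    calc _ ≤ (2 * 1) * Real.exp (1 + 2 * C) := mul_le_mul h6 h7 (Real.exp_pos _).le (by norm_num)
      _ = _ := by ring
  calc Am * 3 * K ≤ Am * 3 * (2 * Real.exp (1 + 2 * C) * N) :=
        mul_le_mul_of_nonneg_left h8 (by positivity)
    _ = (6 * Real.exp (3 / 2 + 2 * C)) * m.factorial * ℓ ^ m * N := by
        rw [hAm]
        have e : Real.exp (3 / 2 + 2 * C) = Real.exp (1 / 2) * Real.exp (1 + 2 * C) := by
          rw [← Real.exp_add]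
          congr 1
          ring
        rw [e]
        ring
    _ ≤ C' * m.factorial * ℓ ^ m * N := by
        have : 6 * Real.exp (3 / 2 + 2 * C) ≤ C' := le_max_right _ _
        gcongr

end Pool.Agent.Q85.Mom
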