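import Mathlib
import Pool.Agent.Q85.Mom.Der
import Pool.Agent.Q85.Mom.Blk

set_option autoImplicit false

/-!
# Lower bounds for the moments of the derivatives of zeta
-/

open Filter Topology Set MeasureTheory Complex Metric

namespace Pool.Agent.Q85.Mom

open Pool.Agent.W188

/-- polynomial growth -/
lemma z_growth : ∃ (B : ℕ) (T₀ : ℝ), ∀ T t : ℝ, T₀ ≤ T → T ≤ t → t ≤ 8 * T → ‖z t‖ ≤ T ^ B := by
  obtain ⟨C₁, B, hC₁, hgr⟩ := Pool.Agent.H448R2.GC.zeta_one_growth 1
  refine ⟨B + 1, max 1 (C₁ * 10 ^ B), fun T t hT h1 h2 => ?_⟩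
  have hT1 : 1 ≤ T := (le_max_left _ _).trans hT
  have hT0 : 0 < T := by linarith
  have ht0 : 0 < t := by linarith
  have h3 := hgr (1 / 2 + t * I) (by simp; norm_num) (by simp; norm_num)
  rw [Function.update_of_ne (ne_one t)] at h3
  have e1 : (1 / 2 + t * I : ℂ).im = t := by simp
  rw [e1, norm_mul, abs_of_pos ht0] at h3
  have h4 : 1 ≤ ‖(1 / 2 + t * I : ℂ) - 1‖ := by
    refine le_trans ?_ (Complex.abs_im_le_norm _)
    have : ((1 / 2 + t * I : ℂ) - 1).im = t := by simp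
    rw [this, abs_of_pos ht0]
    linarith
  have h5 : ‖z t‖ ≤ ‖(1 / 2 + t * I : ℂ) - 1‖ * ‖riemannZeta (1 / 2 + t * I)‖ := by
    unfold z
    exact le_mul_of_one_le_left (norm_nonneg _) h4
  calc ‖z t‖ ≤ C₁ * (1 + t) ^ B := h5.trans h3
    _ ≤ C₁ * (10 * T) ^ B := by
        apply mul_le_mul_of_nonneg_left _ hC₁.le
        exact pow_le_pow_left₀ (by positivity) (by linarith) B
    _ = (C₁ * 10 ^ B) * T ^ B := by rw [mul_pow]; ring
    _ ≤ T * T ^ B := by
        apply mul_le_mul_of_nonneg_right ((le_max_right _ _).trans hT) (by positivity)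
    _ = T ^ (B + 1) := by ring

/-- the moments do not grow too fast when the interval grows -/
lemma reg : ∃ B₁ C₂ T₀ : ℝ, 1 ≤ B₁ ∧ 1 ≤ C₂ ∧ 3 ≤ T₀ ∧ ∀ (p T a b w : ℝ), 1 ≤ p → T₀ ≤ T →
    Real.log T ≤ w → T ≤ a - B₁ * Real.log T * w → b + B₁ * Real.log T * w ≤ 8 * T →
    a + C₂ ^ p ≤ b → ∃ j : ℕ, (j : ℝ) + 1 ≤ B₁ * Real.log T ∧
      nrm p (a - (j + 1) * w) (b + (j + 1) * w) z ≤ 2 * nrm p (a - j * w) (b + j * w) z := by
  obtain ⟨c, T₁, hc0, hc1, hT₁, hlow⟩ := low
  obtain ⟨B, T₂, hgr⟩ := z_growth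
  have hB0 : (0 : ℝ) ≤ B := Nat.cast_nonneg B
  refine ⟨2 * B + 9, 2 / c, max (max T₁ T₂) (Real.exp 3), by linarith, ?_, ?_, ?_⟩
  · rw [le_div_iff₀ hc0]
    linarith
  · exact hT₁.trans ((le_max_left _ _).trans (le_max_left _ _))
  intro p T a b w hp hT hw ha hb hab
  have hTT₁ : T₁ ≤ T := ((le_max_left _ _).trans (le_max_left _ _)).trans hT
  have hTT₂ : T₂ ≤ T := ((le_max_right _ _).trans (le_max_left _ _)).trans hT
  have hT3 : 3 ≤ T := hT₁.trans hTT₁
  have hT0 : 0 < T := by linarith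
  set ℓ : ℝ := Real.log T with hℓ
  have hℓ3 : 3 ≤ ℓ := by
    rw [hℓ, ← Real.log_exp 3]
    exact Real.log_le_log (Real.exp_pos _) ((le_max_right _ _).trans hT)
  have hℓ0 : 0 < ℓ := by linarith
  have hp0 : 0 < p := by linarith
  have hw0 : 0 < w := by linarith
  have hCp : 1 ≤ (2 / c) ^ p := by
    apply Real.one_le_rpow _ hp0.le
    rw [le_div_iff₀ hc0]
    linarith
  have hab' : a ≤ b := by linarith
  have hab1 : a + 1 ≤ b := by linarith
  have h2c : 2 ≤ c * (b - a) ^ (1 / p) := by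
    have h1 : (2 / c) ≤ (b - a) ^ (1 / p) := by
      have h2 := Real.rpow_le_rpow (by positivity) (show (2 / c) ^ p ≤ b - a by linarith)
        (by positivity : 0 ≤ 1 / p)
      rwa [← Real.rpow_mul (by positivity), mul_one_div, div_self hp0.ne', Real.rpow_one] at h2
    rwa [div_le_iff₀' hc0] at h1
  have hBw : 0 ≤ (2 * (B : ℝ) + 9) * ℓ * w := by positivity
  have hl := hlow p T a b hp hTT₁ (by linarith) hab1 (by linarith) (by linarith)
  set N : ℕ → ℝ := fun j => nrm p (a - j * w) (b + j * w) z with hN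
  have hN1 : 1 ≤ N 1 := by
    have h1 : nrm p (a - ℓ) (b + ℓ) z ≤ N 1 := by
      rw [hN]
      simp only [Nat.cast_one, one_mul]
      exact nrm_interval hp0 (by linarith) (by linarith) (by linarith) z_cont
    linarith
  set J : ℕ := ⌈(2 * (B : ℝ) + 7) * ℓ⌉₊ with hJ
  have hJ1 : (2 * (B : ℝ) + 7) * ℓ ≤ J := Nat.le_ceil _
  have hJ2 : (J : ℝ) < (2 * (B : ℝ) + 7) * ℓ + 1 := Nat.ceil_lt_add_one (by positivity)
  by_contra hcon
  push Not at hcon
  have h3 : ∀ j : ℕ, j ≤ J → (2 : ℝ) ^ j ≤ N (j + 1) := by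
    intro j
    induction j with
    | zero => intro _; simpa using hN1
    | succ j ih =>
      intro hj
      have h4 := ih (by omega)
      have hj' : ((j + 1 : ℕ) : ℝ) ≤ J := by exact_mod_cast hj
      have h5 := hcon (j + 1) (by push_cast at hj' ⊢; nlinarith)
      rw [pow_succ]
      have e : N (j + 1 + 1) = nrm p (a - ((j + 1 : ℕ) + 1) * w) (b + ((j + 1 : ℕ) + 1) * w) z := by
        rw [hN]
        push_cast
        rfl
      have e2 : N (j + 1) = nrm p (a - (j + 1 : ℕ) * w) (b + (j + 1 : ℕ) * w) z := by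
        rw [hN]
      rw [e]
      rw [e2] at h4
      linarith
  have h4 := h3 J le_rfl
  have hJ3 : ((J : ℝ) + 1) * w ≤ (2 * (B : ℝ) + 9) * ℓ * w := by
    apply mul_le_mul_of_nonneg_right _ hw0.le
    nlinarith
  have h5 : N (J + 1) ≤ T ^ B * (8 * T) := by
    have e : N (J + 1) = nrm p (a - (J + 1) * w) (b + (J + 1) * w) z := by
      rw [hN]
      push_cast
      rfl
    rw [e]
    have hJw : 0 ≤ ((J : ℝ) + 1) * w := by positivity
    have h6 := nrm_le_const (K := T ^ B) (p := p) (a := a - (J + 1) * w) (b := b + (J + 1) * w) hp0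
      (by linarith) z_cont (by positivity) fun t ht => hgr T t hTT₂ (by linarith [ht.1])
        (by linarith [ht.2])
    refine h6.trans (mul_le_mul_of_nonneg_left ?_ (by positivity))
    have h7 : (b + (J + 1) * w - (a - (J + 1) * w)) ^ (1 / p) ≤
        (b + (J + 1) * w - (a - (J + 1) * w)) ^ (1 : ℝ) := by
      apply Real.rpow_le_rpow_of_exponent_le (by linarith)
      rw [div_le_one hp0]
      exact hp
    rw [Real.rpow_one] at h7
    linarith
  have h6 : (2 : ℝ) ^ J ≤ Real.exp ((B + 4) * ℓ) := by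
    have e : Real.exp ((B + 4) * ℓ) = T ^ B * T ^ 4 := by
      rw [add_mul, Real.exp_add]
      congr 1
      · rw [Real.exp_nat_mul, hℓ, Real.exp_log hT0]
      · rw [show (4 : ℝ) = ((4 : ℕ) : ℝ) by norm_num, Real.exp_nat_mul, hℓ, Real.exp_log hT0]
    rw [e]
    refine (h4.trans h5).trans (mul_le_mul_of_nonneg_left ?_ (by positivity))
    have : 8 ≤ T ^ 3 := by
      calc (8 : ℝ) ≤ 3 ^ 3 := by norm_num
        _ ≤ T ^ 3 := pow_le_pow_left₀ (by norm_num) hT3 3
    nlinarith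
  have h7 : (2 : ℝ) ^ J = Real.exp (J * Real.log 2) := by
    rw [Real.exp_nat_mul, Real.exp_log (by norm_num)]
  rw [h7, Real.exp_le_exp] at h6
  have h8 : (2 / 3 : ℝ) < Real.log 2 := by
    have := Real.log_two_gt_d9
    linarith
  have h9 : (J : ℝ) * (2 / 3) ≤ J * Real.log 2 := mul_le_mul_of_nonneg_left h8.le (by positivity)
  nlinarith

/-- lower bounds for the derivatives, up to a small multiple of the moment itself -/
lemma low_der {C₀ T₁ : ℝ} (hC₀ : 1 ≤ C₀) (hup : ∀ (m : ℕ) (p T a b : ℝ), 1 ≤ p → T₁ ≤ T →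
    T + 1 ≤ a → a + C₀ ^ p ≤ b → b + 1 ≤ 8 * T →
    nrm p a b (yy m) ≤ C₀ * m.factorial * Real.log T ^ m *
      nrm p (a - 2 * Real.log T) (b + 2 * Real.log T) z) (m : ℕ) :
    ∀ θ : ℝ, 0 < θ → ∃ K T₀ : ℝ, 1 ≤ K ∧ 3 ≤ T₀ ∧ ∀ (p T a b : ℝ), 1 ≤ p → T₀ ≤ T →
      T + 1 ≤ a - 3 * (m + 1) * Real.log T → a + C₀ ^ p ≤ b →
      b + 3 * (m + 1) * Real.log T + 1 ≤ 8 * T →
      nrm p a b z ≤ K / Real.log T ^ (m + 1) * nrm p (a - (m + 1)) (b + (m + 1)) (yy (m + 1)) +
        θ * nrm p (a - 3 * (m + 1) * Real.log T) (b + 3 * (m + 1) * Real.log T) z := by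
  induction m with
  | zero =>
    intro θ hθ
    refine ⟨4, max 100 (Real.exp 8), by norm_num, (by norm_num : (3 : ℝ) ≤ 100).trans
      (le_max_left _ _), ?_⟩
    intro p T a b hp hT ha hab hb
    have hT100 : 100 ≤ T := (le_max_left _ _).trans hT
    set ℓ : ℝ := Real.log T with hℓ
    have hℓ8 : 8 ≤ ℓ := by
      rw [hℓ, ← Real.log_exp 8]
      exact Real.log_le_log (Real.exp_pos _) ((le_max_right _ _).trans hT)
    have hℓ0 : 0 < ℓ := by linarith
    have hp0 : 0 < p := by linarith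
    have hCp : 0 < C₀ ^ p := by positivity
    have hab' : a ≤ b := by linarith
    simp only [Nat.cast_zero, zero_add, mul_one, pow_one] at ha hb ⊢
    have h1 : nrm p a b z ≤ 4 / ℓ * nrm p a b (yy 1) := by
      refine nrm_mono hp0 hab' z_cont (yy_cont 1) (by positivity) fun t ht => ?_
      have h2 := z1_ge hT100 (by linarith [ht.1] : T < t) (by linarith [ht.2] : t ≤ 8 * T)
        (by rw [← hℓ]; linarith)
      rw [yy_one, div_mul_eq_mul_div, le_div_iff₀ hℓ0]
      rw [← hℓ] at h2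
      have h3 : ℓ / 4 * ‖z t‖ ≤ (ℓ / 2 - 2) * ‖z t‖ :=
        mul_le_mul_of_nonneg_right (by linarith) (norm_nonneg _)
      linarith
    have h2 : nrm p a b (yy 1) ≤ nrm p (a - 1) (b + 1) (yy 1) :=
      nrm_interval hp0 (by linarith) hab' (by linarith) (yy_cont 1)
    have h3 : 4 / ℓ * nrm p a b (yy 1) ≤ 4 / ℓ * nrm p (a - 1) (b + 1) (yy 1) :=
      mul_le_mul_of_nonneg_left h2 (by positivity)
    have h4 : 0 ≤ θ * nrm p (a - 3 * ℓ) (b + 3 * ℓ) z :=
      mul_nonneg hθ.le (nrm_nonneg (by linarith) _)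
    linarith
  | succ m ih =>
    intro θ hθ
    obtain ⟨K, T₂, hK, hT₂, h1⟩ := ih (θ / 2) (by positivity)
    set A : ℝ := 4 * K * C₀ * m.factorial / θ with hA
    have hm0 : (0 : ℝ) < m.factorial := by exact_mod_cast m.factorial_pos
    have hK0 : 0 < K := by linarith
    have hC₀0 : 0 < C₀ := by linarith
    have hA0 : 0 < A := by positivity
    refine ⟨max 1 (K * A / 2), max (max T₁ T₂) (Real.exp (A + m + 3)), le_max_left _ _,
      hT₂.trans ((le_max_right _ _).trans (le_max_left _ _)), ?_⟩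
    intro p T a b hp hT ha hab hb
    have hTT₁ : T₁ ≤ T := ((le_max_left _ _).trans (le_max_left _ _)).trans hT
    have hTT₂ : T₂ ≤ T := ((le_max_right _ _).trans (le_max_left _ _)).trans hT
    have hT3 : 3 ≤ T := hT₂.trans hTT₂
    set ℓ : ℝ := Real.log T with hℓ
    have hℓA : A + m + 3 ≤ ℓ := by
      rw [hℓ, ← Real.log_exp (A + m + 3)]
      exact Real.log_le_log (Real.exp_pos _) ((le_max_right _ _).trans hT)
    have hmm : (0 : ℝ) ≤ m := Nat.cast_nonneg m
    have hℓ0 : 0 < ℓ := by linarith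
    have hp0 : 0 < p := by linarith
    have hCp : 0 < C₀ ^ p := by positivity
    have hab' : a ≤ b := by linarith
    push_cast at ha hb ⊢
    have hwid : (m : ℝ) + 3 + 2 * ℓ ≤ 3 * (m + 1 + 1) * ℓ := by nlinarith
    have hwid2 : 3 * ((m : ℝ) + 1) * ℓ ≤ 3 * (m + 1 + 1) * ℓ := by nlinarith
    set M := nrm p (a - 3 * (m + 1 + 1) * ℓ) (b + 3 * (m + 1 + 1) * ℓ) z with hM
    have hM0 : 0 ≤ M := nrm_nonneg (by nlinarith) _
    have h2 := h1 p T a b hp hTT₂ (by linarith) hab (by linarith)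
    have h3 : nrm p (a - 3 * (m + 1) * ℓ) (b + 3 * (m + 1) * ℓ) z ≤ M :=
      nrm_interval hp0 (by linarith) (by nlinarith) (by linarith) z_cont
    -- Landau
    have hf1 : ∀ t, HasDerivAt (fun t => yy (m + 1) t * I) (-yy (m + 1 + 1) t) t := by
      intro t
      have := (yy_der (m + 1) t).mul_const I
      refine this.congr_deriv ?_
      rw [mul_assoc, I_mul_I]
      ring
    have h4 := landau (a := a - (m + 1)) (b := b + (m + 1)) (h := A / ℓ) hp (fun t => yy_der m t)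
      hf1 (yy_cont (m + 1 + 1)).neg (by linarith) (by positivity) (by
        rw [div_le_one hℓ0]
        linarith)
    have e1 : nrm p (a - (m + 1)) (b + (m + 1)) (fun t => yy (m + 1) t * I) =
        nrm p (a - (m + 1)) (b + (m + 1)) (yy (m + 1)) :=
      nrm_congr (by linarith) fun t _ => by rw [norm_mul, norm_I, mul_one]
    have e2 : nrm p (a - (m + 1) - 1) (b + (m + 1) + 1) (fun t => -yy (m + 1 + 1) t) =
        nrm p (a - (m + 1) - 1) (b + (m + 1) + 1) (yy (m + 1 + 1)) :=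
      nrm_congr (by linarith) fun t _ => by rw [norm_neg]
    rw [e1, e2] at h4
    have h5 := hup m p T (a - (m + 1) - 1) (b + (m + 1) + 1) hp hTT₁ (by linarith)
      (by linarith) (by linarith)
    rw [← hℓ] at h5
    have h6 : nrm p (a - (m + 1) - 1 - 2 * ℓ) (b + (m + 1) + 1 + 2 * ℓ) z ≤ M :=
      nrm_interval hp0 (by linarith) (by linarith) (by linarith) z_cont
    have h7 : nrm p (a - (m + 1) - 1) (b + (m + 1) + 1) (yy m) ≤
        C₀ * m.factorial * ℓ ^ m * M := h5.trans (mul_le_mul_of_nonneg_left h6 (by positivity))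
    set R := nrm p (a - (m + 1) - 1) (b + (m + 1) + 1) (yy (m + 1 + 1)) with hR
    have hR0 : 0 ≤ R := nrm_nonneg (by linarith) _
    have h8 : nrm p (a - (m + 1)) (b + (m + 1)) (yy (m + 1)) ≤
        2 / (A / ℓ) * (C₀ * m.factorial * ℓ ^ m * M) + A / ℓ / 2 * R := by
      refine h4.trans (add_le_add_left (mul_le_mul_of_nonneg_left h7 (by positivity)) _)
    have h9 : K / ℓ ^ (m + 1) * nrm p (a - (m + 1)) (b + (m + 1)) (yy (m + 1)) ≤
        θ / 2 * M + K * A / 2 / ℓ ^ (m + 1 + 1) * R := by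
      refine (mul_le_mul_of_nonneg_left h8 (by positivity)).trans (le_of_eq ?_)
      rw [hA]
      field_simp
      ring
    have h10 : K * A / 2 / ℓ ^ (m + 1 + 1) * R ≤ max 1 (K * A / 2) / ℓ ^ (m + 1 + 1) * R := by
      apply mul_le_mul_of_nonneg_right _ hR0
      exact div_le_div_of_nonneg_right (le_max_right _ _) (by positivity)
    have e3 : R = nrm p (a - (m + 1 + 1)) (b + (m + 1 + 1)) (yy (m + 1 + 1)) := by
      rw [hR]
      congr 1 <;> ring
    rw [e3] at h9 h10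
    have h11 : θ / 2 * nrm p (a - 3 * (m + 1) * ℓ) (b + 3 * (m + 1) * ℓ) z ≤ θ / 2 * M :=
      mul_le_mul_of_nonneg_left h3 (by positivity)
    linarith

end Pool.Agent.Q85.Mom
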