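import Mathlib
import Pool.Agent.Q85.Mom.Rolle

set_option autoImplicit false

/-!
# Sums over the zeros on the critical line
-/

open Complex Set Filter Topology MeasureTheory

namespace Pool.Agent.Q85.Mom

/-- the variation controlling the sum over zeros between `x` and `y` -/
noncomputable def WW (p lam x y : ℝ) : ℝ :=
  p * (∫ t in x..y, ‖ff1 lam t‖ ^ (p - 1) * ‖ff2 lam t‖) +
    2 ^ p * (p * ∫ t in x..y, ‖ff lam t‖ ^ (p - 1) * ‖ff1 lam t‖)

lemma WW_add {p : ℝ} (hp : 1 ≤ p) (lam x y w : ℝ) : WW p lam x y + WW p lam y w = WW p lam x w := by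
  have i1 := cont_mulpow hp (ff1_cont lam) (ff2_cont lam)
  have i2 := cont_mulpow hp (ff_cont lam) (ff1_cont lam)
  unfold WW
  rw [← intervalIntegral.integral_add_adjacent_intervals (i1.intervalIntegrable x y)
    (i1.intervalIntegrable y w), ← intervalIntegral.integral_add_adjacent_intervals
    (i2.intervalIntegrable x y) (i2.intervalIntegrable y w)]
  ring

lemma step {p T x y : ℝ} (hp : 1 ≤ p) (hT : 100 ≤ T) (hx : T ≤ x) (hxy : x < y) (hy : y ≤ 8 * T)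
    (hzx : z x = 0) (hzy : z y = 0) :
    ‖ff1 (Real.log T / 2) x‖ ^ p + ‖ff1 (Real.log T / 2) y‖ ^ p ≤ WW p (Real.log T / 2) x y := by
  have hp0 : 0 < p := by linarith
  set lam : ℝ := Real.log T / 2 with hlam
  obtain ⟨s, h1, h2, h3⟩ := rolle hT hx hxy hy hzx hzy
  have h4 := var_le hp (ff1_der lam) (ff2_cont lam) h1
  have h5 := var_le hp (ff1_der lam) (ff2_cont lam) h2
  have hf0 : ∀ t, z t = 0 → ff lam t = 0 := by
    intro t ht
    rw [← norm_eq_zero, norm_ff, ht, norm_zero]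
  have h6 := peak_le hp (ff_der lam) (ff1_cont lam) h1 h2 (hf0 x hzx) (hf0 y hzy)
  have h7 : ‖ff1 lam s‖ ^ p ≤ 2 ^ p * ‖ff lam s‖ ^ p := by
    rw [norm_ff1, norm_ff, ← Real.mul_rpow (by norm_num) (norm_nonneg _)]
    exact Real.rpow_le_rpow (norm_nonneg _) h3 hp0.le
  have i1 := cont_mulpow hp (ff1_cont lam) (ff2_cont lam)
  have e : ∫ t in x..y, ‖ff1 lam t‖ ^ (p - 1) * ‖ff2 lam t‖ =
      (∫ t in x..s, ‖ff1 lam t‖ ^ (p - 1) * ‖ff2 lam t‖) +
        ∫ t in s..y, ‖ff1 lam t‖ ^ (p - 1) * ‖ff2 lam t‖ :=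
    (intervalIntegral.integral_add_adjacent_intervals (i1.intervalIntegrable x s)
      (i1.intervalIntegrable s y)).symm
  have h8 : (2 : ℝ) ^ p * (2 * ‖ff lam s‖ ^ p) ≤
      2 ^ p * (p * ∫ t in x..y, ‖ff lam t‖ ^ (p - 1) * ‖ff1 lam t‖) :=
    mul_le_mul_of_nonneg_left h6 (by positivity)
  unfold WW
  rw [e]
  have h9 := (abs_le.1 h4).1
  have h10 := (abs_le.1 h5).2
  linarith

lemma chain {p T : ℝ} (hp : 1 ≤ p) (hT : 100 ≤ T) {x0 : ℝ} (hx0 : T ≤ x0) (hz0 : z x0 = 0)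
    (Z : Finset ℝ) :
    (∀ u ∈ Z, x0 < u ∧ u ≤ 8 * T ∧ z u = 0) → ∃ y : ℝ, x0 ≤ y ∧ (y = x0 ∨ y ∈ Z) ∧
      (∀ u ∈ Z, u ≤ y) ∧ ‖ff1 (Real.log T / 2) x0‖ ^ p +
        2 * ∑ u ∈ Z, ‖ff1 (Real.log T / 2) u‖ ^ p ≤
        WW p (Real.log T / 2) x0 y + ‖ff1 (Real.log T / 2) y‖ ^ p := by
  induction Z using Finset.induction_on_max with
  | empty =>
    intro _
    refine ⟨x0, le_rfl, Or.inl rfl, by simp, ?_⟩
    have : WW p (Real.log T / 2) x0 x0 = 0 := by
      unfold WW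
      simp
    rw [this]
    simp
  | insert a s hmax ih =>
    intro h
    obtain ⟨y, h1, h2, h3, h4⟩ := ih fun u hu => h u (Finset.mem_insert_of_mem hu)
    obtain ⟨ha1, ha2, ha3⟩ := h a (Finset.mem_insert_self a s)
    have hnot : a ∉ s := fun hs => lt_irrefl _ (hmax a hs)
    have hya : y < a := by
      rcases h2 with h5 | h5
      · rw [h5]; exact ha1
      · exact hmax y h5
    have hzy : z y = 0 := by
      rcases h2 with h5 | h5
      · rw [h5]; exact hz0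
      · exact (h y (Finset.mem_insert_of_mem h5)).2.2
    refine ⟨a, ha1.le, Or.inr (Finset.mem_insert_self a s), ?_, ?_⟩
    · intro u hu
      rcases Finset.mem_insert.1 hu with h5 | h5
      · exact h5.le
      · exact (hmax u h5).le
    · rw [Finset.sum_insert hnot]
      have h6 := step hp hT (hx0.trans h1) hya ha2 hzy ha3
      have h7 := WW_add hp (Real.log T / 2) x0 y a
      linarith

/-- the sum over a finite set of zeros -/
theorem zsum {p T a b q n0 : ℝ} (hp : 1 ≤ p) (hT : 100 ≤ T) (ha : T ≤ a) (hab : a ≤ b)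
    (hb : b ≤ 8 * T) (hq0 : 2 ≤ q) (hn : nrm p (a - 1) (b + 1) z ≤ n0)
    (hq : nrm p (a - 1) (b + 1) (F1 (Real.log T / 2)) ≤ q * n0)
    (hq2 : nrm p (a - 1) (b + 1) (F2 (Real.log T / 2)) ≤ q ^ 2 * n0)
    (Z : Finset ℝ) (hZ : ∀ u ∈ Z, a ≤ u ∧ u ≤ b ∧ z u = 0) :
    ∑ u ∈ Z, ‖z1 u‖ ^ p ≤ p / 2 * (q + 2) ^ (p + 1) * n0 ^ p := by
  have hp0 : 0 < p := by linarith
  have hn0 : 0 ≤ n0 := (nrm_nonneg (by linarith) _).trans hn
  set lam : ℝ := Real.log T / 2 with hlam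
  have hG : ∀ u ∈ Z, ‖z1 u‖ ^ p = ‖ff1 lam u‖ ^ p := by
    intro u hu
    rw [norm_ff1]
    unfold F1
    rw [(hZ u hu).2.2, mul_zero, add_zero]
  rw [Finset.sum_congr rfl hG]
  rcases Z.eq_empty_or_nonempty with h | h
  · rw [h, Finset.sum_empty]
    positivity
  set x0 : ℝ := Z.min' h with hx0
  have hx0Z : x0 ∈ Z := Z.min'_mem h
  obtain ⟨g1, g2, g3⟩ := hZ x0 hx0Z
  obtain ⟨y, h1, h2, h3, h4⟩ := chain hp hT (ha.trans g1) g3 (Z.erase x0) (fun u hu => by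
    have hu' := Finset.mem_erase.1 hu
    obtain ⟨k1, k2, k3⟩ := hZ u hu'.2
    exact ⟨lt_of_le_of_ne (Z.min'_le u hu'.2) (Ne.symm hu'.1), by linarith, k3⟩)
  have hyb : y ≤ b := by
    rcases h2 with h5 | h5
    · rw [h5]; exact g2
    · exact (hZ y (Finset.mem_of_mem_erase h5)).2.1
  have hsum : ∑ u ∈ Z, ‖ff1 lam u‖ ^ p = ‖ff1 lam x0‖ ^ p + ∑ u ∈ Z.erase x0, ‖ff1 lam u‖ ^ p :=
    (Finset.add_sum_erase Z _ hx0Z).symm
  have h5 := point_le hp (ff1_der lam) (ff2_cont lam) (x := x0 - 1) (y := x0) (s := x0)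
    (by linarith) le_rfl (by ring)
  have h6 := point_le hp (ff1_der lam) (ff2_cont lam) (x := y) (y := y + 1) (s := y)
    le_rfl (by linarith) (by ring)
  have i0 := cont_pow hp0.le (ff1_cont lam)
  have i1 := cont_mulpow hp (ff1_cont lam) (ff2_cont lam)
  have i2 := cont_mulpow hp (ff_cont lam) (ff1_cont lam)
  have j0 : (∫ t in (x0 - 1)..x0, ‖ff1 lam t‖ ^ p) + ∫ t in y..(y + 1), ‖ff1 lam t‖ ^ p ≤
      ∫ t in (a - 1)..(b + 1), ‖ff1 lam t‖ ^ p := by
    have k1 : ∫ t in (x0 - 1)..(y + 1), ‖ff1 lam t‖ ^ p ≤ ∫ t in (a - 1)..(b + 1), ‖ff1 lam t‖ ^ p := by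
      apply intervalIntegral.integral_mono_interval (by linarith) (by linarith) (by linarith)
      · exact Filter.Eventually.of_forall fun t => by positivity
      · exact i0.intervalIntegrable _ _
    have k2 : ∫ t in (x0 - 1)..(y + 1), ‖ff1 lam t‖ ^ p = (∫ t in (x0 - 1)..x0, ‖ff1 lam t‖ ^ p) +
        ((∫ t in x0..y, ‖ff1 lam t‖ ^ p) + ∫ t in y..(y + 1), ‖ff1 lam t‖ ^ p) := by
      rw [intervalIntegral.integral_add_adjacent_intervals (i0.intervalIntegrable _ _)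
        (i0.intervalIntegrable _ _), intervalIntegral.integral_add_adjacent_intervals
        (i0.intervalIntegrable _ _) (i0.intervalIntegrable _ _)]
    have k3 : 0 ≤ ∫ t in x0..y, ‖ff1 lam t‖ ^ p := int_nonneg h1 _
    linarith
  have j1 : (∫ t in (x0 - 1)..x0, ‖ff1 lam t‖ ^ (p - 1) * ‖ff2 lam t‖) +
      (∫ t in x0..y, ‖ff1 lam t‖ ^ (p - 1) * ‖ff2 lam t‖) +
      (∫ t in y..(y + 1), ‖ff1 lam t‖ ^ (p - 1) * ‖ff2 lam t‖) ≤
      ∫ t in (a - 1)..(b + 1), ‖ff1 lam t‖ ^ (p - 1) * ‖ff2 lam t‖ := by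
    rw [intervalIntegral.integral_add_adjacent_intervals (i1.intervalIntegrable _ _)
        (i1.intervalIntegrable _ _), intervalIntegral.integral_add_adjacent_intervals
        (i1.intervalIntegrable _ _) (i1.intervalIntegrable _ _)]
    apply intervalIntegral.integral_mono_interval (by linarith) (by linarith) (by linarith)
    · exact Filter.Eventually.of_forall fun t => by positivity
    · exact i1.intervalIntegrable _ _
  have j2 : ∫ t in x0..y, ‖ff lam t‖ ^ (p - 1) * ‖ff1 lam t‖ ≤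
      ∫ t in (a - 1)..(b + 1), ‖ff lam t‖ ^ (p - 1) * ‖ff1 lam t‖ := by
    apply intervalIntegral.integral_mono_interval (by linarith) h1 (by linarith)
    · exact Filter.Eventually.of_forall fun t => by positivity
    · exact i2.intervalIntegrable _ _
  have hab1 : a - 1 ≤ b + 1 := by linarith
  have e0 : ∫ t in (a - 1)..(b + 1), ‖ff1 lam t‖ ^ p ≤ q ^ p * n0 ^ p := by
    rw [← nrm_pow hp0 hab1 (ff1 lam), nrm_ff1, ← Real.mul_rpow (by linarith) hn0]
    exact Real.rpow_le_rpow (nrm_nonneg hab1 _) hq hp0.le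
  have e1 := wint_zeta2 hp hab1 (by linarith) hn0 hq hq2
  have e2 := wint_zeta hp hab1 hn hq
  have hmain : 2 * ∑ u ∈ Z, ‖ff1 lam u‖ ^ p ≤
      (q ^ p + p * q ^ (p + 1) + 2 ^ p * (p * q)) * n0 ^ p := by
    have k1 : p * (∫ t in (a - 1)..(b + 1), ‖ff1 lam t‖ ^ (p - 1) * ‖ff2 lam t‖) ≤
        p * (q ^ (p + 1) * n0 ^ p) := mul_le_mul_of_nonneg_left e1 hp0.le
    have k2 : (2 : ℝ) ^ p * (p * ∫ t in (a - 1)..(b + 1), ‖ff lam t‖ ^ (p - 1) * ‖ff1 lam t‖) ≤
        2 ^ p * (p * (q * n0 ^ p)) := by gcongr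
    have k3 := mul_le_mul_of_nonneg_left j1 hp0.le
    have k4 : (2 : ℝ) ^ p * (p * ∫ t in x0..y, ‖ff lam t‖ ^ (p - 1) * ‖ff1 lam t‖) ≤
        2 ^ p * (p * ∫ t in (a - 1)..(b + 1), ‖ff lam t‖ ^ (p - 1) * ‖ff1 lam t‖) := by gcongr
    unfold WW at h4
    rw [hsum]
    have k5 : (q ^ p + p * q ^ (p + 1) + 2 ^ p * (p * q)) * n0 ^ p =
        q ^ p * n0 ^ p + p * (q ^ (p + 1) * n0 ^ p) + 2 ^ p * (p * (q * n0 ^ p)) := by ring
    rw [k5]
    linarith
  have hq1 : 0 < q := by linarith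
  have hnum : q ^ p + p * q ^ (p + 1) + 2 ^ p * (p * q) ≤ p * (q + 2) ^ (p + 1) := by
    have k1 : (q + 2) ^ (p + 1) = q ^ (p + 1) * (1 + 2 / q) ^ (p + 1) := by
      rw [← Real.mul_rpow hq1.le (by positivity)]
      congr 1
      field_simp
    have k2 : 1 + (p + 1) * (2 / q) ≤ (1 + 2 / q) ^ (p + 1) :=
      one_add_mul_self_le_rpow_one_add (by
        have : 0 < 2 / q := by positivity
        linarith) (by linarith)
    have k3 : q ^ (p + 1) = q ^ p * q := by rw [Real.rpow_add hq1, Real.rpow_one]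
    have k4 : q ^ (p + 1) * (1 + (p + 1) * (2 / q)) = q ^ (p + 1) + 2 * (p + 1) * q ^ p := by
      rw [k3]
      field_simp
    have k5 : (2 : ℝ) ^ p * q ≤ 2 * q ^ p := by
      have k6 : (2 : ℝ) ^ p * q = 2 ^ (p - 1) * (2 * q) := by
        rw [Real.rpow_sub (by norm_num), Real.rpow_one]
        field_simp
      have k7 : 2 * q ^ p = q ^ (p - 1) * (2 * q) := by
        rw [Real.rpow_sub hq1, Real.rpow_one]
        field_simp
      rw [k6, k7]
      apply mul_le_mul_of_nonneg_right _ (by positivity)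
      exact Real.rpow_le_rpow (by norm_num) hq0 (by linarith)
    have k8 : q ^ (p + 1) + 2 * (p + 1) * q ^ p ≤ (q + 2) ^ (p + 1) := by
      rw [k1, ← k4]
      exact mul_le_mul_of_nonneg_left k2 (by positivity)
    have k9 : 0 < q ^ p := by positivity
    have k10 : p * (q ^ (p + 1) + 2 * (p + 1) * q ^ p) ≤ p * (q + 2) ^ (p + 1) :=
      mul_le_mul_of_nonneg_left k8 hp0.le
    have k11 : p * (2 ^ p * q) ≤ p * (2 * q ^ p) := mul_le_mul_of_nonneg_left k5 hp0.le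
    nlinarith [mul_pos hp0 k9, mul_pos (mul_pos hp0 hp0) k9]
  have hfin := mul_le_mul_of_nonneg_right hnum (by positivity : 0 ≤ n0 ^ p)
  linarith

end Pool.Agent.Q85.Mom
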